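import Pool.Agent.H77.RT.Phase

namespace Pool.Agent.H77.RT

open Turing

section out

variable {K : Type} {Γ : K → Type} {Q : Type} {D : ℕ}
  {F : Q → (∀ k, List (Γ k)) → Q × (∀ k, List (Γ k))} {q : ℕ → Q} {S : ℕ → ∀ k, List (Γ k)} {t' : ℕ}

/-- the new part of the output stack -/
theorem new_part (hT : Traj D F q S t') {out : K} {s : ℕ} (hs : s < t') {u : List (Γ out)}
    (hu : u ++ S s out = S (s + 1) out) :
    (F (q s) (tops D (S s))).2 out = u ++ tops D (S s) out := by
  rw [hT.hS s hs out] at hu
  unfold repl at hu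
  have h1 : u ++ S s out = (u ++ tops D (S s) out) ++ (S s out).drop D := by
    rw [List.append_assoc]
    congr 1
    exact (List.take_append_drop _ _).symm
  rw [h1] at hu
  exact (List.append_cancel_right hu).symm

theorem out_periodic (hT : Traj D F q S t') {out : K}
    (hsuf : ∀ s < t', S s out <:+ S (s + 1) out) {i p : ℕ}
    (hper : ∀ s, i ≤ s → s + p ≤ t' → q (s + p) = q s ∧ tops D (S (s + p)) = tops D (S s)) (n : ℕ)
    (hn : i + n + p ≤ t') :
    ∃ U, S (i + n) out = U ++ S i out ∧ S (i + n + p) out = U ++ S (i + p) out := by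
  induction n with
  | zero => exact ⟨[], rfl, rfl⟩
  | succ n ih =>
    by_cases hp : p = 0
    · subst hp
      have : ∀ n, i + n ≤ t' → ∃ U, S (i + n) out = U ++ S i out := by
        intro n
        induction n with
        | zero => intro _; exact ⟨[], rfl⟩
        | succ n ih =>
          intro h
          obtain ⟨U, hU⟩ := ih (by omega)
          obtain ⟨u, hu⟩ := hsuf (i + n) (by omega)
          exact ⟨u ++ U, by rw [← add_assoc, ← hu, hU, List.append_assoc]⟩
      obtain ⟨U, hU⟩ := this (n + 1) (by omega)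
      exact ⟨U, hU, hU⟩
    obtain ⟨U, h1, h2⟩ := ih (by omega)
    obtain ⟨u, hu⟩ := hsuf (i + n) (by omega)
    obtain ⟨u', hu'⟩ := hsuf (i + n + p) (by omega)
    have e1 := new_part hT (by omega) hu
    have e2 := new_part hT (by omega) hu'
    obtain ⟨hq, ht⟩ := hper (i + n) (by omega) (by omega)
    rw [hq, ht, e1] at e2
    have huu : u = u' := List.append_cancel_right e2
    subst huu
    refine ⟨u ++ U, ?_, ?_⟩
    · rw [← add_assoc, ← hu, h1, List.append_assoc]
    · rw [show i + (n + 1) + p = i + n + p + 1 by ring, ← hu', h2, List.append_assoc]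

theorem digits_periodic (hT : Traj D F q S t') {out : K}
    (hsuf : ∀ s < t', S s out <:+ S (s + 1) out) {i p : ℕ} (hp : 0 < p) (hip : i + p ≤ t')
    (hper : ∀ s, i ≤ s → s + p ≤ t' → q (s + p) = q s ∧ tops D (S (s + p)) = tops D (S s))
    {enc : Γ out → ℕ} {a : ℕ → ℕ}
    (hdig : ∀ s ≤ t', ∀ i < (S s out).length, Option.map enc ((S s out).reverse[i]?) = some (a i)) :
    (S t' out).length ≤ (S (i + p) out).length ∨
    ∃ π, 0 < π ∧ (S i out).length + π = (S (i + p) out).length ∧
      ∀ r, (S i out).length + r + π < (S t' out).length →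
        a ((S i out).length + r + π) = a ((S i out).length + r) := by
  have hmono1 : ∀ s s', s ≤ s' → s' ≤ t' → (S s out).length ≤ (S s' out).length := by
    intro s s' h
    induction s', h using Nat.le_induction with
    | base => intro _; exact le_rfl
    | succ s' _ ih =>
      intro h
      exact (ih (by omega)).trans (hsuf s' (by omega)).length_le
  rcases Nat.eq_or_lt_of_le (hmono1 i (i + p) (by omega) hip) with heq | hlt
  · left
    have key : ∀ n, i + n ≤ t' → (S (i + n) out).length = (S i out).length := by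
      intro n
      induction n using Nat.strong_induction_on with
      | _ n ih =>
        intro hn
        by_cases hnp : n ≤ p
        · have h1 := hmono1 i (i + n) (by omega) hn
          have h2 := hmono1 (i + n) (i + p) (by omega) hip
          omega
        · obtain ⟨U, h1, h2⟩ := out_periodic hT hsuf hper (n - p) (by omega)
          have h3 := ih (n - p) (by omega) (by omega)
          rw [show i + (n - p) + p = i + n by omega] at h2
          rw [h2, List.length_append]
          rw [h1, List.length_append] at h3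
          omega
    have := key (t' - i) (by omega)
    rw [show i + (t' - i) = t' by omega] at this
    omega
  · right
    refine ⟨(S (i + p) out).length - (S i out).length, by omega, by omega, ?_⟩
    intro r hr
    obtain ⟨U, h1, h2⟩ := out_periodic hT hsuf hper (t' - i - p) (by omega)
    rw [show i + (t' - i - p) + p = t' by omega] at h2
    have hrU : r < U.length := by
      rw [h2, List.length_append] at hr; omega
    have e1 := hdig t' le_rfl ((S i out).length + r + ((S (i + p) out).length - (S i out).length))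
      hr
    have e2 := hdig (i + (t' - i - p)) (by omega) ((S i out).length + r) (by
      rw [h1, List.length_append]; omega)
    rw [h2, List.reverse_append, List.getElem?_append_right (by rw [List.length_reverse]; omega)] at e1
    rw [h1, List.reverse_append, List.getElem?_append_right (by rw [List.length_reverse]; omega)] at e2
    rw [List.length_reverse, show (S i out).length + r + ((S (i + p) out).length - (S i out).length) -
      (S (i + p) out).length = r by omega] at e1
    rw [List.length_reverse, Nat.add_sub_cancel_left] at e2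
    rw [e1] at e2
    exact Option.some.inj e2

end out

/-- Liouville bound for periodic stretches -/
theorem per_bound {b : ℕ} (hb : 2 ≤ b) {x : ℝ} (halg : IsAlgebraic ℚ x) (hirr : Irrational x) :
    ∃ d C : ℕ, ∀ m π L : ℕ, 0 < π → (∀ r, m + r + π < L → dig b x (m + r + π) = dig b x (m + r)) →
      L ≤ (d + 1) * (m + π) + C := by
  obtain ⟨d, C, h⟩ := liouville_pow hb halg hirr
  refine ⟨d, C, fun m π L hπ hper => ?_⟩
  by_cases hL : L ≤ m + π
  · nlinarith
  push Not at hL
  obtain ⟨l, rfl⟩ : ∃ l, L = m + π + l := ⟨L - (m + π), by omega⟩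
  have hb1 : 1 ≤ b := by omega
  have hb0 : (0 : ℝ) < b := by positivity
  set I : ℤ := ⌊x * (b : ℝ) ^ (m + π)⌋ - ⌊x * (b : ℝ) ^ m⌋ with hI
  have key : ∀ r ≤ l, ⌊x * (b : ℝ) ^ (m + π + r)⌋ - ⌊x * (b : ℝ) ^ (m + r)⌋ = b ^ r * I := by
    intro r
    induction r with
    | zero => intro _; simp [hI]
    | succ r ih =>
      intro hr
      have h1 := ih (by omega)
      have h2 := hper r (by omega)
      rw [← add_assoc, ← add_assoc, floor_succ hb, floor_succ hb,
        show m + π + r = m + r + π by ring, h2, pow_succ]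
      rw [show m + π + r = m + r + π by ring] at h1
      linear_combination (b : ℤ) * h1
  have hQ : b ^ m < b ^ (m + π) := Nat.pow_lt_pow_right (by omega) (by omega)
  have h1 := h I (b ^ (m + π) - b ^ m) l (m + π) (by omega) (Nat.sub_le _ _) ?_
  · calc m + π + l ≤ m + π + (d * (m + π) + C) := by omega
      _ = (d + 1) * (m + π) + C := by ring
  · have hcast : ((b ^ (m + π) - b ^ m : ℕ) : ℝ) = (b : ℝ) ^ (m + π) - (b : ℝ) ^ m := by
      rw [Nat.cast_sub hQ.le]; push_cast; ring
    rw [hcast]
    set Q : ℝ := (b : ℝ) ^ (m + π) - (b : ℝ) ^ m with hQdef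
    have hQ1 : 1 ≤ Q := by
      rw [← hcast]
      exact_mod_cast (by omega : 1 ≤ b ^ (m + π) - b ^ m)
    have hk := key l le_rfl
    have f1 := Int.floor_le (x * (b : ℝ) ^ (m + π + l))
    have f2 := Int.lt_floor_add_one (x * (b : ℝ) ^ (m + π + l))
    have f3 := Int.floor_le (x * (b : ℝ) ^ (m + l))
    have f4 := Int.lt_floor_add_one (x * (b : ℝ) ^ (m + l))
    have hkR : (⌊x * (b : ℝ) ^ (m + π + l)⌋ : ℝ) - ⌊x * (b : ℝ) ^ (m + l)⌋ = (b : ℝ) ^ l * I := by
      exact_mod_cast hk
    have h2 : |x * Q * (b : ℝ) ^ l - (b : ℝ) ^ l * I| ≤ 1 := by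
      have e1 : x * Q * (b : ℝ) ^ l = x * (b : ℝ) ^ (m + π + l) - x * (b : ℝ) ^ (m + l) := by
        rw [hQdef, pow_add _ (m + π) l, pow_add _ m l]; ring
      rw [e1, abs_le]
      constructor <;> linarith
    have h3 : |x - I / Q| * (b : ℝ) ^ l = |x * Q * (b : ℝ) ^ l - (b : ℝ) ^ l * I| / Q := by
      have hQ0 : 0 < Q := by linarith
      rw [eq_div_iff hQ0.ne']
      rw [← abs_of_pos (show (0 : ℝ) < (b : ℝ) ^ l by positivity), ← abs_mul]
      nth_rewrite 2 [← abs_of_pos hQ0]
      rw [← abs_mul]
      congr 1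
      rw [abs_of_pos (show (0 : ℝ) < (b : ℝ) ^ l by positivity)]
      field_simp
    rw [h3, div_le_one (by linarith)]
    linarith

section tm

variable {K : Type} [Fintype K] [DecidableEq K] {Γ : K → Type} [∀ k, Fintype (Γ k)] {Λ : Type}
  [Fintype Λ] {σ : Type} [Fintype σ] (M : Λ → TM2.Stmt Γ Λ σ) (l₀ : Λ) (v₀ : σ)

/-- height of a stack after `t` steps -/
def hgt (k : K) (t : ℕ) : ℕ := ((conf M l₀ v₀ t).map (fun C => (C.stk k).length)).getD 0

theorem phase_bound {out : K} {enc : Γ out → ℕ} {c : ℕ} {b : ℕ} (hb : 2 ≤ b) {x : ℝ}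
    (halg : IsAlgebraic ℚ x) (hirr : Irrational x)
    (hmono : ∀ t t' : ℕ, t ≤ t' → ∀ C C' : TM2.Cfg Γ Λ σ, conf M l₀ v₀ t = some C →
      conf M l₀ v₀ t' = some C' → C.stk out <:+ C'.stk out)
    (hdig : ∀ n : ℕ, ∃ C : TM2.Cfg Γ Λ σ, conf M l₀ v₀ (c * (n + 1)) = some C ∧
      ∀ i < n, Option.map enc ((C.stk out).reverse[i]?) = some (dig b x i)) (B : ℕ) :
    ∃ A : ℕ, ∀ t t', t ≤ t' →
      (∀ k, k ≠ out → (∀ s s', t ≤ s → s ≤ s' → s' ≤ t' → hgt M l₀ v₀ k s ≤ hgt M l₀ v₀ k s' + B) ∨
        (∀ s s', t ≤ s → s ≤ s' → s' ≤ t' → hgt M l₀ v₀ k s' ≤ hgt M l₀ v₀ k s + B)) →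
      t' ≤ A * (t + 1) := by
  classical
  have hc : 1 ≤ c := by
    by_contra hcon
    have hc0 : c = 0 := by omega
    obtain ⟨C, hC, hi⟩ := hdig 1
    rw [hc0, zero_mul, conf_zero] at hC
    have h1 := hi 0 one_pos
    rw [← Option.some.inj hC] at h1
    simp at h1
  have hlen : ∀ n C, conf M l₀ v₀ (c * (n + 1)) = some C → n ≤ (C.stk out).length := by
    intro n C hC
    obtain ⟨C', hC', hi⟩ := hdig n
    rw [hC] at hC'
    obtain rfl := Option.some.inj hC'
    by_contra hcon
    push Not at hcon
    have := hi _ hcon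
    rw [List.getElem?_eq_none (by simp)] at this
    simp at this
  have hsome : ∀ t, ∃ C, conf M l₀ v₀ t = some C := by
    intro t
    obtain ⟨C, hC, _⟩ := hdig t
    refine conf_some_of_le M l₀ v₀ ?_ hC
    nlinarith
  choose cf hcf using hsome
  have hdig' : ∀ s, ∀ i < ((cf s).stk out).length,
      Option.map enc (((cf s).stk out).reverse[i]?) = some (dig b x i) := by
    intro s i hi
    set n := s + i + 1 with hn
    obtain ⟨C', hC', hd⟩ := hdig n
    obtain ⟨u, hu⟩ := hmono s (c * (n + 1)) (by nlinarith) (cf s) C' (hcf s) hC'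
    have h1 := hd i (by omega)
    rw [← hu, List.reverse_append, List.getElem?_append_left (by simpa using hi)] at h1
    exact h1
  set D := Finset.univ.sup (fun l => dep (M l)) with hD
  have hDl : ∀ l, dep (M l) ≤ D := fun l => Finset.le_sup (f := fun l => dep (M l)) (Finset.mem_univ l)
  set P := Finset.univ.sup (fun l => pus (M l)) with hP
  have hPl : ∀ l, pus (M l) ≤ P := fun l => Finset.le_sup (f := fun l => pus (M l)) (Finset.mem_univ l)
  obtain ⟨F, hF⟩ : ∃ F : Option Λ × σ → (∀ k, List (Γ k)) → (Option Λ × σ) × (∀ k, List (Γ k)),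
      ∀ l v tp, F (some l, v) tp = (((TM2.stepAux (M l) v tp).l, (TM2.stepAux (M l) v tp).var),
        (TM2.stepAux (M l) v tp).stk) :=
    ⟨fun q tp => match q.1 with
      | some l => (((TM2.stepAux (M l) q.2 tp).l, (TM2.stepAux (M l) q.2 tp).var),
        (TM2.stepAux (M l) q.2 tp).stk)
      | none => (q, tp), fun _ _ _ => rfl⟩
  set q : ℕ → Option Λ × σ := fun s => ((cf s).l, (cf s).var) with hq
  set S : ℕ → ∀ k, List (Γ k) := fun s => (cf s).stk with hS
  have hT : ∀ t', Traj D F q S t' := by
    intro t'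
    refine ⟨fun s _ => ?_, fun s _ k => ?_⟩
    · obtain ⟨l, hl, hC⟩ := conf_next M l₀ v₀ hDl (hcf s) (hcf (s + 1))
      simp only [hq, hS]
      rw [hl, hF, hC]
    · obtain ⟨l, hl, hC⟩ := conf_next M l₀ v₀ hDl (hcf s) (hcf (s + 1))
      simp only [hq, hS]
      rw [hl, hF, hC]
  have hlenP : ∀ s k, (S s k).length ≤ P * s := by
    intro s k
    induction s with
    | zero =>
      have : cf 0 = ⟨some l₀, v₀, fun _ => []⟩ := by
        have := hcf 0
        rw [conf_zero] at this
        exact (Option.some.inj this).symm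
      simp only [hS]
      rw [this]; simp
    | succ s ih =>
      obtain ⟨l, hl, hC⟩ := conf_next M l₀ v₀ hDl (hcf s) (hcf (s + 1))
      have h1 := stepAux_length (M l) (cf s).var (tops D (cf s).stk) k
      have h2 := hPl l
      simp only [hS] at ih ⊢
      rw [hC]
      simp only [repl]
      rw [List.length_append, List.length_drop]
      have h3 : (tops D (cf s).stk k).length = min D ((cf s).stk k).length := by
        simp [tops]
      have h4 : P * (s + 1) = P * s + P := by ring
      omega
  obtain ⟨A, hA⟩ := phase_core D B P F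
  obtain ⟨d, C, hdC⟩ := per_bound hb halg hirr
  refine ⟨A + c * ((d + 1) * (P * A) + C + 2), ?_⟩
  intro t t' htt hph
  have hh : ∀ k s, hgt M l₀ v₀ k s = (S s k).length := by
    intro k s
    unfold hgt
    rw [hcf s]; rfl
  have hsuf : ∀ s < t', S s out <:+ S (s + 1) out := fun s _ =>
    hmono s (s + 1) (Nat.le_succ s) _ _ (hcf s) (hcf (s + 1))
  have hsuf' : ∀ s s', s ≤ s' → S s out <:+ S s' out := fun s s' h =>
    hmono s s' h _ _ (hcf s) (hcf s')
  have hph' : ∀ k, (∀ s s', t ≤ s → s ≤ s' → s' ≤ t' → (S s k).length ≤ (S s' k).length + B) ∨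
      (∀ s s', t ≤ s → s ≤ s' → s' ≤ t' → (S s' k).length ≤ (S s k).length + B) := by
    intro k
    by_cases hk : k = out
    · left
      intro s s' _ h _
      have := (hsuf' s s' h).length_le
      rw [hk]; omega
    · have := hph k hk
      simp only [hh] at this
      exact this
  have hAt : A * (t + 1) ≤ (A + c * ((d + 1) * (P * A) + C + 2)) * (t + 1) :=
    Nat.mul_le_mul_right _ (Nat.le_add_right _ _)
  rcases hA q S t' (hT t') hlenP t htt hph' with h1 | ⟨i, p, hp, hipA, hip, hper⟩
  · exact h1.trans hAt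
  · have hPip : (S (i + p) out).length ≤ P * (A * (t + 1)) :=
      (hlenP _ _).trans (Nat.mul_le_mul_left _ hipA)
    have hL : (S t' out).length ≤ (d + 1) * (P * (A * (t + 1))) + C := by
      rcases digits_periodic (hT t') hsuf hp hip hper (fun s _ => hdig' s) with h1 | ⟨π, hπ, h2, h3⟩
      · nlinarith
      · have h4 := hdC _ π _ hπ h3
        rw [h2] at h4
        have h5 : (d + 1) * (S (i + p) out).length ≤ (d + 1) * (P * (A * (t + 1))) :=
          Nat.mul_le_mul_left _ hPip
        omega
    -- time versus length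
    have h6 : t' ≤ c * ((S t' out).length + 2) := by
      by_contra hcon
      push Not at hcon
      have h7 : c * ((S t' out).length + 1 + 1) ≤ t' := by
        have : c * ((S t' out).length + 1 + 1) = c * ((S t' out).length + 2) := by ring
        omega
      have h8 := hlen ((S t' out).length + 1) _ (hcf _)
      have h9 := (hsuf' _ _ h7).length_le
      simp only [hS] at h8 h9 
      omega
    calc t' ≤ c * ((S t' out).length + 2) := h6
      _ ≤ c * ((d + 1) * (P * (A * (t + 1))) + C + 2) := Nat.mul_le_mul_left _ (by omega)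
      _ ≤ c * (((d + 1) * (P * A) + C + 2) * (t + 1)) := by
          apply Nat.mul_le_mul_left
          nlinarith
      _ ≤ (A + c * ((d + 1) * (P * A) + C + 2)) * (t + 1) := by nlinarith

end tm

/-- counting -/
theorem count_phases {A : ℕ} {ph : ℕ → ℕ → Prop} (hA : ∀ t t', t ≤ t' → ph t t' → t' ≤ A * (t + 1)) :
    ∃ ε : ℝ, 0 < ε ∧ ∀ᶠ n : ℕ in Filter.atTop, ∀ F : Finset ℕ,
      (∀ t t', t ≤ t' → t' ≤ n → (∀ s ∈ F, s ≤ t ∨ t' ≤ s) → ph t t') →
      ε * Real.log n ≤ F.card := by
  set G := 2 * A + 2 with hG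
  have hG2 : 2 ≤ G := by omega
  have hGlog : 0 < Real.log G := Real.log_pos (by exact_mod_cast (by omega : 1 < G))
  refine ⟨1 / (2 * Real.log G), by positivity, ?_⟩
  filter_upwards [Filter.eventually_ge_atTop G] with n hn F hF
  set J := Nat.log G n with hJ
  have hJ1 : 1 ≤ J := by
    rw [hJ]
    exact Nat.log_pos (by omega) hn
  have hn0 : n ≠ 0 := by omega
  have hGJ : G ^ J ≤ n := Nat.pow_log_le_self G hn0
  have hGJ' : n < G ^ (J + 1) := Nat.lt_pow_succ_log_self (by omega) n
  have hsub : Finset.range J ⊆ F.image (Nat.log G) := by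
    intro j hj
    rw [Finset.mem_range] at hj
    rw [Finset.mem_image]
    by_contra hcon
    push Not at hcon
    have hle : G ^ (j + 1) ≤ n := (Nat.pow_le_pow_right (by omega) hj).trans hGJ
    have h1 := hA (G ^ j) (G ^ (j + 1)) (Nat.pow_le_pow_right (by omega) (Nat.le_succ j))
      (hF _ _ (Nat.pow_le_pow_right (by omega) (Nat.le_succ j)) hle (by
        intro s hs
        by_contra hcon2
        push Not at hcon2
        apply hcon s hs
        rw [Nat.log_eq_iff (Or.inr ⟨by omega, by
          have := hcon2.1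
          have h0 : 0 < G ^ j := Nat.pos_of_ne_zero (by positivity)
          omega⟩)]
        exact ⟨hcon2.1.le, hcon2.2⟩))
    have h2 : 1 ≤ G ^ j := Nat.one_le_pow _ _ (by omega)
    have h3 : G ^ (j + 1) = G ^ j * (2 * A + 2) := by rw [pow_succ]
    nlinarith
  have hcard : J ≤ F.card := by
    calc J = (Finset.range J).card := (Finset.card_range J).symm
      _ ≤ (F.image (Nat.log G)).card := Finset.card_le_card hsub
      _ ≤ F.card := Finset.card_image_le
  have hlog : Real.log n ≤ (J + 1) * Real.log G := by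
    have h1 : Real.log n ≤ Real.log ((G : ℝ) ^ (J + 1)) := by
      apply Real.log_le_log (by exact_mod_cast Nat.pos_of_ne_zero hn0)
      exact_mod_cast hGJ'.le
    rw [Real.log_pow] at h1
    exact_mod_cast h1
  have hJR : (1 : ℝ) ≤ J := by exact_mod_cast hJ1
  have hcR : (J : ℝ) ≤ F.card := by exact_mod_cast hcard
  rw [one_div, inv_mul_le_iff₀ (by positivity)]
  nlinarith

end Pool.Agent.H77.RT
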