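import Pool.Agent.H77.RT.ToTM

namespace Pool.Agent.H77.RT

/-- splitting each letter into `k` letters -/
theorem Gen.split {A B : Type} [Finite A] {d : ℕ → A} {k : ℕ} (hk : 0 < k) (g : A → ℕ → B)
    (h : Gen d) : Gen (fun n => g (d (n / k)) (n % k)) := by
  refine h.transduce ?_
  have hlen : ∀ n, ((List.range (k * n)).map (fun i => g (d (i / k)) (i % k))).length = k * n :=
    fun n => by simp
  refine trans_mealy (σ := Unit) k (fun _ a => ((), (List.range k).map (g a))) (by simp) () d _
    (fun _ => ()) (fun n => (List.range (k * n)).map (fun i => g (d (i / k)) (i % k))) rfl (by simp)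
    (fun _ => rfl) ?_ ?_ 1 ?_
  · intro n
    simp only
    rw [Nat.mul_succ, List.range_add, List.map_append]
    congr 1
    rw [List.map_map]
    apply List.map_congr_left
    intro j hj
    rw [List.mem_range] at hj
    simp only [Function.comp_apply]
    rw [Nat.mul_add_div hk, Nat.mul_add_mod, Nat.div_eq_of_lt hj, Nat.mod_eq_of_lt hj, add_zero]
  · intro n i hi
    simp
  · intro n
    rw [hlen]
    nlinarith

/-- grouping `k` letters -/
theorem Gen.group {A : Type} [Finite A] {d : ℕ → A} {k : ℕ} (hk : 0 < k)
    (h : Gen d) : Gen (fun n => (List.range k).map (fun j => d (k * n + j))) := by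
  refine h.transduce ?_
  have hfin : Finite {l : List A // l.length < k} := by
    have h1 : {l : List A | l.length < k}.Finite :=
      (List.finite_length_le A k).subset (fun l (hl : l.length < k) => hl.le)
    exact h1.to_subtype
  have hmod : ∀ n, n % k < k := fun n => Nat.mod_lt _ hk
  have hst : ∀ n, ((List.range (n % k)).map (fun j => d (k * (n / k) + j))).length < k := by
    intro n; simp [hmod]
  refine trans_mealy (σ := {l : List A // l.length < k}) 1
    (fun l a => if h : l.1.length + 1 < k then (⟨l.1 ++ [a], by simpa using h⟩, [])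
      else (⟨[], hk⟩, [l.1 ++ [a]])) ?_ ⟨[], hk⟩ d _
    (fun n => ⟨(List.range (n % k)).map (fun j => d (k * (n / k) + j)), hst n⟩)
    (fun n => (List.range (n / k)).map (fun i => (List.range k).map (fun j => d (k * i + j))))
    (by simp) (by simp) ?_ ?_ ?_ k ?_
  · intro s a; split_ifs <;> simp
  · intro n
    simp only [List.length_map, List.length_range]
    have hn := Nat.div_add_mod n k
    by_cases hlt : n % k + 1 < k
    · rw [dif_pos hlt]
      have e1 : (n + 1) / k = n / k := by
        rw [Nat.div_eq_iff hk]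
        have : n / k * k = k * (n / k) := Nat.mul_comm _ _
        omega
      have e2 : (n + 1) % k = n % k + 1 := by
        have := Nat.div_add_mod (n + 1) k
        rw [e1] at this; omega
      apply Subtype.ext
      simp only
      rw [e1, e2, List.range_succ, List.map_append]
      simp only [List.map_cons, List.map_nil]
      rw [hn]
    · rw [dif_neg hlt]
      have hm := hmod n
      have e0 : n + 1 = k * (n / k + 1) := by rw [Nat.mul_succ]; omega
      have e2 : (n + 1) % k = 0 := by rw [e0]; exact Nat.mul_mod_right _ _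
      apply Subtype.ext
      simp only
      rw [e2]; rfl
  · intro n
    simp only [List.length_map, List.length_range]
    have hn := Nat.div_add_mod n k
    by_cases hlt : n % k + 1 < k
    · rw [dif_pos hlt]
      have e1 : (n + 1) / k = n / k := by
        rw [Nat.div_eq_iff hk]
        have : n / k * k = k * (n / k) := Nat.mul_comm _ _
        omega
      rw [e1, List.append_nil]
    · rw [dif_neg hlt]
      have hm := hmod n
      have e0 : n + 1 = k * (n / k + 1) := by rw [Nat.mul_succ]; omega
      have e1 : (n + 1) / k = n / k + 1 := by rw [e0]; exact Nat.mul_div_cancel_left _ hk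
      rw [e1, List.range_succ, List.map_append]
      simp only [List.map_cons, List.map_nil]
      congr 2
      have e3 : k = n % k + 1 := by omega
      conv_lhs => rw [e3, List.range_succ, List.map_append]
      simp only [List.map_cons, List.map_nil]
      rw [← e3, hn]
  · intro n i hi
    simp
  · intro n
    rw [List.length_map, List.length_range, Nat.mul_div_cancel_left _ hk]; omega

/-- digit values can be grouped: from base `b` to base `b^l` -/
theorem SD.group {b : ℕ} {y : ℝ} {l : ℕ} (hl : 0 < l) (h : SD b y) : SD (b ^ l) y := by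
  obtain ⟨e, E, m, q, P, hg, he, hq, hP⟩ := h
  set g : List ℤ → ℤ := fun w => w.foldl (fun r a => r * b + a) 0 with hgdef
  set e' : ℕ → ℤ := fun n => g ((List.range l).map (fun j => e (l * n + j))) with he'
  have key : ∀ n i, acc b e m (l * n + i) = acc b e m (l * n) * b ^ i +
      g ((List.range i).map (fun j => e (l * n + j))) := by
    intro n i
    induction i with
    | zero => simp [hgdef]
    | succ i ih =>
      rw [List.range_succ, List.map_append]
      simp only [hgdef, List.map_cons, List.map_nil, List.foldl_append, List.foldl_cons,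
        List.foldl_nil] at ih ⊢
      rw [← add_assoc]
      show (b : ℤ) * acc b e m (l * n + i) + e (l * n + i) = _
      rw [ih, pow_succ]; ring
  have hacc : ∀ n, acc (b ^ l) e' m n = acc b e m (l * n) := by
    intro n
    induction n with
    | zero => rfl
    | succ n ih =>
      show ((b ^ l : ℕ) : ℤ) * acc (b ^ l) e' m n + e' n = _
      rw [ih, Nat.mul_succ, key n l]
      push_cast; ring
  have hbd : ∀ (w : List ℤ), (∀ a ∈ w, |a| ≤ E) → |g w| ≤ E * ((b : ℤ) + 1) ^ w.length * w.length := by
    intro w
    induction w using List.reverseRecOn with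
    | nil => intro _; simp [hgdef]
    | append_singleton w a ih =>
      intro hw
      have h1 := ih (fun a ha => hw a (by simp [ha]))
      have h2 : |a| ≤ E := hw a (by simp)
      have hE : 0 ≤ E := (abs_nonneg a).trans h2
      have h3 : g (w ++ [a]) = g w * b + a := by simp [hgdef]
      rw [h3, List.length_append, List.length_singleton]
      have h4 : |g w * b + a| ≤ |g w| * b + |a| := by
        refine (abs_add_le _ _).trans ?_
        rw [abs_mul, abs_of_nonneg (by positivity : (0 : ℤ) ≤ b)]
      refine h4.trans ?_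
      have h5 : |g w| * b ≤ E * ((b : ℤ) + 1) ^ w.length * w.length * (b + 1) := by
        apply mul_le_mul h1 (by linarith) (by positivity)
        positivity
      have h6 : (1 : ℤ) ≤ ((b : ℤ) + 1) ^ (w.length + 1) := one_le_pow₀ (by linarith [show (0 : ℤ) ≤ b by positivity])
      have h7 : E ≤ E * ((b : ℤ) + 1) ^ (w.length + 1) := by nlinarith
      push_cast
      calc |g w| * b + |a| ≤ E * ((b : ℤ) + 1) ^ w.length * w.length * (b + 1) +
            E * ((b : ℤ) + 1) ^ (w.length + 1) := by linarith
        _ = _ := by rw [pow_succ]; ring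
  refine ⟨e', E * ((b : ℤ) + 1) ^ l * l, m, q, P, ?_, ?_, hq, ?_⟩
  · have h1 := ((hg.finitize (mem_Icc_of_abs he)).group hl).map
      (fun w : List (Set.Icc (-E) E) => g (w.map (fun a : Set.Icc (-E) E => (a : ℤ))))
    convert h1 using 1
    funext n
    simp only [Function.comp_apply, List.map_map, he']
    rfl
  · intro n
    have h1 := hbd ((List.range l).map (fun j => e (l * n + j))) (by
      intro a ha
      rw [List.mem_map] at ha
      obtain ⟨j, _, rfl⟩ := ha
      exact he _)
    rw [List.length_map, List.length_range] at h1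
    exact h1
  · intro n
    rw [hacc]
    have := hP (l * n)
    push_cast
    rwa [← pow_mul]

/-- from base `b^k` to base `b` -/
theorem SD.split {b : ℕ} {y : ℝ} {k : ℕ} (hk : 0 < k) (h : SD (b ^ k) y) : SD b y := by
  obtain ⟨e, E, m, q, P, hg, he, hq, hP⟩ := h
  have hE : 0 ≤ E := (abs_nonneg _).trans (he 0)
  have hP0 : 0 ≤ P := (abs_nonneg _).trans (hP 0)
  set e' : ℕ → ℤ := fun n => if n % k + 1 = k then e (n / k) else 0 with he'
  have key : ∀ n i, i < k → acc b e' m (k * n + i) = acc b e' m (k * n) * b ^ i := by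
    intro n i hi
    induction i with
    | zero => simp
    | succ i ih =>
      rw [← add_assoc]
      show (b : ℤ) * acc b e' m (k * n + i) + e' (k * n + i) = _
      have h1 : e' (k * n + i) = 0 := by
        simp only [he']
        rw [Nat.mul_add_mod, Nat.mod_eq_of_lt (by omega), if_neg (by omega)]
      rw [ih (by omega), h1, pow_succ]; ring
  have hacc : ∀ n, acc b e' m (k * n) = acc (b ^ k) e m n := by
    intro n
    induction n with
    | zero => rfl
    | succ n ih =>
      obtain ⟨k', rfl⟩ : ∃ k', k = k' + 1 := ⟨k - 1, by omega⟩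
      show _ = ((b ^ (k' + 1) : ℕ) : ℤ) * acc (b ^ (k' + 1)) e m n + e n
      rw [← ih, Nat.mul_succ, ← add_assoc]
      show (b : ℤ) * acc b e' m ((k' + 1) * n + k') + e' ((k' + 1) * n + k') = _
      have h1 : e' ((k' + 1) * n + k') = e n := by
        simp only [he']
        rw [Nat.mul_add_mod, Nat.mod_eq_of_lt (by omega), if_pos rfl, Nat.mul_add_div (by omega),
          Nat.div_eq_of_lt (by omega), add_zero]
      rw [h1, key n k' (by omega)]
      push_cast; ring
  refine ⟨e', E, m, q, ((b : ℝ) + 1) ^ k * P, ?_, ?_, hq, ?_⟩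
  · have h1 := (hg.finitize (mem_Icc_of_abs he)).split hk
      (fun (a : Set.Icc (-E) E) i => if i + 1 = k then (a : ℤ) else 0)
    exact h1
  · intro n
    simp only [he']
    split_ifs
    · exact he _
    · simpa using hE
  · intro n
    have hn := Nat.div_add_mod n k
    have hm := Nat.mod_lt n hk
    have h1 : acc b e' m n = acc (b ^ k) e m (n / k) * b ^ (n % k) := by
      conv_lhs => rw [← hn]
      rw [key _ _ hm, hacc]
    have h2 := hP (n / k)
    have h3 : (q : ℝ) * y * b ^ n - (acc b e' m n : ℝ) =
        (q * y * ((b ^ k : ℕ) : ℝ) ^ (n / k) - acc (b ^ k) e m (n / k)) * b ^ (n % k) := by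
      have hpow : (b : ℝ) ^ n = (b : ℝ) ^ (k * (n / k)) * (b : ℝ) ^ (n % k) := by
        rw [← pow_add, hn]
      rw [h1, hpow]
      push_cast
      rw [pow_mul]; ring
    rw [h3, abs_mul, abs_of_nonneg (by positivity : (0 : ℝ) ≤ (b : ℝ) ^ (n % k)), mul_comm]
    apply mul_le_mul ?_ h2 (abs_nonneg _) (by positivity)
    calc (b : ℝ) ^ (n % k) ≤ ((b : ℝ) + 1) ^ (n % k) := by
          apply pow_le_pow_left₀ (by positivity); linarith
      _ ≤ ((b : ℝ) + 1) ^ k := pow_le_pow_right₀ (by linarith [show (0 : ℝ) ≤ b by positivity]) hm.le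

/-- values of a real-time generated sequence -/
theorem RealTimeGenerated.finite_range {α : Type} {a : ℕ → α} (h : RealTimeGenerated a) :
    (Set.range a).Finite := by
  obtain ⟨K, _, _, Γ, _, Λ, _, σ, _, M, l₀, v₀, out, enc, c, hmono, hdig⟩ := h
  refine (Set.finite_range enc).subset ?_
  rintro _ ⟨n, rfl⟩
  obtain ⟨C, _, hi⟩ := hdig (n + 1)
  have h1 := hi n (Nat.lt_succ_self n)
  rw [Option.map_eq_some_iff] at h1
  obtain ⟨x, _, hx⟩ := h1
  exact ⟨x, hx⟩

theorem sd_of_realTime {b : ℕ} (hb : 2 ≤ b) {x : ℝ} {e : ℕ → ℤ} (h : RealTimeGenerated e)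
    (hs : HasSum (fun i => (e i : ℝ) / (b : ℝ) ^ (i + 1)) x) : SD b x := by
  have hfin := h.finite_range
  obtain ⟨E, hE⟩ : ∃ E : ℤ, ∀ n, |e n| ≤ E := by
    have h1 : ((fun z : ℤ => |z|) '' Set.range e).Finite := hfin.image _
    obtain ⟨E, hE⟩ := h1.bddAbove
    exact ⟨E, fun n => hE ⟨e n, ⟨n, rfl⟩, rfl⟩⟩
  exact SD.of_hasSum hb h.gen hE hs

theorem realTime_of_gen {b : ℕ} (hb : 2 ≤ b) {z : ℝ} (hg : Gen (dig b z)) :
    RealTimeGenerated (dig b z) := by
  have h1 : Gen (fun n => (⟨dig b z n, dig_lt hb z n⟩ : Fin b)) := by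
    have := hg.map (fun a : ℕ => (⟨a % b, Nat.mod_lt _ (by omega)⟩ : Fin b))
    convert this using 1
    funext n
    simp only [Function.comp_apply]
    congr 1
    rw [Nat.mod_eq_of_lt (dig_lt hb z n)]
  exact h1.realTime (fun a : Fin b => (a : ℕ))

theorem main_span {b : ℕ} (hb : 2 ≤ b) {z : ℝ} (halg : IsAlgebraic ℚ z)
    (hz : z ∈ Submodule.span ℚ {x : ℝ | ∃ b' : ℕ, 2 ≤ b' ∧ (∃ k l : ℕ, 0 < k ∧ 0 < l ∧ b ^ k = b' ^ l) ∧
      (RealTimeGenerated (dig b' x) ∨
      ∃ e : ℕ → ℤ, RealTimeGenerated e ∧ HasSum (fun i => (e i : ℝ) / (b' : ℝ) ^ (i + 1)) x)}) :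
    RealTimeGenerated (dig b z) := by
  have hsd : SD b z := by
    clear halg
    induction hz using Submodule.span_induction with
    | mem x h =>
      obtain ⟨b', hb', ⟨k, l, hk, hl, hkl⟩, h⟩ := h
      have h0 : SD b' x := by
        rcases h with h | ⟨e, he, hs⟩
        · exact SD.of_gen hb' h.gen
        · exact sd_of_realTime hb' he hs
      have h1 : SD (b' ^ l) x := h0.group hl
      rw [← hkl] at h1
      exact h1.split hk
    | zero => exact SD.zero b
    | add x y _ _ hx hy => exact hx.lin hy
    | smul r x _ hx =>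
      rw [Rat.smul_def]
      exact hx.smul r
  exact realTime_of_gen hb (gen_of_sd hb hsd halg)

end Pool.Agent.H77.RT
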