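import Mathlib

/-!
Local machines: finitely many stacks, finite control; one step looks at the top `D` symbols of every
stack, replaces them, changes the control state and emits a finite word.
-/

namespace Pool.Agent.H77.RT

/-- replace the top `D` symbols of the list `S` by the list `w` -/
def repl {α : Type} (D : ℕ) (w S : List α) : List α := w ++ S.drop D

theorem repl_take_drop {α : Type} {D D' : ℕ} (h : D ≤ D') (w S : List α) :
    repl D' (w ++ (S.take D').drop D) S = repl D w S := by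
  unfold repl
  rw [List.append_assoc]
  congr 1
  rw [List.drop_take]
  have h2 : S.drop D' = (S.drop D).drop (D' - D) := by
    rw [List.drop_drop]; congr 1; omega
  rw [h2, List.take_append_drop]

theorem repl_self {α : Type} (D : ℕ) (S : List α) : repl D (S.take D) S = S := by
  unfold repl; exact List.take_append_drop _ _

section LM

variable {K : Type} {Γ : K → Type} {Q A : Type}

/-- configuration: control state, stacks, and the word emitted so far -/
structure Cfg (Γ : K → Type) (Q A : Type) where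
  q : Q
  S : ∀ k, List (Γ k)
  out : List A

/-- the tops -/
def tops (D : ℕ) (S : ∀ k, List (Γ k)) : ∀ k, List (Γ k) := fun k => (S k).take D

theorem tops_length (D : ℕ) (S : ∀ k, List (Γ k)) (k : K) : (tops D S k).length ≤ D := by
  simp [tops]

/-- one step of the local machine with look-ahead depth `D` and transition function `δ` -/
def step (D : ℕ) (δ : Q → (∀ k, List (Γ k)) → Q × (∀ k, List (Γ k)) × List A)
    (c : Cfg Γ Q A) : Cfg Γ Q A :=
  ⟨(δ c.q (tops D c.S)).1, fun k => repl D ((δ c.q (tops D c.S)).2.1 k) (c.S k),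
    c.out ++ (δ c.q (tops D c.S)).2.2⟩

def run (D : ℕ) (δ : Q → (∀ k, List (Γ k)) → Q × (∀ k, List (Γ k)) × List A) (q0 : Q) (t : ℕ) :
    Cfg Γ Q A :=
  (step D δ)^[t] ⟨q0, fun _ => [], []⟩

variable (D : ℕ) (δ : Q → (∀ k, List (Γ k)) → Q × (∀ k, List (Γ k)) × List A) (q0 : Q)

theorem run_zero : run D δ q0 0 = ⟨q0, fun _ => [], []⟩ := rfl

theorem run_succ (t : ℕ) : run D δ q0 (t + 1) = step D δ (run D δ q0 t) := by
  unfold run; rw [Function.iterate_succ_apply']

theorem out_prefix_succ (t : ℕ) : (run D δ q0 t).out <+: (run D δ q0 (t + 1)).out := by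
  rw [run_succ]; exact List.prefix_append _ _

theorem out_prefix {t t' : ℕ} (h : t ≤ t') : (run D δ q0 t).out <+: (run D δ q0 t').out := by
  induction h with
  | refl => exact List.prefix_rfl
  | step _ ih => exact ih.trans (out_prefix_succ D δ q0 _)

theorem out_length_mono {t t' : ℕ} (h : t ≤ t') :
    (run D δ q0 t).out.length ≤ (run D δ q0 t').out.length :=
  (out_prefix D δ q0 h).length_le

end LM

/-- `l` is an initial segment of the infinite sequence `d` -/
def IsInit {A : Type} (l : List A) (d : ℕ → A) : Prop := ∀ i (h : i < l.length), l[i] = d i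

theorem IsInit.of_prefix {A : Type} {l l' : List A} {d : ℕ → A} (h : l <+: l') (h' : IsInit l' d) :
    IsInit l d := by
  intro i hi
  rw [← h' i (lt_of_lt_of_le hi h.length_le)]
  exact (h.getElem hi)

theorem isInit_nil {A : Type} (d : ℕ → A) : IsInit [] d := by
  intro i hi; simp at hi

theorem IsInit.append {A : Type} {l w : List A} {d : ℕ → A} (h : IsInit l d)
    (hw : IsInit w (fun i => d (l.length + i))) : IsInit (l ++ w) d := by
  intro i hi
  by_cases hi' : i < l.length
  · rw [List.getElem_append_left hi']; exact h i hi'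
  · have hi2 := hi
    rw [List.length_append] at hi2
    rw [List.getElem_append_right (by omega), hw _ (by omega)]
    show d (l.length + (i - l.length)) = d i
    congr 1; omega

theorem IsInit.append_right {A : Type} {l w : List A} {d : ℕ → A} (h : IsInit (l ++ w) d) :
    IsInit w (fun i => d (l.length + i)) := by
  intro i hi
  have := h (l.length + i) (by rw [List.length_append]; omega)
  rw [List.getElem_append_right (by omega)] at this
  simp only [Nat.add_sub_cancel_left] at this
  exact this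

theorem isInit_singleton {A : Type} {a : A} {d : ℕ → A} (h : a = d 0) : IsInit [a] d := by
  intro i hi
  rw [List.length_singleton] at hi
  obtain rfl : i = 0 := by omega
  simpa using h

/-- the sequence `d` is generated in real time by some local machine -/
def Gen {A : Type} (d : ℕ → A) : Prop :=
  ∃ (K : Type) (Γ : K → Type) (Q : Type) (D L : ℕ)
    (δ : Q → (∀ k, List (Γ k)) → Q × (∀ k, List (Γ k)) × List A) (q0 : Q) (c : ℕ),
    Finite K ∧ (∀ k, Finite (Γ k)) ∧ Finite Q ∧
    (∀ q t, (∀ k, (t k).length ≤ D) → ((δ q t).2.2).length ≤ L) ∧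
    (∀ q t, (∀ k, (t k).length ≤ D) → ∀ k, ((δ q t).2.1 k).length ≤ L) ∧
    (∀ t, IsInit (run D δ q0 t).out d) ∧
    (∀ n, n ≤ (run D δ q0 (c * (n + 1))).out.length)

section ST

variable {K : Type} {Γ : K → Type} {P A B : Type}

/-- configuration of a transducer -/
structure TCfg (Γ : K → Type) (P B : Type) where
  p : P
  S : ∀ k, List (Γ k)
  j : ℕ
  out : List B

/-- the input letter passed to the transition function -/
def inp (wants : P → Bool) (d : ℕ → A) (p : P) (j : ℕ) : Option A :=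
  if wants p then some (d j) else none

def tstep (D : ℕ) (wants : P → Bool)
    (δ : P → Option A → (∀ k, List (Γ k)) → P × (∀ k, List (Γ k)) × List B)
    (d : ℕ → A) (c : TCfg Γ P B) : TCfg Γ P B :=
  ⟨(δ c.p (inp wants d c.p c.j) (tops D c.S)).1,
    fun k => repl D ((δ c.p (inp wants d c.p c.j) (tops D c.S)).2.1 k) (c.S k),
    if wants c.p then c.j + 1 else c.j,
    c.out ++ (δ c.p (inp wants d c.p c.j) (tops D c.S)).2.2⟩

def trun (D : ℕ) (wants : P → Bool)
    (δ : P → Option A → (∀ k, List (Γ k)) → P × (∀ k, List (Γ k)) × List B) (p0 : P)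
    (d : ℕ → A) (s : ℕ) : TCfg Γ P B :=
  (tstep D wants δ d)^[s] ⟨p0, fun _ => [], 0, []⟩

variable (D : ℕ) (wants : P → Bool)
    (δ : P → Option A → (∀ k, List (Γ k)) → P × (∀ k, List (Γ k)) × List B) (p0 : P)
    (d : ℕ → A)

theorem trun_zero : trun D wants δ p0 d 0 = ⟨p0, fun _ => [], 0, []⟩ := rfl

theorem trun_succ (s : ℕ) :
    trun D wants δ p0 d (s + 1) = tstep D wants δ d (trun D wants δ p0 d s) := by
  unfold trun; rw [Function.iterate_succ_apply']

theorem tout_prefix_succ (t : ℕ) :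
    (trun D wants δ p0 d t).out <+: (trun D wants δ p0 d (t + 1)).out := by
  rw [trun_succ]; exact List.prefix_append _ _

theorem tout_prefix {t t' : ℕ} (h : t ≤ t') :
    (trun D wants δ p0 d t).out <+: (trun D wants δ p0 d t').out := by
  induction h with
  | refl => exact List.prefix_rfl
  | step _ ih => exact ih.trans (tout_prefix_succ D wants δ p0 d _)

theorem tj_le (s : ℕ) : (trun D wants δ p0 d s).j ≤ s := by
  induction s with
  | zero => simp [trun_zero]
  | succ s ih =>
    rw [trun_succ]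
    simp only [tstep]
    split_ifs <;> omega

end ST

/-- `d'` is computed from `d` in real time by a stack transducer -/
def Trans {A B : Type} (d : ℕ → A) (d' : ℕ → B) : Prop :=
  ∃ (K : Type) (Γ : K → Type) (P : Type) (D L : ℕ) (wants : P → Bool)
    (δ : P → Option A → (∀ k, List (Γ k)) → P × (∀ k, List (Γ k)) × List B) (p0 : P) (c : ℕ),
    Finite K ∧ (∀ k, Finite (Γ k)) ∧ Finite P ∧
    (∀ p a t, (∀ k, (t k).length ≤ D) → ((δ p a t).2.2).length ≤ L) ∧
    (∀ p a t, (∀ k, (t k).length ≤ D) → ∀ k, ((δ p a t).2.1 k).length ≤ L) ∧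
    (∀ s, IsInit (trun D wants δ p0 d s).out d') ∧
    (∀ n, n ≤ (trun D wants δ p0 d (c * (n + 1))).out.length)

/-- lists of length at most `L` -/
def clip {A : Type} (L : ℕ) (l : List A) : {l : List A // l.length ≤ L} :=
  ⟨l.take L, by rw [List.length_take]; omega⟩

theorem clip_val {A : Type} {L : ℕ} {l : List A} (h : l.length ≤ L) : (clip L l).1 = l :=
  List.take_of_length_le h

section compose

variable {K₁ K₂ : Type} {Γ₁ : K₁ → Type} {Γ₂ : K₂ → Type} {Q P A B : Type}

/-- joint family of alphabets -/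
abbrev JΓ (Γ₁ : K₁ → Type) (Γ₂ : K₂ → Type) : K₁ ⊕ K₂ → Type
  | Sum.inl k => Γ₁ k
  | Sum.inr k => Γ₂ k

/-- left part of a family of lists -/
def lft (t : ∀ k : K₁ ⊕ K₂, List (JΓ Γ₁ Γ₂ k)) : ∀ k, List (Γ₁ k) := fun k => t (Sum.inl k)

/-- right part of a family of lists -/
def rgt (t : ∀ k : K₁ ⊕ K₂, List (JΓ Γ₁ Γ₂ k)) : ∀ k, List (Γ₂ k) := fun k => t (Sum.inr k)

/-- join of two families -/
def join (t₁ : ∀ k, List (Γ₁ k)) (t₂ : ∀ k, List (Γ₂ k)) : ∀ k : K₁ ⊕ K₂, List (JΓ Γ₁ Γ₂ k)
  | Sum.inl k => t₁ k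
  | Sum.inr k => t₂ k

theorem lft_join (t₁ : ∀ k, List (Γ₁ k)) (t₂ : ∀ k, List (Γ₂ k)) : lft (join t₁ t₂) = t₁ := rfl

theorem rgt_join (t₁ : ∀ k, List (Γ₁ k)) (t₂ : ∀ k, List (Γ₂ k)) : rgt (join t₁ t₂) = t₂ := rfl

theorem lft_tops {D D₁ : ℕ} (h : D₁ ≤ D) (S : ∀ k : K₁ ⊕ K₂, List (JΓ Γ₁ Γ₂ k)) :
    (tops D₁ (lft (tops D S)) : ∀ k, List (Γ₁ k)) = tops D₁ (lft S) := by
  funext k
  simp only [tops, lft]
  rw [List.take_take, min_eq_left h]

theorem rgt_tops {D D₂ : ℕ} (h : D₂ ≤ D) (S : ∀ k : K₁ ⊕ K₂, List (JΓ Γ₁ Γ₂ k)) :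
    (tops D₂ (rgt (tops D S)) : ∀ k, List (Γ₂ k)) = tops D₂ (rgt S) := by
  funext k
  simp only [tops, rgt]
  rw [List.take_take, min_eq_left h]

variable (D₁ D₂ L₁ : ℕ)
  (δ₁ : Q → (∀ k, List (Γ₁ k)) → Q × (∀ k, List (Γ₁ k)) × List A)
  (wants : P → Bool)
  (δ₂ : P → Option A → (∀ k, List (Γ₂ k)) → P × (∀ k, List (Γ₂ k)) × List B)

/-- transition function of the composite machine -/
def cδ (x : Q × {l : List A // l.length ≤ L₁} × P) (t : ∀ k : K₁ ⊕ K₂, List (JΓ Γ₁ Γ₂ k)) :
    (Q × {l : List A // l.length ≤ L₁} × P) × (∀ k : K₁ ⊕ K₂, List (JΓ Γ₁ Γ₂ k)) × List B :=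
  if wants x.2.2 = true ∧ x.2.1.1 = [] then
    (((δ₁ x.1 (tops D₁ (lft t))).1, clip L₁ (δ₁ x.1 (tops D₁ (lft t))).2.2, x.2.2),
      join (fun k => (δ₁ x.1 (tops D₁ (lft t))).2.1 k ++ (lft t k).drop D₁) (rgt t), [])
  else
    ((x.1, clip L₁ (if wants x.2.2 then x.2.1.1.tail else x.2.1.1),
      (δ₂ x.2.2 (if wants x.2.2 then x.2.1.1.head? else none) (tops D₂ (rgt t))).1),
      join (lft t) (fun k =>
        (δ₂ x.2.2 (if wants x.2.2 then x.2.1.1.head? else none) (tops D₂ (rgt t))).2.1 k ++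
          (rgt t k).drop D₂),
      (δ₂ x.2.2 (if wants x.2.2 then x.2.1.1.head? else none) (tops D₂ (rgt t))).2.2)

variable (q0 : Q) (p0 : P) (d : ℕ → A)

/-- the relation between the composite configuration and those of its two components -/
structure Rel (C : Cfg (JΓ Γ₁ Γ₂) (Q × {l : List A // l.length ≤ L₁} × P) B)
    (C₁ : Cfg Γ₁ Q A) (C₂ : TCfg Γ₂ P B) : Prop where
  hq : C.q.1 = C₁.q
  hbuf : C.q.2.1.1 = C₁.out.drop C₂.j
  hp : C.q.2.2 = C₂.p
  hSl : lft C.S = C₁.S
  hSr : rgt C.S = C₂.S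
  hout : C.out = C₂.out
  hj : C₂.j ≤ C₁.out.length

theorem rel_step (hbo : ∀ q t, (∀ k, (t k).length ≤ D₁) → ((δ₁ q t).2.2).length ≤ L₁)
    {C : Cfg (JΓ Γ₁ Γ₂) (Q × {l : List A // l.length ≤ L₁} × P) B}
    {C₁ : Cfg Γ₁ Q A} {C₂ : TCfg Γ₂ P B} (h : Rel L₁ C C₁ C₂) (hd : IsInit C₁.out d) :
    (Rel L₁ (step (D₁ + D₂) (cδ D₁ D₂ L₁ δ₁ wants δ₂) C) (step D₁ δ₁ C₁) C₂ ∧
      C₁.out.length = C₂.j) ∨
    Rel L₁ (step (D₁ + D₂) (cδ D₁ D₂ L₁ δ₁ wants δ₂) C) C₁ (tstep D₂ wants δ₂ d C₂) := by
  by_cases hrun : wants C.q.2.2 = true ∧ C.q.2.1.1 = []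
  · left
    have hδ : cδ D₁ D₂ L₁ δ₁ wants δ₂ C.q (tops (D₁ + D₂) C.S) =
        (((δ₁ C.q.1 (tops D₁ (lft (tops (D₁ + D₂) C.S)))).1,
          clip L₁ (δ₁ C.q.1 (tops D₁ (lft (tops (D₁ + D₂) C.S)))).2.2, C.q.2.2),
        join (fun k => (δ₁ C.q.1 (tops D₁ (lft (tops (D₁ + D₂) C.S)))).2.1 k ++
          (lft (tops (D₁ + D₂) C.S) k).drop D₁) (rgt (tops (D₁ + D₂) C.S)), []) := by
      unfold cδ; rw [if_pos hrun]
    rw [lft_tops (by omega), h.hSl, h.hq] at hδ
    have hlen : C₁.out.length = C₂.j := by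
      have h1 := h.hbuf
      rw [hrun.2] at h1
      have h2 := congrArg List.length h1
      rw [List.length_nil, List.length_drop] at h2
      have := h.hj
      omega
    have hb := hbo C₁.q (tops D₁ C₁.S) (tops_length _ _)
    refine ⟨⟨?_, ?_, ?_, ?_, ?_, ?_, ?_⟩, hlen⟩
    · simp only [step]; rw [hδ]
    · simp only [step]; rw [hδ]
      simp only
      rw [clip_val hb, List.drop_append_of_le_length h.hj, ← hlen]
      simp
    · simp only [step]; rw [hδ]; exact h.hp
    · funext k
      simp only [step]; rw [hδ]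
      have := congrFun h.hSl k
      simp only [lft] at this ⊢
      simp only [join, tops]
      rw [repl_take_drop (by omega), this]
    · funext k
      simp only [step]; rw [hδ]
      have := congrFun h.hSr k
      rw [← this]
      exact repl_self _ _
    · simp only [step]; rw [hδ]
      simp only [List.append_nil]
      exact h.hout
    · simp only [step, List.length_append]
      exact h.hj.trans (Nat.le_add_right _ _)
  · right
    have hδ : cδ D₁ D₂ L₁ δ₁ wants δ₂ C.q (tops (D₁ + D₂) C.S) =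
        ((C.q.1, clip L₁ (if wants C.q.2.2 then C.q.2.1.1.tail else C.q.2.1.1),
          (δ₂ C.q.2.2 (if wants C.q.2.2 then C.q.2.1.1.head? else none)
            (tops D₂ (rgt (tops (D₁ + D₂) C.S)))).1),
          join (lft (tops (D₁ + D₂) C.S)) (fun k =>
            (δ₂ C.q.2.2 (if wants C.q.2.2 then C.q.2.1.1.head? else none)
              (tops D₂ (rgt (tops (D₁ + D₂) C.S)))).2.1 k ++ (rgt (tops (D₁ + D₂) C.S) k).drop D₂),
          (δ₂ C.q.2.2 (if wants C.q.2.2 then C.q.2.1.1.head? else none)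
            (tops D₂ (rgt (tops (D₁ + D₂) C.S)))).2.2) := by
      unfold cδ; rw [if_neg hrun]
    have hne : wants C₂.p = true → C₂.j < C₁.out.length := by
      intro hw
      by_contra hcon
      apply hrun
      rw [h.hp, h.hbuf]
      exact ⟨hw, List.drop_eq_nil_of_le (by omega)⟩
    have hinp : (if wants C.q.2.2 then C.q.2.1.1.head? else none) = inp wants d C₂.p C₂.j := by
      unfold inp
      rw [h.hp, h.hbuf]
      by_cases hw : wants C₂.p = true
      · rw [if_pos hw, if_pos hw, List.head?_drop, List.getElem?_eq_getElem (hne hw), hd _ (hne hw)]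
      · rw [if_neg hw, if_neg hw]
    rw [hinp, rgt_tops (by omega), h.hSr, h.hp] at hδ
    refine ⟨?_, ?_, ?_, ?_, ?_, ?_, ?_⟩
    · simp only [step]; rw [hδ]; exact h.hq
    · simp only [step]; rw [hδ]
      simp only [tstep]
      have hblen := C.q.2.1.2
      rw [clip_val (by
        split_ifs
        · rw [List.length_tail]; omega
        · exact hblen)]
      rw [h.hbuf]
      split_ifs
      · rw [List.tail_drop]
      · rfl
    · simp only [step]; rw [hδ]; rfl
    · funext k
      simp only [step]; rw [hδ]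
      have := congrFun h.hSl k
      rw [← this]
      exact repl_self _ _
    · funext k
      simp only [step]; rw [hδ]
      have := congrFun h.hSr k
      simp only [rgt] at this ⊢
      simp only [join, tops, tstep]
      rw [repl_take_drop (by omega), this]
    · simp only [step]; rw [hδ]
      simp only [tstep]
      rw [h.hout]
    · simp only [tstep]
      split_ifs with hw
      · exact hne hw
      · exact h.hj

theorem rel_exists (hbo : ∀ q t, (∀ k, (t k).length ≤ D₁) → ((δ₁ q t).2.2).length ≤ L₁)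
    (hd : ∀ t, IsInit (run D₁ δ₁ q0 t).out d) (τ : ℕ) :
    ∃ t s, t + s = τ ∧
      Rel L₁ (run (D₁ + D₂) (cδ D₁ D₂ L₁ δ₁ wants δ₂) (q0, clip L₁ [], p0) τ)
        (run D₁ δ₁ q0 t) (trun D₂ wants δ₂ p0 d s) ∧
      (t = 0 ∨ (run D₁ δ₁ q0 (t - 1)).out.length ≤ (trun D₂ wants δ₂ p0 d s).j) := by
  induction τ with
  | zero =>
    refine ⟨0, 0, rfl, ⟨rfl, ?_, rfl, rfl, rfl, rfl, ?_⟩, Or.inl rfl⟩
    · simp [run_zero, trun_zero, clip]
    · simp [run_zero, trun_zero]
  | succ τ ih =>
    obtain ⟨t, s, hts, h, hprog⟩ := ih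
    rcases rel_step D₁ D₂ L₁ δ₁ wants δ₂ d hbo h (hd t) with ⟨h', hlen⟩ | h'
    · refine ⟨t + 1, s, by omega, ?_, Or.inr ?_⟩
      · rw [run_succ, run_succ]; exact h'
      · simp only [Nat.add_sub_cancel]; omega
    · refine ⟨t, s + 1, by omega, ?_, ?_⟩
      · rw [run_succ, trun_succ]; exact h'
      · rcases hprog with h0 | h0
        · exact Or.inl h0
        · refine Or.inr (h0.trans ?_)
          rw [trun_succ]; simp only [tstep]; split_ifs <;> omega

end compose

/-- **Composition lemma.** -/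
theorem Gen.transduce {A B : Type} [Finite A] {d : ℕ → A} {d' : ℕ → B} (hd : Gen d)
    (hT : Trans d d') : Gen d' := by
  obtain ⟨K₁, Γ₁, Q, D₁, L₁, δ₁, q0, c, hK₁, hΓ₁, hQ, hbo₁, hbp₁, hinit, hc⟩ := hd
  obtain ⟨K₂, Γ₂, P, D₂, L₂, wants, δ₂, p0, c', hK₂, hΓ₂, hP, hbo₂, hbp₂, hinit', hc'⟩ := hT
  refine ⟨K₁ ⊕ K₂, JΓ Γ₁ Γ₂, Q × {l : List A // l.length ≤ L₁} × P, D₁ + D₂, L₁ + L₂ + D₁ + D₂,
    cδ D₁ D₂ L₁ δ₁ wants δ₂, (q0, clip L₁ [], p0), (c + 1) * c' + 2 * c + 1,
    inferInstance, ?_, ?_, ?_, ?_, ?_, ?_⟩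
  · rintro (k | k)
    · exact hΓ₁ k
    · exact hΓ₂ k
  · have : Finite {l : List A // l.length ≤ L₁} := (List.finite_length_le A L₁).to_subtype
    infer_instance
  · intro x t ht
    unfold cδ
    by_cases hrun : wants x.2.2 = true ∧ x.2.1.1 = []
    · rw [if_pos hrun]; exact Nat.zero_le _
    · rw [if_neg hrun]
      exact (hbo₂ _ _ _ (tops_length _ _)).trans (by omega)
  · intro x t ht k
    unfold cδ
    generalize hinp : (if wants x.2.2 = true then x.2.1.1.head? else none) = o
    have hl1 : ∀ k : K₁, ((t (Sum.inl k)).drop D₁).length ≤ D₁ + D₂ := fun k => by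
      rw [List.length_drop]; have := ht (Sum.inl k); omega
    have hr1 : ∀ k : K₂, ((t (Sum.inr k)).drop D₂).length ≤ D₁ + D₂ := fun k => by
      rw [List.length_drop]; have := ht (Sum.inr k); omega
    by_cases hrun : wants x.2.2 = true ∧ x.2.1.1 = []
    · rw [if_pos hrun]
      rcases k with k | k
      · have h1 := hbp₁ x.1 (tops D₁ (lft t)) (tops_length _ _) k
        have h2 := hl1 k
        show (_ ++ _ : List _).length ≤ _
        rw [List.length_append]
        unfold lft at *
        omega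
      · have h2 := ht (Sum.inr k)
        show (t (Sum.inr k)).length ≤ _
        omega
    · rw [if_neg hrun]
      rcases k with k | k
      · have h2 := ht (Sum.inl k)
        show (t (Sum.inl k)).length ≤ _
        omega
      · have h1 := hbp₂ x.2.2 o (tops D₂ (rgt t)) (tops_length _ _) k
        have h2 := hr1 k
        show (_ ++ _ : List _).length ≤ _
        rw [List.length_append]
        unfold rgt at *
        omega
  · intro τ
    obtain ⟨t, s, _, h, _⟩ := rel_exists D₁ D₂ L₁ δ₁ wants δ₂ q0 p0 d hbo₁ hinit τ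
    rw [h.hout]
    exact hinit' s
  · intro n
    set τ := ((c + 1) * c' + 2 * c + 1) * (n + 1) with hτ
    obtain ⟨t, s, hts, h, hprog⟩ := rel_exists D₁ D₂ L₁ δ₁ wants δ₂ q0 p0 d hbo₁ hinit τ
    rw [h.hout]
    have ht : t ≤ c * (s + 2) := by
      rcases hprog with h0 | h0
      · omega
      · by_contra hcon
        push Not at hcon
        have h1 : c * ((s + 1) + 1) ≤ t - 1 := by
          have : c * ((s + 1) + 1) = c * (s + 2) := by ring
          omega
        have h2 := hc (s + 1)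
        have h3 := out_length_mono D₁ δ₁ q0 h1
        have h4 := tj_le D₂ wants δ₂ p0 d s
        omega
    have hs : c' * (n + 1) ≤ s := by
      by_contra hcon
      push Not at hcon
      have h1 : τ ≤ c * (s + 2) + s := by omega
      have h2 : c * (s + 2) + s < ((c + 1) * c' + 2 * c + 1) * (n + 1) := by
        calc c * (s + 2) + s = (c + 1) * s + 2 * c := by ring
          _ ≤ (c + 1) * (c' * (n + 1)) + 2 * c * (n + 1) := by
              apply Nat.add_le_add
              · exact Nat.mul_le_mul_left _ hcon.le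
              · exact Nat.le_mul_of_pos_right _ (Nat.succ_pos n)
          _ < ((c + 1) * c' + 2 * c + 1) * (n + 1) := by
              have : 0 < n + 1 := Nat.succ_pos n
              nlinarith
      omega
    exact (hc' n).trans (tout_prefix D₂ wants δ₂ p0 d hs).length_le

end Pool.Agent.H77.RT
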