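import Pool.Agent.H77.RT.LM

namespace Pool.Agent.H77.RT

theorem IsInit.map {A B : Type} {l : List A} {d : ℕ → A} (f : A → B) (h : IsInit l d) :
    IsInit (l.map f) (f ∘ d) := by
  intro i hi
  rw [List.length_map] at hi
  rw [List.getElem_map, h i hi]; rfl

theorem IsInit.tail {A : Type} {l : List A} {d : ℕ → A} (h : IsInit l d) :
    IsInit l.tail (fun i => d (i + 1)) := by
  intro i hi
  rw [List.length_tail] at hi
  rw [List.getElem_tail]
  exact h (i + 1) (by omega)

theorem IsInit.drop {A : Type} {l : List A} {d : ℕ → A} (j : ℕ) (h : IsInit l d) :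
    IsInit (l.drop j) (fun i => d (i + j)) := by
  intro i hi
  rw [List.length_drop] at hi
  rw [List.getElem_drop]
  show l[j + i] = d (i + j)
  rw [h (j + i) (by omega), add_comm]

theorem Gen.map {A B : Type} {d : ℕ → A} (f : A → B) (h : Gen d) : Gen (f ∘ d) := by
  obtain ⟨K, Γ, Q, D, L, δ, q0, c, hK, hΓ, hQ, hbo, hbp, hinit, hc⟩ := h
  obtain ⟨δ', hδ'⟩ : ∃ δ' : Q → (∀ k, List (Γ k)) → Q × (∀ k, List (Γ k)) × List B,
    ∀ q t, δ' q t = ((δ q t).1, (δ q t).2.1, ((δ q t).2.2).map f) := ⟨_, fun _ _ => rfl⟩
  have key : ∀ t, (run D δ' q0 t).q = (run D δ q0 t).q ∧ (run D δ' q0 t).S = (run D δ q0 t).S ∧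
      (run D δ' q0 t).out = ((run D δ q0 t).out).map f := by
    intro t
    induction t with
    | zero => exact ⟨rfl, rfl, rfl⟩
    | succ t ih =>
      obtain ⟨h1, h2, h3⟩ := ih
      rw [run_succ, run_succ]
      simp only [step, h1, h2, h3, hδ', List.map_append]
      exact ⟨trivial, trivial, trivial⟩
  refine ⟨K, Γ, Q, D, L, δ', q0, c, hK, hΓ, hQ, ?_, ?_, ?_, ?_⟩
  · intro q t ht
    rw [hδ', List.length_map]
    exact hbo q t ht
  · intro q t ht k
    rw [hδ']
    exact hbp q t ht k
  · intro t
    rw [(key t).2.2]
    exact (hinit t).map f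
  · intro n
    rw [(key _).2.2, List.length_map]
    exact hc n

/-- stackless transducers -/
theorem trans_mealy {A B σ : Type} [Finite σ] (L : ℕ) (g : σ → A → σ × List B)
    (hL : ∀ s a, (g s a).2.length ≤ L) (s0 : σ) (d : ℕ → A) (d' : ℕ → B)
    (st : ℕ → σ) (o : ℕ → List B) (hst0 : st 0 = s0) (ho0 : o 0 = [])
    (hst : ∀ n, st (n + 1) = (g (st n) (d n)).1)
    (ho : ∀ n, o (n + 1) = o n ++ (g (st n) (d n)).2)
    (hinit : ∀ n, IsInit (o n) d') (c : ℕ) (hc : ∀ n, n ≤ (o (c * (n + 1))).length) :
    Trans d d' := by
  obtain ⟨δ, hδn, hδs⟩ : ∃ δ : σ → Option A → (∀ _ : Empty, List Unit) →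
      σ × (∀ _ : Empty, List Unit) × List B,
      (∀ s t, δ s none t = (s, fun k => k.elim, [])) ∧
      (∀ s a t, δ s (some a) t = ((g s a).1, fun k => k.elim, (g s a).2)) :=
    ⟨fun s a _ => match a with
      | none => (s, fun k => k.elim, [])
      | some a => ((g s a).1, fun k => k.elim, (g s a).2), fun _ _ => rfl, fun _ _ _ => rfl⟩
  have key : ∀ s, (trun (Γ := fun _ : Empty => Unit) 0 (fun _ => true) δ s0 d s).p = st s ∧
      (trun (Γ := fun _ : Empty => Unit) 0 (fun _ => true) δ s0 d s).j = s ∧
      (trun (Γ := fun _ : Empty => Unit) 0 (fun _ => true) δ s0 d s).out = o s := by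
    intro s
    induction s with
    | zero => exact ⟨hst0.symm, rfl, ho0.symm⟩
    | succ s ih =>
      obtain ⟨h1, h2, h3⟩ := ih
      rw [trun_succ]
      simp only [tstep, inp, h1, h2, h3, if_true, hδs]
      exact ⟨(hst s).symm, trivial, (ho s).symm⟩
  refine ⟨Empty, fun _ => Unit, σ, 0, L, fun _ => true, δ, s0, c, inferInstance, fun _ => inferInstance,
    inferInstance, ?_, ?_, ?_, ?_⟩
  · intro p a t _
    cases a with
    | none => rw [hδn]; exact Nat.zero_le _
    | some a => rw [hδs]; exact hL p a
  · intro p a t _ k
    exact k.elim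
  · intro s
    rw [(key s).2.2]; exact hinit s
  · intro n
    rw [(key _).2.2]; exact hc n

/-- letter-to-letter stackless transducers -/
theorem trans_mealy1 {A B σ : Type} [Finite σ] (g : σ → A → σ × B)
    (s0 : σ) (d : ℕ → A) (d' : ℕ → B)
    (st : ℕ → σ) (hst0 : st 0 = s0)
    (hst : ∀ n, st (n + 1) = (g (st n) (d n)).1)
    (hd' : ∀ n, d' n = (g (st n) (d n)).2) : Trans d d' := by
  have hlen : ∀ n, ((List.range n).map d').length = n := fun n => by simp
  refine trans_mealy 1 (fun s a => ((g s a).1, [(g s a).2])) (fun _ _ => le_rfl) s0 d d' st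
    (fun n => (List.range n).map d') hst0 (by simp) hst ?_ ?_ 1 ?_
  · intro n
    simp only
    rw [List.range_succ, List.map_append, ← hd' n]
    simp
  · intro n i hi
    simp
  · intro n
    rw [hlen]; omega

/-- dropping the first letters -/
theorem Gen.drop {A : Type} [Finite A] {d : ℕ → A} (j : ℕ) (h : Gen d) :
    Gen (fun i => d (i + j)) := by
  refine h.transduce ?_
  have h1 : ∀ n, ((Fin.ofNat (j + 1) (min n j)) : ℕ) = min n j := by
    intro n
    simp only [Fin.ofNat]
    exact Nat.mod_eq_of_lt (by omega)
  refine trans_mealy (σ := Fin (j + 1)) 1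
    (fun s a => if (s : ℕ) < j then (Fin.ofNat (j + 1) (s + 1), []) else (s, [a])) ?_ 0 d _
    (fun n => Fin.ofNat (j + 1) (min n j))
    (fun n => (List.range (n - j)).map (fun i => d (i + j))) ?_ ?_ ?_ ?_ ?_ (j + 1) ?_
  · intro s a
    split_ifs <;> simp
  · simp
  · simp
  · intro n
    ext
    simp only [h1]
    split_ifs with hlt
    · simp only [Fin.ofNat]
      rw [Nat.mod_eq_of_lt (by omega)]
      omega
    · rw [h1]; omega
  · intro n
    simp only [h1]
    split_ifs with hlt
    · have e1 : n + 1 - j = 0 := by omega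
      have e2 : n - j = 0 := by omega
      simp [e1, e2]
    · have e1 : n + 1 - j = (n - j) + 1 := by omega
      rw [e1, List.range_succ, List.map_append]
      simp only [List.map_cons, List.map_nil]
      rw [show n - j + j = n by omega]
  · intro n i hi
    simp
  · intro n
    rw [List.length_map, List.length_range]
    have : (j + 1) * (n + 1) = j * n + j + n + 1 := by ring
    rw [this]
    omega

/-- product of two generators -/
theorem Gen.prod {A B : Type} [Finite A] [Finite B] {d₁ : ℕ → A} {d₂ : ℕ → B} (h₁ : Gen d₁)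
    (h₂ : Gen d₂) : Gen (fun n => (d₁ n, d₂ n)) := by
  refine h₁.transduce ?_
  obtain ⟨K, Γ, Q, D, L, δ, q0, c, hK, hΓ, hQ, hbo, hbp, hinit, hc⟩ := h₂
  -- state : control state, buffer, pending letter
  obtain ⟨δ', hn1, hn2, hn3⟩ : ∃ δ' : Q × {l : List B // l.length ≤ L} × Option A → Option A →
      (∀ k, List (Γ k)) →
      (Q × {l : List B // l.length ≤ L} × Option A) × (∀ k, List (Γ k)) × List (A × B),
      (∀ x o t, x.2.2 = none → δ' x o t = ((x.1, x.2.1, o), fun k => t k, [])) ∧
      (∀ x o t a b l, x.2.2 = some a → x.2.1.1 = b :: l → δ' x o t = ((x.1, clip L l, none),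
        fun k => t k, [(a, b)])) ∧
      (∀ x o t a, x.2.2 = some a → x.2.1.1 = [] → δ' x o t = (((δ x.1 t).1,
        clip L (δ x.1 t).2.2, some a), (δ x.1 t).2.1, [])) := by
    refine ⟨fun x o t => match x.2.2, x.2.1.1 with
      | none, _ => ((x.1, x.2.1, o), fun k => t k, [])
      | some a, b :: l => ((x.1, clip L l, none), fun k => t k, [(a, b)])
      | some a, [] => (((δ x.1 t).1, clip L (δ x.1 t).2.2, some a), (δ x.1 t).2.1, []), ?_, ?_, ?_⟩
    · intro x o t h; simp only [h]
    · intro x o t a b l h h'; simp only [h, h']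
    · intro x o t a h h'; simp only [h, h']
  set wants : Q × {l : List B // l.length ≤ L} × Option A → Bool := fun x => x.2.2.isNone
    with hwants
  set p0 : Q × {l : List B // l.length ≤ L} × Option A := (q0, clip L [], none) with hp0
  have key : ∀ s, ∃ t, (trun D wants δ' p0 d₁ s).p.1 = (run D δ q0 t).q ∧
      (trun D wants δ' p0 d₁ s).S = (run D δ q0 t).S ∧
      (trun D wants δ' p0 d₁ s).p.2.1.1 =
        (run D δ q0 t).out.drop (trun D wants δ' p0 d₁ s).out.length ∧
      (trun D wants δ' p0 d₁ s).out.length ≤ (run D δ q0 t).out.length ∧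
      IsInit (trun D wants δ' p0 d₁ s).out (fun n => (d₁ n, d₂ n)) ∧
      (((trun D wants δ' p0 d₁ s).p.2.2 = none ∧
        (trun D wants δ' p0 d₁ s).j = (trun D wants δ' p0 d₁ s).out.length) ∨
       ((trun D wants δ' p0 d₁ s).p.2.2 = some (d₁ (trun D wants δ' p0 d₁ s).out.length) ∧
        (trun D wants δ' p0 d₁ s).j = (trun D wants δ' p0 d₁ s).out.length + 1)) ∧
      (t = 0 ∨ (run D δ q0 (t - 1)).out.length ≤ (trun D wants δ' p0 d₁ s).out.length) ∧
      s = (trun D wants δ' p0 d₁ s).j + t + (trun D wants δ' p0 d₁ s).out.length := by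
    intro s
    induction s with
    | zero =>
      refine ⟨0, rfl, rfl, ?_, ?_, ?_, Or.inl ⟨rfl, rfl⟩, Or.inl rfl, rfl⟩
      · simp [trun_zero, run_zero, hp0, clip]
      · simp [trun_zero, run_zero]
      · exact isInit_nil _
    | succ s ih =>
      obtain ⟨t, h1, h2, h3, h4, h5, h6, h7, h8⟩ := ih
      rw [trun_succ]
      generalize trun D wants δ' p0 d₁ s = C at h1 h2 h3 h4 h5 h6 h7 h8
      rcases h6 with ⟨hnone, hj⟩ | ⟨hsome, hj⟩
      · have hw : wants C.p = true := by simp [hwants, hnone]
        have hstep : tstep D wants δ' d₁ C = ⟨(C.p.1, C.p.2.1, some (d₁ C.j)), C.S, C.j + 1, C.out⟩ := by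
          unfold tstep
          rw [hn1 _ _ _ hnone]
          simp only [inp, hw, if_true, List.append_nil]
          congr 1
          funext k
          exact repl_self _ _
        rw [hstep]
        refine ⟨t, h1, h2, h3, h4, h5, Or.inr ⟨?_, ?_⟩, h7, ?_⟩
        · simp only; rw [hj]
        · simp only; rw [hj]
        · simp only; omega
      · have hw : wants C.p = false := by simp [hwants, hsome]
        rcases hbuf : C.p.2.1.1 with _ | ⟨b, l⟩
        · -- run the second machine
          have hlen : (run D δ q0 t).out.length = C.out.length := by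
            rw [hbuf] at h3
            have := congrArg List.length h3
            rw [List.length_nil, List.length_drop] at this
            omega
          have hstep : tstep D wants δ' d₁ C = ⟨((δ (run D δ q0 t).q (tops D (run D δ q0 t).S)).1,
              clip L (δ (run D δ q0 t).q (tops D (run D δ q0 t).S)).2.2, some (d₁ C.out.length)),
              (run D δ q0 (t+1)).S, C.j, C.out⟩ := by
            unfold tstep
            rw [hn3 _ _ _ _ hsome hbuf, h1, h2]
            simp only [hw, List.append_nil]
            congr 1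
            rw [run_succ]; rfl
          rw [hstep]
          refine ⟨t + 1, ?_, rfl, ?_, ?_, h5, Or.inr ⟨rfl, hj⟩, Or.inr ?_, ?_⟩
          · rw [run_succ]; rfl
          · simp only
            rw [clip_val (hbo _ _ (tops_length _ _)), run_succ]
            simp only [step]
            rw [List.drop_append_of_le_length h4, ← hlen]
            simp
          · exact h4.trans (out_length_mono D δ q0 (Nat.le_succ t))
          · simp only [Nat.add_sub_cancel]; omega
          · simp only; omega
        · have hstep : tstep D wants δ' d₁ C = ⟨(C.p.1, clip L l, none), C.S, C.j,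
              C.out ++ [(d₁ C.out.length, b)]⟩ := by
            unfold tstep
            rw [hn2 _ _ _ _ _ _ hsome hbuf]
            simp only [hw]
            congr 1
            funext k
            exact repl_self _ _
          have hlL : l.length ≤ L := by
            have := C.p.2.1.2
            rw [hbuf, List.length_cons] at this
            omega
          rw [hbuf] at h3
          have hlt : C.out.length < (run D δ q0 t).out.length := by
            by_contra hcon
            rw [List.drop_eq_nil_of_le (by omega)] at h3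
            simp at h3
          have hb : b = d₂ C.out.length := by
            rw [List.drop_eq_getElem_cons hlt] at h3
            rw [(List.cons.inj h3).1]
            exact hinit t _ hlt
          have hl : l = (run D δ q0 t).out.drop (C.out.length + 1) := by
            rw [List.drop_eq_getElem_cons hlt] at h3
            exact (List.cons.inj h3).2
          rw [hstep]
          refine ⟨t, h1, h2, ?_, ?_, ?_, Or.inl ⟨rfl, ?_⟩, ?_, ?_⟩
          · simp only
            rw [clip_val hlL, List.length_append, List.length_singleton]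
            exact hl
          · simp only [List.length_append, List.length_singleton]; omega
          · simp only
            refine h5.append (isInit_singleton ?_)
            simp only [add_zero]
            rw [hb]
          · simp only [List.length_append, List.length_singleton]; omega
          · simp only [List.length_append, List.length_singleton]
            rcases h7 with h7 | h7
            · exact Or.inl h7
            · right; omega
          · simp only [List.length_append, List.length_singleton]; omega
  refine ⟨K, Γ, Q × {l : List B // l.length ≤ L} × Option A, D, L + D + 1, wants, δ', p0,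
    2 * c + 3, hK, hΓ, ?_, ?_, ?_, ?_, ?_⟩
  · have : Finite {l : List B // l.length ≤ L} := (List.finite_length_le B L).to_subtype
    infer_instance
  · intro x o t ht
    rcases hx : x.2.2 with _ | a
    · rw [hn1 _ _ _ hx]; exact Nat.zero_le _
    · rcases hb : x.2.1.1 with _ | ⟨b, l⟩
      · rw [hn3 _ _ _ _ hx hb]; exact Nat.zero_le _
      · rw [hn2 _ _ _ _ _ _ hx hb]
        simp only [List.length_singleton]; omega
  · intro x o t ht k
    rcases hx : x.2.2 with _ | a
    · rw [hn1 _ _ _ hx]
      have := ht k
      simp only; omega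
    · rcases hb : x.2.1.1 with _ | ⟨b, l⟩
      · rw [hn3 _ _ _ _ hx hb]
        have := hbp x.1 t ht k
        simp only; omega
      · rw [hn2 _ _ _ _ _ _ hx hb]
        have := ht k
        simp only; omega
  · intro s
    obtain ⟨t, h1, h2, h3, h4, h5, h6, h7, h8⟩ := key s
    exact h5
  · intro n
    obtain ⟨t, h1, h2, h3, h4, h5, h6, h7, h8⟩ := key ((2 * c + 3) * (n + 1))
    set m := (trun D wants δ' p0 d₁ ((2 * c + 3) * (n + 1))).out.length with hm
    by_contra hcon
    push Not at hcon
    have ht : t ≤ c * (m + 2) := by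
      rcases h7 with h7 | h7
      · omega
      · by_contra hcon'
        push Not at hcon'
        have h9 : c * ((m + 1) + 1) ≤ t - 1 := by
          have : c * ((m + 1) + 1) = c * (m + 2) := by ring
          omega
        have h10 := hc (m + 1)
        have h11 := out_length_mono D δ q0 h9
        omega
    have hj : (trun D wants δ' p0 d₁ ((2 * c + 3) * (n + 1))).j ≤ m + 1 := by
      rcases h6 with h6 | h6 <;> omega
    have h12 : (2 * c + 3) * (n + 1) ≤ (m + 1) + c * (m + 2) + m := by omega
    have h13 : c * (m + 2) ≤ c * (2 * (n + 1)) := Nat.mul_le_mul_left _ (by omega)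
    nlinarith

end Pool.Agent.H77.RT
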