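import Pool.Agent.H77.RT.LM2

namespace Pool.Agent.H77.RT

/-- `acc b e m n = m b^n + ∑_{i<n} e_i b^{n-1-i}` -/
def acc (b : ℕ) (e : ℕ → ℤ) (m : ℤ) : ℕ → ℤ
  | 0 => m
  | n + 1 => b * acc b e m n + e n

/-- integer clipped to `[-E, E]` -/
theorem Gen.finitize {e : ℕ → ℤ} {E : ℤ} (he : ∀ n, e n ∈ Set.Icc (-E) E) (h : Gen e) :
    Gen (fun n => (⟨e n, he n⟩ : Set.Icc (-E) E)) := by
  classical
  have hE : (0 : ℤ) ∈ Set.Icc (-E) E := by
    have := he 0
    rw [Set.mem_Icc] at this ⊢
    constructor <;> omega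
  have := h.map (fun x : ℤ => if hx : x ∈ Set.Icc (-E) E then (⟨x, hx⟩ : Set.Icc (-E) E)
    else ⟨0, hE⟩)
  convert this using 1
  funext n
  simp only [Function.comp_apply]
  rw [dif_pos (he n)]

/-- floor of `v b^(m+1+s)` from that of `v b^(m+1+l)`, nonnegative error -/
theorem floor_pos {b : ℕ} (hb : 2 ≤ b) {v : ℝ} {m l : ℕ} {N : ℤ}
    (h1 : (N : ℝ) * b ^ l ≤ v * b ^ (m + 1 + l)) (h2 : v * b ^ (m + 1 + l) < N * b ^ l + 1)
    {s : ℕ} (hs : s ≤ l) : ⌊v * (b : ℝ) ^ (m + 1 + s)⌋ = N * b ^ s := by
  have hb0 : (0 : ℝ) < b := by positivity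
  have hpos : (0 : ℝ) < (b : ℝ) ^ (l - s) := by positivity
  have hone : (1 : ℝ) ≤ (b : ℝ) ^ (l - s) := one_le_pow₀ (by exact_mod_cast (by omega : 1 ≤ b))
  have e1 : v * (b : ℝ) ^ (m + 1 + l) = (v * (b : ℝ) ^ (m + 1 + s)) * (b : ℝ) ^ (l - s) := by
    rw [mul_assoc, ← pow_add]; congr 2; omega
  have e2 : (N : ℝ) * b ^ l = (N * (b : ℝ) ^ s) * (b : ℝ) ^ (l - s) := by
    rw [mul_assoc, ← pow_add]; congr 2; omega
  rw [Int.floor_eq_iff]
  push_cast
  rw [e1, e2] at h1 h2
  constructor
  · exact le_of_mul_le_mul_right h1 hpos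
  · have : (v * (b : ℝ) ^ (m + 1 + s)) * (b : ℝ) ^ (l - s) <
      (N * (b : ℝ) ^ s + 1) * (b : ℝ) ^ (l - s) := by
      rw [add_mul, one_mul]; linarith
    exact lt_of_mul_lt_mul_right this hpos.le

theorem floor_neg' {b : ℕ} (hb : 2 ≤ b) {v : ℝ} {m l : ℕ} {N : ℤ}
    (h1 : (N : ℝ) * b ^ l - 1 ≤ v * b ^ (m + 1 + l)) (h2 : v * b ^ (m + 1 + l) < N * b ^ l)
    {s : ℕ} (hs : s ≤ l) : ⌊v * (b : ℝ) ^ (m + 1 + s)⌋ = N * b ^ s - 1 := by
  have hb0 : (0 : ℝ) < b := by positivity
  have hpos : (0 : ℝ) < (b : ℝ) ^ (l - s) := by positivity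
  have hone : (1 : ℝ) ≤ (b : ℝ) ^ (l - s) := one_le_pow₀ (by exact_mod_cast (by omega : 1 ≤ b))
  have e1 : v * (b : ℝ) ^ (m + 1 + l) = (v * (b : ℝ) ^ (m + 1 + s)) * (b : ℝ) ^ (l - s) := by
    rw [mul_assoc, ← pow_add]; congr 2; omega
  have e2 : (N : ℝ) * b ^ l = (N * (b : ℝ) ^ s) * (b : ℝ) ^ (l - s) := by
    rw [mul_assoc, ← pow_add]; congr 2; omega
  rw [Int.floor_eq_iff]
  push_cast
  rw [e1, e2] at h1 h2
  constructor
  · have : (N * (b : ℝ) ^ s - 1) * (b : ℝ) ^ (l - s) ≤
      (v * (b : ℝ) ^ (m + 1 + s)) * (b : ℝ) ^ (l - s) := by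
      rw [sub_mul, one_mul]; linarith
    exact le_of_mul_le_mul_right this hpos
  · have := lt_of_mul_lt_mul_right h2 hpos.le
    linarith

/-- boundedness forces the error into `[-1, 1]` -/
theorem err_bound {b : ℕ} (hb : 2 ≤ b) {u : ℕ → ℝ} {f : ℕ → ℤ} (hf1 : ∀ n, -1 ≤ f n)
    (hf2 : ∀ n, f n ≤ b - 1) (hu : ∀ n, u (n + 1) = b * u n - f n) {P : ℝ}
    (hP : ∀ n, |u n| ≤ P) (n : ℕ) : -1 ≤ u n ∧ u n ≤ 1 := by
  have hb' : (2 : ℝ) ≤ b := by exact_mod_cast hb
  constructor
  · by_contra hcon
    push Not at hcon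
    have key : ∀ k, 2 ^ k * (-1 - u n) ≤ -1 - u (n + k) := by
      intro k
      induction k with
      | zero => simp
      | succ k ih =>
        have h1 := hu (n + k)
        rw [← add_assoc, h1]
        have h2 : (-1 : ℝ) ≤ f (n + k) := by exact_mod_cast hf1 (n + k)
        have h3 : 0 < -1 - u (n + k) := lt_of_lt_of_le (by
          have : (0 : ℝ) < 2 ^ k := by positivity
          have h4 : 0 < -1 - u n := by linarith
          positivity) ih
        rw [pow_succ]
        nlinarith
    obtain ⟨k, hk⟩ := pow_unbounded_of_one_lt ((P + 1) / (-1 - u n)) (one_lt_two : (1 : ℝ) < 2)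
    have h4 : 0 < -1 - u n := by linarith
    rw [div_lt_iff₀ h4] at hk
    have h5 := key k
    have h6 := (abs_le.1 (hP (n + k))).1
    linarith
  · by_contra hcon
    push Not at hcon
    have key : ∀ k, 2 ^ k * (u n - 1) ≤ u (n + k) - 1 := by
      intro k
      induction k with
      | zero => simp
      | succ k ih =>
        have h1 := hu (n + k)
        rw [← add_assoc, h1]
        have h2 : (f (n + k) : ℝ) ≤ b - 1 := by exact_mod_cast hf2 (n + k)
        have h3 : 0 < u (n + k) - 1 := lt_of_lt_of_le (by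
          have : (0 : ℝ) < 2 ^ k := by positivity
          have h4 : 0 < u n - 1 := by linarith
          positivity) ih
        rw [pow_succ]
        nlinarith
    obtain ⟨k, hk⟩ := pow_unbounded_of_one_lt ((P + 1) / (u n - 1)) (one_lt_two : (1 : ℝ) < 2)
    have h4 : 0 < u n - 1 := by linarith
    rw [div_lt_iff₀ h4] at hk
    have h5 := key k
    have h6 := (abs_le.1 (hP (n + k))).2
    linarith

/-- Liouville bound for denominators that are powers of `b` -/
theorem liouville_pow {b : ℕ} (hb : 2 ≤ b) {v : ℝ} (hv : IsAlgebraic ℚ v) (hirr : Irrational v) :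
    ∃ d C : ℕ, ∀ (N : ℤ) (Q j : ℕ) (e : ℕ), 0 < Q → Q ≤ b ^ e → |v - N / Q| * b ^ j ≤ 1 →
      j ≤ d * e + C := by
  have hv' : IsAlgebraic ℤ v := by
    rw [← IsFractionRing.isAlgebraic_iff ℤ ℚ ℝ] at hv
    exact hv
  obtain ⟨f, hf0, hf⟩ := hv'
  have hfa : Polynomial.eval v (f.map (algebraMap ℤ ℝ)) = 0 := by
    rw [Polynomial.eval_map_algebraMap]; exact hf
  obtain ⟨A, hA, h⟩ := Liouville.exists_pos_real_of_irrational_root hirr hf0 hfa
  have hb1 : (1 : ℝ) < b := by exact_mod_cast (by omega : 1 < b)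
  obtain ⟨C, hC⟩ := pow_unbounded_of_one_lt A hb1
  refine ⟨f.natDegree, C, fun N Q j e hQ hQe hj => ?_⟩
  obtain ⟨Q', rfl⟩ : ∃ Q', Q = Q' + 1 := ⟨Q - 1, by omega⟩
  have h1 := h N Q'
  have hb0 : (0 : ℝ) < b := by linarith
  have hQ1 : (((Q' + 1 : ℕ) : ℝ)) = (Q' : ℝ) + 1 := by push_cast; ring
  rw [hQ1] at hj
  have hbj : (0 : ℝ) < (b : ℝ) ^ j := by positivity
  have h2 : (b : ℝ) ^ j ≤ ((Q' : ℝ) + 1) ^ f.natDegree * A := by
    calc (b : ℝ) ^ j = 1 * (b : ℝ) ^ j := by ring
      _ ≤ (((Q' : ℝ) + 1) ^ f.natDegree * (|v - N / ((Q' : ℝ) + 1)| * A)) * (b : ℝ) ^ j :=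
          mul_le_mul_of_nonneg_right h1 hbj.le
      _ = ((Q' : ℝ) + 1) ^ f.natDegree * A * (|v - N / ((Q' : ℝ) + 1)| * (b : ℝ) ^ j) := by ring
      _ ≤ ((Q' : ℝ) + 1) ^ f.natDegree * A * 1 := by
          apply mul_le_mul_of_nonneg_left hj; positivity
      _ = _ := by ring
  have h3 : ((Q' : ℝ) + 1) ≤ (b : ℝ) ^ e := by rw [← hQ1]; exact_mod_cast hQe
  have h4 : (b : ℝ) ^ j < (b : ℝ) ^ (f.natDegree * e + C) := by
    calc (b : ℝ) ^ j ≤ ((Q' : ℝ) + 1) ^ f.natDegree * A := h2
      _ ≤ ((b : ℝ) ^ e) ^ f.natDegree * A := by gcongr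
      _ < ((b : ℝ) ^ e) ^ f.natDegree * (b : ℝ) ^ C := by
          apply mul_lt_mul_of_pos_left hC; positivity
      _ = (b : ℝ) ^ (f.natDegree * e + C) := by
          rw [← pow_mul, ← pow_add, mul_comm e]
  exact ((pow_lt_pow_iff_right₀ hb1).1 h4).le

/-- the `n`-th digit -/
noncomputable def dig (b : ℕ) (v : ℝ) (n : ℕ) : ℕ := Int.toNat (⌊v * (b : ℝ) ^ (n + 1)⌋ % (b : ℤ))

theorem dig_of_floor {b : ℕ} (hb : 2 ≤ b) {v : ℝ} {n : ℕ} {W : ℤ} {g : ℕ} (hg : g < b)
    (h : ⌊v * (b : ℝ) ^ (n + 1)⌋ = W * b + g) : dig b v n = g := by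
  unfold dig
  rw [h, add_comm, Int.add_mul_emod_self_right, Int.emod_eq_of_lt (by positivity) (by exact_mod_cast hg)]
  simp

/-- transition function of the normaliser -/
def nδ (b : ℕ) (_hb : 2 ≤ b) (x : Fin b × Option (Fin b)) (o : Option (Set.Icc (-(b : ℤ)) b))
    (t : ∀ _ : Unit, List Unit) : (Fin b × Option (Fin b)) × (∀ _ : Unit, List Unit) × List ℕ :=
  match x.2 with
  | none => match o with
    | none => (x, t, [])
    | some a =>
      if (a : ℤ) = 0 then (x, fun _ => () :: t (), [])
      else if 0 < (a : ℤ) then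
        ((⟨(a : ℤ).toNat % b, Nat.mod_lt _ (by omega)⟩, some ⟨0, by omega⟩), t, [(x.1 : ℕ)])
      else ((⟨b - 1, by omega⟩, some ⟨b - 1, by omega⟩), t, [(x.1 : ℕ) - 1])
  | some g => match t () with
    | [] => ((x.1, none), t, [])
    | _ :: t' => (x, fun _ => t', [(g : ℕ)])

def nwants (b : ℕ) (x : Fin b × Option (Fin b)) : Bool := x.2.isNone

/-- invariants of the normaliser -/
structure NInv (b : ℕ) (v : ℝ) (f : ℕ → ℤ) (d C s : ℕ)
    (c : TCfg (fun _ : Unit => Unit) (Fin b × Option (Fin b)) ℕ) : Prop where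
  init : IsInit c.out (dig b v)
  sum : c.out.length + (c.S ()).length = c.j
  time : c.j ≤ d * (c.out.length + 1) + C
  wait : c.p.2 = none → acc b f 0 c.j =
    (⌊v * (b : ℝ) ^ c.out.length⌋ * b + (c.p.1 : ℕ)) * b ^ (c.S ()).length ∧
    s ≤ 2 * c.j + c.out.length
  flush : ∀ g, c.p.2 = some g → acc b f 0 c.j = ⌊v * (b : ℝ) ^ c.j⌋ * b + (c.p.1 : ℕ) ∧
    (∀ i, c.out.length ≤ i → i < c.j → dig b v i = g) ∧ s + 1 ≤ 2 * c.j + c.out.length

theorem nstep {b : ℕ} (hb : 2 ≤ b) {v : ℝ} (hirr : Irrational v) {f : ℕ → ℤ} (hf1 : ∀ n, -1 ≤ f n)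
    (hf2 : ∀ n, f n ≤ b - 1) (hu : ∀ n, -1 ≤ v * b ^ (n + 1) - acc b f 0 n ∧
      v * b ^ (n + 1) - acc b f 0 n ≤ 1) (hmem : ∀ n, f n ∈ Set.Icc (-(b : ℤ)) b)
    {d C : ℕ} (hL : ∀ (N : ℤ) (Q j : ℕ) (e : ℕ), 0 < Q → Q ≤ b ^ e → |v - N / Q| * b ^ j ≤ 1 →
      j ≤ d * e + C) {s : ℕ}
    {c : TCfg (fun _ : Unit => Unit) (Fin b × Option (Fin b)) ℕ} (h : NInv b v f d C s c) :
    NInv b v f d C (s + 1) (tstep 1 (nwants b) (nδ b hb) (fun n => ⟨f n, hmem n⟩) c) := by
  obtain ⟨⟨p, o⟩, S, j, out⟩ := c
  obtain ⟨hinit, hsum, htime, hwait, hflush⟩ := h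
  simp only at hinit hsum htime hwait hflush
  have hb0 : (0 : ℝ) < b := by positivity
  cases o with
  | none =>
    obtain ⟨hacc, hs⟩ := hwait rfl
    set N : ℤ := ⌊v * (b : ℝ) ^ out.length⌋ * b + (p : ℕ) with hN
    set l := (S ()).length with hl
    have hjm : j + 1 = out.length + 1 + l := by omega
    -- reading bound
    have hread : j + 1 ≤ d * (out.length + 1) + C := by
      refine hL N (b ^ (out.length + 1)) (j + 1) (out.length + 1) (by positivity) le_rfl ?_
      have h1 := hu j
      rw [hacc] at h1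
      push_cast at h1 ⊢
      rw [← abs_of_pos (show (0 : ℝ) < (b : ℝ) ^ (j + 1) by positivity), ← abs_mul, sub_mul]
      have e1 : (N : ℝ) / (b : ℝ) ^ (out.length + 1) * (b : ℝ) ^ (j + 1) = N * (b : ℝ) ^ l := by
        rw [hjm, pow_add (b : ℝ) (out.length + 1) l, ← mul_assoc, div_mul_cancel₀ _ (by positivity)]
      rw [e1, abs_le]
      exact h1
    have hrec : acc b f 0 (j + 1) = b * (N * b ^ l) + f j := by
      show (b : ℤ) * acc b f 0 j + f j = _
      rw [hacc]
    rcases lt_trichotomy (f j) 0 with hneg | hzero | hpos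
    · have hfj : f j = -1 := by have := hf1 j; omega
      have hstep : tstep 1 (nwants b) (nδ b hb) (fun n => ⟨f n, hmem n⟩) ⟨(p, none), S, j, out⟩ =
          ⟨(⟨b - 1, by omega⟩, some ⟨b - 1, by omega⟩), S, j + 1, out ++ [(p : ℕ) - 1]⟩ := by
        have h0 : ¬ (f j = 0) := by omega
        have h0' : ¬ (0 < f j) := by omega
        simp only [tstep, nwants, nδ, inp, Option.isNone_none, if_true, h0, h0', if_false]
        congr 1
        funext k
        exact repl_self _ _
      rw [hstep]
      have hacc' : acc b f 0 (j + 1) = (N * b ^ l - 1) * b + ((b - 1 : ℕ) : ℤ) := by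
        rw [hrec, hfj]; push_cast [show 1 ≤ b by omega]; ring
      -- value of v b^(j+1)
      have h1 : (N : ℝ) * b ^ l - 1 ≤ v * b ^ (out.length + 1 + l) ∧
          v * b ^ (out.length + 1 + l) < N * b ^ l := by
        have h2 := hu (j + 1)
        rw [hrec, hfj, show j + 1 + 1 = (out.length + 1 + l) + 1 by omega, pow_succ] at h2
        push_cast at h2
        have hb2 : (2 : ℝ) ≤ b := by exact_mod_cast hb
        set y := v * (b : ℝ) ^ (out.length + 1 + l) with hy
        have h3 : v * ((b : ℝ) ^ (out.length + 1 + l) * b) = y * b := by rw [hy]; ring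
        rw [h3] at h2
        constructor
        · by_contra hcon
          push Not at hcon
          nlinarith [h2.1]
        · have h4 : y * b ≤ (N * b ^ l) * b := by nlinarith [h2.2]
          have h5 : y ≤ N * b ^ l := le_of_mul_le_mul_right h4 hb0
          refine lt_of_le_of_ne h5 ?_
          intro h6
          have h7 : Irrational (v * ((b ^ (out.length + 1 + l) : ℕ) : ℝ)) :=
            hirr.mul_natCast (by positivity)
          apply h7
          refine ⟨((N * b ^ l : ℤ) : ℚ), ?_⟩
          push_cast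
          rw [← h6]
      have hfl : ∀ s ≤ l, ⌊v * (b : ℝ) ^ (out.length + 1 + s)⌋ = N * b ^ s - 1 :=
        fun s hs => floor_neg' hb h1.1 h1.2 hs
      have hNp : 1 ≤ (p : ℕ) := by
        have h2 := hfl 0 (Nat.zero_le _)
        rw [add_zero, pow_zero, mul_one] at h2
        have h3 : ⌊v * (b : ℝ) ^ out.length⌋ * b ≤ ⌊v * (b : ℝ) ^ (out.length + 1)⌋ := by
          rw [Int.le_floor]
          push_cast
          rw [pow_succ, ← mul_assoc]
          exact mul_le_mul_of_nonneg_right (Int.floor_le _) hb0.le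
        rw [h2, hN] at h3
        omega
      have hplt := p.2
      have hdig0 : dig b v out.length = (p : ℕ) - 1 := by
        apply dig_of_floor hb (W := ⌊v * (b : ℝ) ^ out.length⌋) (by omega)
        have := hfl 0 (Nat.zero_le _)
        rw [add_zero, pow_zero, mul_one] at this
        rw [this, hN]
        push_cast [hNp]; ring
      refine ⟨?_, ?_, ?_, ?_, ?_⟩
      · exact hinit.append (isInit_singleton (by simp only [add_zero]; exact hdig0.symm))
      · simp only [List.length_append, List.length_singleton]; omega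
      · simp only [List.length_append, List.length_singleton]
        calc j + 1 ≤ d * (out.length + 1) + C := hread
          _ ≤ _ := by
            apply Nat.add_le_add_right
            exact Nat.mul_le_mul_left _ (by omega)
      · intro h; simp at h
      · intro g hg
        simp only [Option.some.injEq] at hg
        subst hg
        simp only [List.length_append, List.length_singleton]
        refine ⟨?_, ?_, ?_⟩
        · have := hfl l le_rfl
          rw [← hjm] at this
          rw [this, hacc']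
        · intro i hi1 hi2
          obtain ⟨s', rfl⟩ : ∃ s', i = out.length + 1 + s' := ⟨i - (out.length + 1), by omega⟩
          apply dig_of_floor hb (W := N * b ^ s' - 1) (by omega)
          rw [add_assoc, hfl (s' + 1) (by omega)]
          push_cast [show 1 ≤ b by omega]; ring
        · omega
    · have hstep : tstep 1 (nwants b) (nδ b hb) (fun n => ⟨f n, hmem n⟩) ⟨(p, none), S, j, out⟩ =
          ⟨(p, none), fun _ => () :: S (), j + 1, out⟩ := by
        simp only [tstep, nwants, nδ, inp, Option.isNone_none, if_true, hzero, List.append_nil]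
        congr 1
        funext k
        show repl 1 (() :: (S ()).take 1) (S ()) = _
        unfold repl
        rw [List.cons_append, List.take_append_drop]
      rw [hstep]
      refine ⟨hinit, ?_, hread, ?_, ?_⟩
      · simp only [List.length_cons]; omega
      · intro _
        simp only [List.length_cons]
        refine ⟨?_, by omega⟩
        rw [hrec, hzero, ← hN, ← hl]; ring
      · intro g hg; simp at hg
    · have hfj := hf2 j
      have hstep : tstep 1 (nwants b) (nδ b hb) (fun n => ⟨f n, hmem n⟩) ⟨(p, none), S, j, out⟩ =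
          ⟨(⟨(f j).toNat % b, Nat.mod_lt _ (by omega)⟩, some ⟨0, by omega⟩), S, j + 1,
            out ++ [(p : ℕ)]⟩ := by
        have h0 : ¬ (f j = 0) := by omega
        simp only [tstep, nwants, nδ, inp, Option.isNone_none, if_true, h0, hpos, if_false]
        congr 1
        funext k
        exact repl_self _ _
      rw [hstep]
      have hmod : (f j).toNat % b = (f j).toNat := Nat.mod_eq_of_lt (by omega)
      have h1 : (N : ℝ) * b ^ l ≤ v * b ^ (out.length + 1 + l) ∧
          v * b ^ (out.length + 1 + l) < N * b ^ l + 1 := by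
        have h2 := hu (j + 1)
        rw [hrec, show j + 1 + 1 = (out.length + 1 + l) + 1 by omega, pow_succ] at h2
        push_cast at h2
        have hb2 : (2 : ℝ) ≤ b := by exact_mod_cast hb
        have hf1' : (1 : ℝ) ≤ f j := by exact_mod_cast hpos
        have hf2' : (f j : ℝ) ≤ b - 1 := by exact_mod_cast hfj
        set y := v * (b : ℝ) ^ (out.length + 1 + l) with hy
        have h3 : v * ((b : ℝ) ^ (out.length + 1 + l) * b) = y * b := by rw [hy]; ring
        rw [h3] at h2
        constructor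
        · have h4 : (N * b ^ l) * b ≤ y * b := by nlinarith [h2.1]
          exact le_of_mul_le_mul_right h4 hb0
        · have h4 : y * b ≤ (N * b ^ l + 1) * b := by nlinarith [h2.2]
          have h5 : y ≤ N * b ^ l + 1 := le_of_mul_le_mul_right h4 hb0
          refine lt_of_le_of_ne h5 ?_
          intro h6
          have h7 : Irrational (v * ((b ^ (out.length + 1 + l) : ℕ) : ℝ)) :=
            hirr.mul_natCast (by positivity)
          apply h7
          refine ⟨((N * b ^ l + 1 : ℤ) : ℚ), ?_⟩
          push_cast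
          rw [← h6]
      have hfl : ∀ s ≤ l, ⌊v * (b : ℝ) ^ (out.length + 1 + s)⌋ = N * b ^ s :=
        fun s hs => floor_pos hb h1.1 h1.2 hs
      have hdig0 : dig b v out.length = (p : ℕ) := by
        apply dig_of_floor hb (W := ⌊v * (b : ℝ) ^ out.length⌋) p.2
        have := hfl 0 (Nat.zero_le _)
        rw [add_zero, pow_zero, mul_one] at this
        rw [this, hN]
      refine ⟨?_, ?_, ?_, ?_, ?_⟩
      · exact hinit.append (isInit_singleton (by simp only [add_zero]; exact hdig0.symm))
      · simp only [List.length_append, List.length_singleton]; omega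
      · simp only [List.length_append, List.length_singleton]
        calc j + 1 ≤ d * (out.length + 1) + C := hread
          _ ≤ _ := by
            apply Nat.add_le_add_right
            exact Nat.mul_le_mul_left _ (by omega)
      · intro h; simp at h
      · intro g hg
        simp only [Option.some.injEq] at hg
        subst hg
        simp only [List.length_append, List.length_singleton]
        refine ⟨?_, ?_, ?_⟩
        · have := hfl l le_rfl
          rw [← hjm] at this
          rw [this, hrec, hmod]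
          have : (((f j).toNat : ℕ) : ℤ) = f j := by omega
          rw [this]; ring
        · intro i hi1 hi2
          obtain ⟨s', rfl⟩ : ∃ s', i = out.length + 1 + s' := ⟨i - (out.length + 1), by omega⟩
          apply dig_of_floor hb (W := N * b ^ s') (by omega)
          rw [add_assoc, hfl (s' + 1) (by omega)]
          push_cast; ring
        · omega
  | some g =>
    obtain ⟨hacc, hdig, hs⟩ := hflush g rfl
    rcases hS : S () with _ | ⟨_, S'⟩
    · have hstep : tstep 1 (nwants b) (nδ b hb) (fun n => ⟨f n, hmem n⟩) ⟨(p, some g), S, j, out⟩ =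
          ⟨(p, none), S, j, out⟩ := by
        have hnd : ∀ o, nδ b hb (p, some g) o (tops 1 S) = ((p, none), tops 1 S, []) := by
          intro o
          unfold nδ
          have : tops 1 S () = [] := by simp [tops, hS]
          simp only
          rw [this]
        unfold tstep
        simp only
        rw [hnd]
        simp only [nwants, Option.isNone_some, List.append_nil]
        congr 1
        funext k
        exact repl_self _ _
      rw [hstep]
      have hj : j = out.length := by rw [hS] at hsum; simpa using hsum.symm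
      refine ⟨hinit, hsum, htime, ?_, ?_⟩
      · intro _
        simp only [hS]
        refine ⟨?_, by omega⟩
        rw [hacc, hj]; simp
      · intro g' hg'; simp at hg'
    · have hstep : tstep 1 (nwants b) (nδ b hb) (fun n => ⟨f n, hmem n⟩) ⟨(p, some g), S, j, out⟩ =
          ⟨(p, some g), fun _ => S', j, out ++ [(g : ℕ)]⟩ := by
        simp only [tstep, nwants, nδ, Option.isNone_some, tops, hS]
        simp [repl]
      rw [hstep]
      rw [hS, List.length_cons] at hsum
      refine ⟨?_, ?_, ?_, ?_, ?_⟩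
      · refine hinit.append (isInit_singleton ?_)
        simp only [add_zero]
        exact (hdig _ le_rfl (by omega)).symm
      · simp only [List.length_append, List.length_singleton]; omega
      · simp only [List.length_append, List.length_singleton]
        calc j ≤ d * (out.length + 1) + C := htime
          _ ≤ _ := by
            apply Nat.add_le_add_right
            exact Nat.mul_le_mul_left _ (by omega)
      · intro h; simp at h
      · intro g' hg'
        simp only [Option.some.injEq] at hg'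
        subst hg'
        simp only [List.length_append, List.length_singleton]
        exact ⟨hacc, fun i hi1 hi2 => hdig i (by omega) hi2, by omega⟩

/-- the normaliser -/
theorem trans_norm {b : ℕ} (hb : 2 ≤ b) {v : ℝ} (hv : IsAlgebraic ℚ v) (hirr : Irrational v)
    (hv0 : 0 ≤ v) (hv1 : v < 1)
    {f : ℕ → ℤ} (hf1 : ∀ n, -1 ≤ f n) (hf2 : ∀ n, f n ≤ b - 1) {P : ℝ}
    (hP : ∀ n, |v * b ^ (n + 1) - acc b f 0 n| ≤ P) (hmem : ∀ n, f n ∈ Set.Icc (-(b : ℤ)) b) :
    Trans (fun n => (⟨f n, hmem n⟩ : Set.Icc (-(b : ℤ)) b)) (dig b v) := by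
  obtain ⟨d, C, hL⟩ := liouville_pow hb hv hirr
  have hu := err_bound hb hf1 hf2 (u := fun n => v * b ^ (n + 1) - acc b f 0 n) (by
    intro n
    show v * b ^ (n + 1 + 1) - ((b * acc b f 0 n + f n : ℤ) : ℝ) = _
    push_cast; ring) hP
  set p0 : Fin b × Option (Fin b) := (⟨0, by omega⟩, none) with hp0
  have key : ∀ s, NInv b v f d C s (trun 1 (nwants b) (nδ b hb) p0 (fun n => ⟨f n, hmem n⟩) s) := by
    intro s
    induction s with
    | zero =>
      rw [trun_zero]
      refine ⟨isInit_nil _, rfl, Nat.zero_le _, ?_, ?_⟩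
      · intro _
        refine ⟨?_, Nat.zero_le _⟩
        have : ⌊v⌋ = 0 := Int.floor_eq_zero_iff.2 ⟨hv0, hv1⟩
        simp [acc, hp0, this]
      · intro g hg; simp [hp0] at hg
    | succ s ih =>
      rw [trun_succ]
      exact nstep hb hirr hf1 hf2 hu hmem hL ih
  refine ⟨Unit, fun _ => Unit, Fin b × Option (Fin b), 1, 2, nwants b, nδ b hb, p0,
    2 * d + 2 * C + 2, inferInstance, fun _ => inferInstance, inferInstance, ?_, ?_, ?_, ?_⟩
  · rintro ⟨p, o⟩ a t ht
    unfold nδ
    cases o with
    | none =>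
      cases a with
      | none => simp
      | some a => simp only; split_ifs <;> simp
    | some g =>
      simp only
      rcases t () with _ | ⟨_, _⟩ <;> simp
  · rintro ⟨p, o⟩ a t ht k
    obtain rfl : k = () := rfl
    have ht' := ht ()
    unfold nδ
    cases o with
    | none =>
      cases a with
      | none => simp only; omega
      | some a => simp only; split_ifs <;> simp <;> omega
    | some g =>
      simp only
      rcases htt : t () with _ | ⟨_, t'⟩
      · simp only; rw [htt]; simp
      · rw [htt, List.length_cons] at ht'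
        simp only; omega
  · intro s
    exact (key s).init
  · intro n
    by_contra hcon
    push Not at hcon
    set s := (2 * d + 2 * C + 2) * (n + 1) with hs
    have h := key s
    set c := trun 1 (nwants b) (nδ b hb) p0 (fun n => ⟨f n, hmem n⟩) s with hc
    have h1 : s ≤ 2 * c.j + c.out.length := by
      rcases ho : c.p.2 with _ | g
      · exact (h.wait ho).2
      · have := (h.flush g ho).2.2; omega
    have h2 := h.time
    have h3 : d * (c.out.length + 1) ≤ d * n := Nat.mul_le_mul_left _ (by omega)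
    have h4 : s ≤ 2 * (d * n + C) + n := by omega
    have h5 : s = 2 * (d * n) + 2 * d + 2 * (C * n) + 2 * C + 2 * n + 2 := by rw [hs]; ring
    omega

end Pool.Agent.H77.RT
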