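import Pool.Agent.H77.RT.TM

/-!
Phases without large head reversals.
-/

namespace Pool.Agent.H77.RT

section phase

variable {K : Type} {Γ : K → Type} {Q : Type}

/-- trajectory of a local system on `[0, t']` -/
structure Traj (D : ℕ) (F : Q → (∀ k, List (Γ k)) → Q × (∀ k, List (Γ k))) (q : ℕ → Q)
    (S : ℕ → ∀ k, List (Γ k)) (t' : ℕ) : Prop where
  hq : ∀ s, s < t' → q (s + 1) = (F (q s) (tops D (S s))).1
  hS : ∀ s, s < t' → ∀ k, S (s + 1) k = repl D ((F (q s) (tops D (S s))).2 k) (S s k)

/-- truncated window process -/
def zstep (D B : ℕ) (F : Q → (∀ k, List (Γ k)) → Q × (∀ k, List (Γ k)))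
    (z : Q × (∀ k, {l : List (Γ k) // l.length ≤ D + B})) :
    Q × (∀ k, {l : List (Γ k) // l.length ≤ D + B}) :=
  ((F z.1 (tops D (fun k => (z.2 k).1))).1,
    fun k => clip (D + B) (repl D ((F z.1 (tops D (fun k => (z.2 k).1))).2 k) (z.2 k).1))

variable {D B : ℕ} {F : Q → (∀ k, List (Γ k)) → Q × (∀ k, List (Γ k))} {q : ℕ → Q}
  {S : ℕ → ∀ k, List (Γ k)} {t' : ℕ}

/-- start of the window process -/
def zinit (D B : ℕ) (q : ℕ → Q) (S : ℕ → ∀ k, List (Γ k)) (a : ℕ) :
    Q × (∀ k, {l : List (Γ k) // l.length ≤ D + B}) := (q a, fun k => clip (D + B) (S a k))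

theorem window (hT : Traj D F q S t') {a n : ℕ} (han : a + n ≤ t')
    (hup : ∀ k s s', s ≤ s' → s' ≤ n → (S (a + s) k).length ≤ (S (a + s') k).length + B) :
    ((zstep D B F)^[n] (zinit D B q S a)).1 = q (a + n) ∧
    ∀ k, ∃ R, S (a + n) k = (((zstep D B F)^[n] (zinit D B q S a)).2 k).1 ++ R ∧
      (R = [] ∨ ∃ r ≤ n, D + B + (S (a + n) k).length ≤
        (((zstep D B F)^[n] (zinit D B q S a)).2 k).1.length + (S (a + r) k).length) := by
  induction n with
  | zero =>
    refine ⟨rfl, fun k => ⟨(S a k).drop (D + B), ?_, ?_⟩⟩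
    · exact (List.take_append_drop _ _).symm
    · by_cases h : D + B ≤ (S a k).length
      · right
        refine ⟨0, le_rfl, ?_⟩
        show D + B + (S a k).length ≤ ((S a k).take (D + B)).length + (S a k).length
        rw [List.length_take, min_eq_left h]
      · left; exact List.drop_eq_nil_of_le (by omega)
  | succ n ih =>
    obtain ⟨ih1, ih2⟩ := ih (by omega) (fun k s s' h h' => hup k s s' h (by omega))
    rw [Function.iterate_succ_apply']
    generalize (zstep D B F)^[n] (zinit D B q S a) = z at ih1 ih2
    have htops : tops D (fun k => (z.2 k).1) = tops D (S (a + n)) := by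
      funext k
      obtain ⟨R, hR, h⟩ := ih2 k
      show ((z.2 k).1).take D = (S (a + n) k).take D
      rcases h with h | ⟨r, hr, h⟩
      · rw [hR, h, List.append_nil]
      · have h1 := hup k r n hr (Nat.le_succ n)
        rw [hR, List.take_append_of_le_length (by omega)]
    have hq := hT.hq (a + n) (by omega)
    have hS := hT.hS (a + n) (by omega)
    refine ⟨?_, fun k => ?_⟩
    · show (F z.1 (tops D (fun k => (z.2 k).1))).1 = q (a + n + 1)
      rw [htops, ih1, hq]
    · obtain ⟨R, hR, h⟩ := ih2 k
      show ∃ R', S (a + n + 1) k = (repl D ((F z.1 (tops D (fun k => (z.2 k).1))).2 k) (z.2 k).1).take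
        (D + B) ++ R' ∧ (R' = [] ∨ ∃ r ≤ n + 1, D + B + (S (a + n + 1) k).length ≤
        ((repl D ((F z.1 (tops D (fun k => (z.2 k).1))).2 k) (z.2 k).1).take (D + B)).length +
          (S (a + r) k).length)
      rw [htops, ih1, hS k]
      set w := (F (q (a + n)) (tops D (S (a + n)))).2 k with hw
      set V := repl D w (z.2 k).1 with hV
      have hVS : repl D w (S (a + n) k) = V ++ R := by
        rw [hV, hR]
        unfold repl
        rw [List.append_assoc]
        congr 1
        rcases h with h | ⟨r, hr, h⟩
        · rw [h, List.append_nil, List.append_nil]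
        · have h1 := hup k r n hr (Nat.le_succ n)
          rw [List.drop_append_of_le_length (by omega)]
      refine ⟨V.drop (D + B) ++ R, ?_, ?_⟩
      · rw [hVS, ← List.append_assoc, List.take_append_drop]
      · by_cases hlen : D + B ≤ V.length
        · right
          refine ⟨n + 1, le_rfl, ?_⟩
          rw [List.length_take, min_eq_left hlen]
          have := hS k
          rw [← hw] at this
          rw [← add_assoc, this]
        · rw [List.drop_eq_nil_of_le (by omega), List.nil_append]
          rcases h with h | ⟨r, hr, h⟩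
          · left; exact h
          · right
            refine ⟨r, by omega, ?_⟩
            rw [List.length_take, min_eq_right (by omega), hVS, List.length_append]
            have h1 := hup k r n hr (Nat.le_succ n)
            have h2 : V.length = w.length + ((z.2 k).1.length - D) := by
              rw [hV]; unfold repl; rw [List.length_append, List.length_drop]
            have h3 : (S (a + n) k).length = (z.2 k).1.length + R.length := by
              rw [hR, List.length_append]
            omega

theorem window_tops (hT : Traj D F q S t') {a n : ℕ} (han : a + n ≤ t')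
    (hup : ∀ k s s', s ≤ s' → s' ≤ n → (S (a + s) k).length ≤ (S (a + s') k).length + B) :
    tops D (S (a + n)) = tops D (fun k => (((zstep D B F)^[n] (zinit D B q S a)).2 k).1) := by
  obtain ⟨h1, h2⟩ := window hT han hup
  funext k
  obtain ⟨R, hR, h⟩ := h2 k
  show (S (a + n) k).take D = (_ : List _).take D
  rcases h with h | ⟨r, hr, h⟩
  · rw [hR, h, List.append_nil]
  · have h1 := hup k r n hr le_rfl
    rw [hR, List.take_append_of_le_length (by omega)]

/-- height increments are determined by the state and the tops -/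
theorem height_incr (hT : Traj D F q S t') {s₁ s₂ : ℕ} (h₁ : s₁ < t') (h₂ : s₂ < t')
    (hq : q s₁ = q s₂) (ht : tops D (S s₁) = tops D (S s₂)) (k : K) :
    (S (s₁ + 1) k).length + (S s₂ k).length = (S (s₂ + 1) k).length + (S s₁ k).length := by
  have e : ∀ s, (S s k).length = (tops D (S s) k).length + ((S s k).drop D).length := by
    intro s
    show _ = ((S s k).take D).length + _
    rw [← List.length_append, List.take_append_drop]
  rw [hT.hS s₁ h₁ k, hT.hS s₂ h₂ k]
  unfold repl
  rw [List.length_append, List.length_append, hq, ht, e s₁, e s₂, ht]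
  omega

end phase

/-- running minimum -/
def rmin (h : ℕ → ℕ) : ℕ → ℕ
  | 0 => h 0
  | n + 1 => min (rmin h n) (h (n + 1))

theorem rmin_succ_le (h : ℕ → ℕ) (n : ℕ) : rmin h (n + 1) ≤ rmin h n := min_le_left _ _

theorem rmin_anti (h : ℕ → ℕ) : Antitone (rmin h) := antitone_nat_of_succ_le (rmin_succ_le h)

theorem rmin_le (h : ℕ → ℕ) {r n : ℕ} (hr : r ≤ n) : rmin h n ≤ h r := by
  refine (rmin_anti h hr).trans ?_
  cases r with
  | zero => exact le_rfl
  | succ r => exact min_le_right _ _

theorem rmin_exists (h : ℕ → ℕ) (n : ℕ) : ∃ r ≤ n, rmin h n = h r := by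
  induction n with
  | zero => exact ⟨0, le_rfl, rfl⟩
  | succ n ih =>
    obtain ⟨r, hr, h1⟩ := ih
    rcases le_total (rmin h n) (h (n + 1)) with h2 | h2
    · exact ⟨r, by omega, by show min _ _ = _; rw [min_eq_left h2, h1]⟩
    · exact ⟨n + 1, le_rfl, by show min _ _ = _; rw [min_eq_right h2]⟩

/-- a nonincreasing sequence of naturals bounded by `H` is constant on some step `j ≤ H` -/
theorem exists_const_step {ψ : ℕ → ℕ} (hψ : Antitone ψ) {H : ℕ} (h0 : ψ 0 ≤ H) :
    ∃ j ≤ H, ψ (j + 1) = ψ j := by
  by_contra hcon
  push Not at hcon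
  have key : ∀ j ≤ H + 1, ψ j + j ≤ H := by
    intro j
    induction j with
    | zero => intro _; simpa using h0
    | succ j ih =>
      intro hj
      have h1 := ih (by omega)
      have h2 := hcon j (by omega)
      have h3 := hψ (Nat.le_succ j)
      simp only [Nat.succ_eq_add_one] at h3
      omega
  have := key (H + 1) le_rfl
  omega

section core

variable {K : Type} [Finite K] {Γ : K → Type} [∀ k, Finite (Γ k)] {Q : Type} [Finite Q]

/-- bounding constant -/
theorem phase_core (D B P : ℕ) (F : Q → (∀ k, List (Γ k)) → Q × (∀ k, List (Γ k))) :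
    ∃ A : ℕ, ∀ (q : ℕ → Q) (S : ℕ → ∀ k, List (Γ k)) (t' : ℕ), Traj D F q S t' →
      (∀ s k, (S s k).length ≤ P * s) → ∀ t ≤ t',
      (∀ k, (∀ s s', t ≤ s → s ≤ s' → s' ≤ t' → (S s k).length ≤ (S s' k).length + B) ∨
        (∀ s s', t ≤ s → s ≤ s' → s' ≤ t' → (S s' k).length ≤ (S s k).length + B)) →
      t' ≤ A * (t + 1) ∨ ∃ i p, 0 < p ∧ i + p ≤ A * (t + 1) ∧ i + p ≤ t' ∧
        ∀ s, i ≤ s → s + p ≤ t' → q (s + p) = q s ∧ tops D (S (s + p)) = tops D (S s) := by
  classical
  have _ : Fintype K := Fintype.ofFinite K
  have hfin : ∀ k, Finite {l : List (Γ k) // l.length ≤ D + B} := fun k =>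
    (List.finite_length_le (Γ k) (D + B)).to_subtype
  set T := (Q × (∀ k, {l : List (Γ k) // l.length ≤ D + B})) × (K → Fin (B + 1)) with hTdef
  have hTfin : Finite T := inferInstance
  have _ : Fintype T := Fintype.ofFinite T
  set N := Fintype.card T with hN
  set κ := Fintype.card K with hκ
  refine ⟨(κ * P + 2) * (N + 1), ?_⟩
  intro q S t' hT hP t ht hphase
  by_cases hbig : t' < t + (κ * (P * t) + 1) * N
  · left
    have h1 : (κ * P + 2) * (N + 1) * (t + 1) = (t + (κ * (P * t) + 1) * N) +
        (κ * P * N + κ * P * t + κ * P + 2 * N * t + N + t + 2) := by ring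
    omega
  right
  push Not at hbig
  -- running minima
  set h : K → ℕ → ℕ := fun k n => (S (t + n) k).length with hh
  set ψ : ℕ → ℕ := fun j => ∑ k, rmin (h k) (j * N) with hψ
  have hψa : Antitone ψ := by
    intro i j hij
    apply Finset.sum_le_sum
    intro k _
    exact rmin_anti _ (Nat.mul_le_mul_right _ hij)
  have hψ0 : ψ 0 ≤ κ * (P * t) := by
    simp only [hψ]
    calc ∑ k, rmin (h k) (0 * N) ≤ ∑ _k : K, P * t := by
          apply Finset.sum_le_sum
          intro k _
          rw [zero_mul]
          exact hP t k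
      _ = κ * (P * t) := by rw [Finset.sum_const, smul_eq_mul, Finset.card_univ]
  obtain ⟨j, hj, hconst⟩ := exists_const_step hψa hψ0
  set a := t + j * N with ha
  have hjN : j * N ≤ κ * (P * t) * N := Nat.mul_le_mul_right _ hj
  have haN : a + N ≤ t' := by
    have : (κ * (P * t) + 1) * N = κ * (P * t) * N + N := by ring
    omega
  have hmk : ∀ k, rmin (h k) ((j + 1) * N) = rmin (h k) (j * N) := by
    intro k
    by_contra hne
    have hlt : rmin (h k) ((j + 1) * N) < rmin (h k) (j * N) :=
      lt_of_le_of_ne (rmin_anti _ (Nat.mul_le_mul_right _ (Nat.le_succ j))) hne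
    have : ψ (j + 1) < ψ j := by
      apply Finset.sum_lt_sum
      · intro k _; exact rmin_anti _ (Nat.mul_le_mul_right _ (Nat.le_succ j))
      · exact ⟨k, Finset.mem_univ _, hlt⟩
    omega
  set m : K → ℕ := fun k => rmin (h k) (j * N) with hm
  have hm1 : ∀ k, ∃ r, t ≤ r ∧ r ≤ a ∧ m k = (S r k).length := by
    intro k
    obtain ⟨r, hr, h1⟩ := rmin_exists (h k) (j * N)
    exact ⟨t + r, by omega, by omega, h1⟩
  have hm2 : ∀ k n, n ≤ N → m k ≤ (S (a + n) k).length := by
    intro k n hn
    have h1 : rmin (h k) ((j + 1) * N) ≤ h k (j * N + n) := rmin_le _ (by rw [Nat.succ_mul]; omega)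
    rw [hmk k] at h1
    simp only [hh, ← add_assoc, ← ha] at h1
    exact h1
  -- `up` or `down`
  have hdown : ∀ k, ¬ (∀ s s', t ≤ s → s ≤ s' → s' ≤ t' → (S s k).length ≤ (S s' k).length + B) →
      ∀ n, a + n ≤ t' → (S (a + n) k).length ≤ m k + B := by
    intro k hk n hn
    rcases hphase k with h1 | h1
    · exact absurd h1 hk
    · obtain ⟨r, hr1, hr2, hr3⟩ := hm1 k
      rw [hr3]
      exact h1 r (a + n) hr1 (by omega) hn
  -- monotonicity up to `B` given lower bounds
  have hup : ∀ n, a + n ≤ t' → (∀ k, ∀ s ≤ n, m k ≤ (S (a + s) k).length ∨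
      (∀ s s', t ≤ s → s ≤ s' → s' ≤ t' → (S s k).length ≤ (S s' k).length + B)) →
      ∀ k s s', s ≤ s' → s' ≤ n → (S (a + s) k).length ≤ (S (a + s') k).length + B := by
    intro n hn hlow k s s' hss hs'
    by_cases hk : (∀ s s', t ≤ s → s ≤ s' → s' ≤ t' → (S s k).length ≤ (S s' k).length + B)
    · exact hk _ _ (by omega) (by omega) (by omega)
    · have h1 := hdown k hk s (by omega)
      rcases hlow k s' hs' with h2 | h2
      · omega
      · exact absurd h2 hk
  set Z : ℕ → Q × (∀ k, {l : List (Γ k) // l.length ≤ D + B}) :=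
    fun n => (zstep D B F)^[n] (zinit D B q S a) with hZ
  -- pigeonhole
  obtain ⟨x, y, hxy, hcode⟩ := Fintype.exists_ne_map_eq_of_card_lt
    (fun n : Fin (N + 1) => ((Z n, fun k => ⟨min ((S (a + n) k).length - m k) B, by omega⟩) : T))
    (by rw [Fintype.card_fin]; exact Nat.lt_succ_self N)
  obtain ⟨i, p, hp, hip, hZip, hhip⟩ : ∃ i p, 0 < p ∧ i + p ≤ N ∧ Z (i + p) = Z i ∧
      ∀ k, min ((S (a + (i + p)) k).length - m k) B = min ((S (a + i) k).length - m k) B := by
    have h1 := congrArg Prod.fst hcode
    have h2 := congrArg Prod.snd hcode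
    simp only at h1 h2
    have h3 : ∀ k, min ((S (a + (x : ℕ)) k).length - m k) B = min ((S (a + (y : ℕ)) k).length - m k) B := by
      intro k
      have := congrFun h2 k
      exact Fin.mk.inj this
    rcases lt_or_gt_of_ne (fun h => hxy (Fin.ext h) : (x : ℕ) ≠ y) with hlt | hlt
    · refine ⟨x, y - x, by omega, by omega, ?_, fun k => ?_⟩
      · rw [show (x : ℕ) + (y - x) = y by omega]; exact h1.symm
      · rw [show (x : ℕ) + (y - x) = y by omega]; exact (h3 k).symm
    · refine ⟨y, x - y, by omega, by omega, ?_, fun k => ?_⟩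
      · rw [show (y : ℕ) + (x - y) = x by omega]; exact h1
      · rw [show (y : ℕ) + (x - y) = x by omega]; exact h3 k
  have hZper : ∀ n, i ≤ n → Z (n + p) = Z n := by
    intro n hn
    induction n, hn using Nat.le_induction with
    | base => exact hZip
    | succ n _ ih =>
      have e1 : Z (n + 1 + p) = zstep D B F (Z (n + p)) := by
        simp only [hZ]
        rw [show n + 1 + p = (n + p) + 1 by ring, Function.iterate_succ_apply']
      have e2 : Z (n + 1) = zstep D B F (Z n) := by
        simp only [hZ]; rw [Function.iterate_succ_apply']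
      rw [e1, e2, ih]
  -- main induction
  have main : ∀ n, a + n ≤ t' → (∀ k, ∀ s ≤ n, m k ≤ (S (a + s) k).length ∨
      (∀ s s', t ≤ s → s ≤ s' → s' ≤ t' → (S s k).length ≤ (S s' k).length + B)) ∧
      (∀ k, ¬ (∀ s s', t ≤ s → s ≤ s' → s' ≤ t' → (S s k).length ≤ (S s' k).length + B) →
        ∀ s, i ≤ s → s + p ≤ n → (S (a + (s + p)) k).length = (S (a + s) k).length) := by
    intro n
    induction n with
    | zero =>
      intro _
      refine ⟨fun k s hs => Or.inl (hm2 k s (by omega)), fun k _ s _ hs => by omega⟩
    | succ n ih =>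
      intro hn
      obtain ⟨ih1, ih2⟩ := ih (by omega)
      have hupn := hup n (by omega) ih1
      have hincr : ∀ k, i + p ≤ n → (S (a + n + 1) k).length + (S (a + (n - p)) k).length =
          (S (a + (n - p) + 1) k).length + (S (a + n) k).length := by
        intro k hge
        have w1 := window hT (a := a) (n := n) (by omega) hupn
        have w2 := window hT (a := a) (n := n - p) (by omega)
          (fun k s s' h h' => hupn k s s' h (by omega))
        have w3 := window_tops hT (a := a) (n := n) (by omega) hupn
        have w4 := window_tops hT (a := a) (n := n - p) (by omega)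
          (fun k s s' h h' => hupn k s s' h (by omega))
        have hz : Z n = Z (n - p) := by
          have := hZper (n - p) (by omega)
          rwa [show n - p + p = n by omega] at this
        simp only [hZ] at hz
        refine height_incr hT (by omega) (by omega) ?_ ?_ k
        · rw [← w1.1, ← w2.1, hz]
        · rw [w3, w4, hz]
      have hper : ∀ k, ¬ (∀ s s', t ≤ s → s ≤ s' → s' ≤ t' → (S s k).length ≤ (S s' k).length + B) →
          ∀ s, i ≤ s → s + p ≤ n + 1 → (S (a + (s + p)) k).length = (S (a + s) k).length := by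
        intro k hk s hs hsn
        rcases Nat.lt_or_ge (s + p) (n + 1) with hlt | hge
        · exact ih2 k hk s hs (by omega)
        · have hsp : s + p = n + 1 := by omega
          rcases Nat.eq_or_lt_of_le hs with heq | hlt
          · -- base : s = i
            rw [← heq]
            have h1 := hhip k
            have hd1 := hdown k hk (i + p) (by omega)
            have hd2 := hdown k hk i (by omega)
            have l1 := hm2 k (i + p) hip
            have l2 := hm2 k i (by omega)
            rw [min_eq_left (by omega), min_eq_left (by omega)] at h1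
            omega
          · have h1 := hincr k (by omega)
            have h2 := ih2 k hk (s - 1) (by omega) (by omega)
            have e1 : a + (s + p) = a + n + 1 := by omega
            have e2 : a + (n - p) + 1 = a + s := by omega
            have e3 : a + (s - 1 + p) = a + n := by omega
            have e4 : a + (s - 1) = a + (n - p) := by omega
            rw [e3, e4] at h2
            rw [e2] at h1
            rw [e1]
            omega
      refine ⟨?_, hper⟩
      intro k s hs
      by_cases hk : (∀ s s', t ≤ s → s ≤ s' → s' ≤ t' → (S s k).length ≤ (S s' k).length + B)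
      · exact Or.inr hk
      · left
        rcases Nat.lt_or_ge s (n + 1) with hlt | hge
        · rcases ih1 k s (by omega) with h1 | h1
          · exact h1
          · exact absurd h1 hk
        · have hsn : s = n + 1 := by omega
          by_cases hsN : s ≤ N
          · exact hm2 k s hsN
          · have h1 := hper k hk (s - p) (by omega) (by omega)
            rw [show s - p + p = s by omega] at h1
            rw [h1]
            rcases ih1 k (s - p) (by omega) with h2 | h2
            · exact h2
            · exact absurd h2 hk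
  have hupall : ∀ n, a + n ≤ t' → ∀ k s s', s ≤ s' → s' ≤ n →
      (S (a + s) k).length ≤ (S (a + s') k).length + B := fun n hn => hup n hn (main n hn).1
  refine ⟨a + i, p, hp, ?_, by omega, ?_⟩
  · have h1 : a + i + p ≤ t + κ * (P * t) * N + N := by omega
    have h2 : (κ * P + 2) * (N + 1) * (t + 1) = (t + κ * (P * t) * N + N) +
        (κ * P * N + κ * P * t + κ * P + 2 * N * t + N + t + 2) := by ring
    omega
  · intro s hs hsp
    obtain ⟨n, rfl⟩ : ∃ n, s = a + n := ⟨s - a, by omega⟩
    have w1 := window hT (a := a) (n := n) (by omega) (hupall n (by omega))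
    have w2 := window hT (a := a) (n := n + p) (by omega) (hupall (n + p) (by omega))
    have w3 := window_tops hT (a := a) (n := n) (by omega) (hupall n (by omega))
    have w4 := window_tops hT (a := a) (n := n + p) (by omega) (hupall (n + p) (by omega))
    have hz := hZper n (by omega)
    simp only [hZ] at hz
    rw [show a + n + p = a + (n + p) by ring]
    refine ⟨?_, ?_⟩
    · rw [← w1.1, ← w2.1, hz]
    · rw [w3, w4, hz]

end core

end Pool.Agent.H77.RT
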