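import Pool.Agent.H77.RT.Norm

namespace Pool.Agent.H77.RT

theorem gen_const {A : Type} (a : A) : Gen (fun _ => a) := by
  obtain ⟨δ, hδ⟩ : ∃ δ : Unit → (∀ _ : Empty, List Unit) → Unit × (∀ _ : Empty, List Unit) × List A,
    ∀ q t, δ q t = ((), t, [a]) := ⟨_, fun _ _ => rfl⟩
  have key : ∀ t, (run (Γ := fun _ : Empty => Unit) 0 δ () t).out = List.replicate t a := by
    intro t
    induction t with
    | zero => rfl
    | succ t ih =>
      rw [run_succ]
      simp only [step, hδ, ih]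
      rw [List.replicate_succ']
  refine ⟨Empty, fun _ => Unit, Unit, 0, 1, δ, (), 1, inferInstance, fun _ => inferInstance,
    inferInstance, ?_, ?_, ?_, ?_⟩
  · intro q t _; rw [hδ]; simp
  · intro q t _ k; exact k.elim
  · intro t i hi
    simp only [key, List.getElem_replicate]
  · intro n
    rw [key, List.length_replicate]; omega

theorem dig_lt {b : ℕ} (hb : 2 ≤ b) (v : ℝ) (n : ℕ) : dig b v n < b := by
  unfold dig
  have h1 : 0 ≤ ⌊v * (b : ℝ) ^ (n + 1)⌋ % (b : ℤ) := Int.emod_nonneg _ (by omega)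
  have h2 : ⌊v * (b : ℝ) ^ (n + 1)⌋ % (b : ℤ) < b := Int.emod_lt_of_pos _ (by omega)
  omega

theorem Gen.drop_nat {d : ℕ → ℕ} {b : ℕ} (hd : ∀ n, d n < b) (j : ℕ) (h : Gen d) :
    Gen (fun i => d (i + j)) := by
  have hb : 0 < b := lt_of_le_of_lt (Nat.zero_le _) (hd 0)
  have h1 : Gen (fun n => (⟨d n % b, Nat.mod_lt _ hb⟩ : Fin b)) :=
    h.map (fun x => (⟨x % b, Nat.mod_lt _ hb⟩ : Fin b))
  have h2 := (h1.drop j).map (fun x : Fin b => (x : ℕ))
  convert h2 using 1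
  funext i
  simp only [Function.comp_apply]
  rw [Nat.mod_eq_of_lt (hd _)]

theorem acc_lin (b : ℕ) (e₁ e₂ : ℕ → ℤ) (m₁ m₂ k₁ k₂ : ℤ) (n : ℕ) :
    acc b (fun n => k₁ * e₁ n + k₂ * e₂ n) (k₁ * m₁ + k₂ * m₂) n =
      k₁ * acc b e₁ m₁ n + k₂ * acc b e₂ m₂ n := by
  induction n with
  | zero => rfl
  | succ n ih =>
    show (b : ℤ) * acc b _ _ n + _ = k₁ * (b * acc b e₁ m₁ n + e₁ n) + k₂ * (b * acc b e₂ m₂ n + e₂ n)
    rw [ih]; ring

theorem acc_shift (b : ℕ) (e : ℕ → ℤ) (m k : ℤ) (n : ℕ) :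
    acc b e (m + k) n = acc b e m n + k * b ^ n := by
  induction n with
  | zero => simp [acc]
  | succ n ih =>
    show (b : ℤ) * acc b _ _ n + _ = (b * acc b e m n + e n) + _
    rw [ih]; ring

/-- `y` has a signed-digit representation with bounded error, generated in real time -/
def SD (b : ℕ) (y : ℝ) : Prop :=
  ∃ (e : ℕ → ℤ) (E m : ℤ) (q : ℕ) (P : ℝ), Gen e ∧ (∀ n, |e n| ≤ E) ∧ 0 < q ∧
    ∀ n, |q * y * b ^ n - acc b e m n| ≤ P

theorem mem_Icc_of_abs {e : ℕ → ℤ} {E : ℤ} (h : ∀ n, |e n| ≤ E) (n : ℕ) : e n ∈ Set.Icc (-E) E :=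
  abs_le.1 (h n)

theorem SD.lin {b : ℕ} {y₁ y₂ : ℝ} (h₁ : SD b y₁) (h₂ : SD b y₂) : SD b (y₁ + y₂) := by
  obtain ⟨e₁, E₁, m₁, q₁, P₁, hg₁, he₁, hq₁, hP₁⟩ := h₁
  obtain ⟨e₂, E₂, m₂, q₂, P₂, hg₂, he₂, hq₂, hP₂⟩ := h₂
  refine ⟨fun n => q₂ * e₁ n + q₁ * e₂ n, q₂ * E₁ + q₁ * E₂, q₂ * m₁ + q₁ * m₂, q₁ * q₂,
    q₂ * P₁ + q₁ * P₂, ?_, ?_, Nat.mul_pos hq₁ hq₂, ?_⟩
  · have := ((hg₁.finitize (mem_Icc_of_abs he₁)).prod (hg₂.finitize (mem_Icc_of_abs he₂))).map
      (fun x => (q₂ : ℤ) * (x.1 : ℤ) + q₁ * (x.2 : ℤ))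
    exact this
  · intro n
    refine (abs_add_le _ _).trans (add_le_add ?_ ?_)
    · rw [abs_mul, abs_of_nonneg (by positivity : (0 : ℤ) ≤ q₂)]
      exact mul_le_mul_of_nonneg_left (he₁ n) (by positivity)
    · rw [abs_mul, abs_of_nonneg (by positivity : (0 : ℤ) ≤ q₁)]
      exact mul_le_mul_of_nonneg_left (he₂ n) (by positivity)
  · intro n
    rw [acc_lin]
    push_cast
    have e1 : (q₁ : ℝ) * q₂ * (y₁ + y₂) * b ^ n - (q₂ * (acc b e₁ m₁ n : ℝ) + q₁ * acc b e₂ m₂ n) =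
      q₂ * (q₁ * y₁ * b ^ n - acc b e₁ m₁ n) + q₁ * (q₂ * y₂ * b ^ n - acc b e₂ m₂ n) := by ring
    rw [e1]
    refine (abs_add_le _ _).trans (add_le_add ?_ ?_)
    · rw [abs_mul, abs_of_nonneg (by positivity : (0 : ℝ) ≤ q₂)]
      exact mul_le_mul_of_nonneg_left (hP₁ n) (by positivity)
    · rw [abs_mul, abs_of_nonneg (by positivity : (0 : ℝ) ≤ q₁)]
      exact mul_le_mul_of_nonneg_left (hP₂ n) (by positivity)

theorem SD.smul {b : ℕ} {y : ℝ} (h : SD b y) (r : ℚ) : SD b (r * y) := by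
  obtain ⟨e, E, m, q, P, hg, he, hq, hP⟩ := h
  refine ⟨fun n => r.num * e n, |r.num| * E, r.num * m, r.den * q, |(r.num : ℝ)| * P, ?_, ?_,
    Nat.mul_pos r.den_pos hq, ?_⟩
  · exact hg.map (fun x => r.num * x)
  · intro n
    rw [abs_mul]
    exact mul_le_mul_of_nonneg_left (he n) (abs_nonneg _)
  · intro n
    have h1 := acc_lin b e e m m r.num 0 n
    simp only [zero_mul, add_zero] at h1
    rw [h1]
    push_cast
    have e1 : (r.den : ℝ) * r = r.num := by exact_mod_cast r.den_mul_eq_num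
    have e2 : (r.den : ℝ) * q * (r * y) * b ^ n - r.num * (acc b e m n : ℝ) =
      r.num * (q * y * b ^ n - acc b e m n) := by
      rw [← e1]; ring
    rw [e2, abs_mul]
    exact mul_le_mul_of_nonneg_left (hP n) (abs_nonneg _)

theorem SD.zero (b : ℕ) : SD b 0 := by
  refine ⟨fun _ => 0, 0, 0, 1, 0, gen_const 0, by simp, one_pos, ?_⟩
  intro n
  have : acc b (fun _ => 0) 0 n = 0 := by
    induction n with
    | zero => rfl
    | succ n ih => show (b : ℤ) * acc b _ _ n + 0 = 0; rw [ih]; simp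
  rw [this]; simp

theorem floor_succ {b : ℕ} (hb : 2 ≤ b) (x : ℝ) (n : ℕ) :
    ⌊x * (b : ℝ) ^ (n + 1)⌋ = b * ⌊x * (b : ℝ) ^ n⌋ + (dig b x n : ℤ) := by
  have hb0 : (0 : ℝ) < b := by positivity
  have h0 : 0 ≤ ⌊x * (b : ℝ) ^ (n + 1)⌋ % (b : ℤ) := Int.emod_nonneg _ (by omega)
  have h1 : (dig b x n : ℤ) = ⌊x * (b : ℝ) ^ (n + 1)⌋ % (b : ℤ) := by
    unfold dig; omega
  have h2 : ⌊x * (b : ℝ) ^ n⌋ = ⌊x * (b : ℝ) ^ (n + 1)⌋ / (b : ℤ) := by
    have e1 : x * (b : ℝ) ^ n = (x * (b : ℝ) ^ (n + 1)) / b := by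
      rw [pow_succ]; field_simp
    rw [e1]
    exact Int.floor_div_natCast _ _
  rw [h1, h2]
  have := Int.emod_add_mul_ediv ⌊x * (b : ℝ) ^ (n + 1)⌋ (b : ℤ)
  omega

theorem SD.of_gen {b : ℕ} (hb : 2 ≤ b) {x : ℝ} (h : Gen (dig b x)) : SD b x := by
  refine ⟨fun n => (dig b x n : ℤ), b, ⌊x⌋, 1, 1, h.map (fun n : ℕ => (n : ℤ)), ?_, one_pos, ?_⟩
  · intro n
    have := dig_lt hb x n
    show |(dig b x n : ℤ)| ≤ b
    rw [abs_of_nonneg (by positivity)]
    exact_mod_cast this.le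
  · intro n
    have : acc b (fun n => (dig b x n : ℤ)) ⌊x⌋ n = ⌊x * (b : ℝ) ^ n⌋ := by
      induction n with
      | zero => simp [acc]
      | succ n ih =>
        rw [floor_succ hb, ← ih]; rfl
    rw [this]
    simp only [Nat.cast_one, one_mul]
    have h1 := Int.floor_le (x * (b : ℝ) ^ n)
    have h2 := Int.lt_floor_add_one (x * (b : ℝ) ^ n)
    rw [abs_le]
    constructor <;> linarith

/-- a convergent expansion with bounded integer digits -/
theorem SD.of_hasSum {b : ℕ} (hb : 2 ≤ b) {x : ℝ} {e : ℕ → ℤ} (h : Gen e) {E : ℤ}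
    (hE : ∀ n, |e n| ≤ E) (hs : HasSum (fun i => (e i : ℝ) / (b : ℝ) ^ (i + 1)) x) : SD b x := by
  refine ⟨e, E, 0, 1, E, h, hE, one_pos, ?_⟩
  have hb0 : (0 : ℝ) < b := by positivity
  have hb2 : (2 : ℝ) ≤ b := by exact_mod_cast hb
  set u : ℕ → ℝ := fun n => x * b ^ n - acc b e 0 n with hu
  have hu1 : ∀ n, u (n + 1) = b * u n - e n := by
    intro n
    show x * b ^ (n + 1) - ((b * acc b e 0 n + e n : ℤ) : ℝ) = b * (x * b ^ n - acc b e 0 n) - e n
    push_cast; ring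
  have hsum : ∀ n, (b : ℝ) ^ n * ∑ i ∈ Finset.range n, (e i : ℝ) / (b : ℝ) ^ (i + 1) = acc b e 0 n := by
    intro n
    induction n with
    | zero => simp [acc]
    | succ n ih =>
      rw [Finset.sum_range_succ]
      show _ = ((b * acc b e 0 n + e n : ℤ) : ℝ)
      push_cast
      rw [← ih, mul_add, mul_div_cancel₀ _ (by positivity)]
      ring
  have hlim : Filter.Tendsto (fun n => u n / b ^ n) Filter.atTop (nhds 0) := by
    have h1 := hs.tendsto_sum_nat
    have h2 : Filter.Tendsto (fun n => x - ∑ i ∈ Finset.range n, (e i : ℝ) / (b : ℝ) ^ (i + 1))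
      Filter.atTop (nhds (x - x)) := tendsto_const_nhds.sub h1
    rw [sub_self] at h2
    refine h2.congr (fun n => ?_)
    simp only [hu]
    rw [← hsum n, eq_div_iff (by positivity)]
    ring
  intro n
  simp only [Nat.cast_one, one_mul]
  change |u n| ≤ E
  by_contra hcon
  push Not at hcon
  have hE0 : (0 : ℝ) ≤ E := by
    have := (abs_nonneg (e 0)).trans (hE 0)
    exact_mod_cast this
  have key : ∀ k, (b : ℝ) ^ k * (|u n| - E) ≤ |u (n + k)| - E := by
    intro k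
    induction k with
    | zero => simp
    | succ k ih =>
      have h1 := hu1 (n + k)
      rw [← add_assoc, h1]
      have h2 : |(e (n + k) : ℝ)| ≤ E := by exact_mod_cast hE (n + k)
      have h3 : (b : ℝ) * |u (n + k)| - |(e (n + k) : ℝ)| ≤ |b * u (n + k) - e (n + k)| := by
        have := abs_sub_abs_le_abs_sub ((b : ℝ) * u (n + k)) (e (n + k))
        rwa [abs_mul, abs_of_pos hb0] at this
      rw [pow_succ]
      nlinarith
  have hc : 0 < (|u n| - E) / b ^ n := by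
    have : 0 < |u n| - E := by linarith
    positivity
  have h4 : ∀ᶠ m in Filter.atTop, |u m / b ^ m| < (|u n| - E) / b ^ n := by
    have := hlim.abs
    rw [abs_zero] at this
    exact this.eventually (gt_mem_nhds hc)
  obtain ⟨M, hM⟩ := Filter.eventually_atTop.1 h4
  have h5 := hM (n + M) (by omega)
  rw [abs_div, abs_of_pos (show (0 : ℝ) < (b : ℝ) ^ (n + M) by positivity), div_lt_div_iff₀ (by positivity)
    (by positivity), pow_add] at h5
  have h6 := key M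
  have h7 : (b : ℝ) ^ n * ((b : ℝ) ^ M * (|u n| - E)) ≤ (b : ℝ) ^ n * (|u (n + M)| - E) :=
    mul_le_mul_of_nonneg_left h6 (by positivity)
  have h8 : 0 ≤ (b : ℝ) ^ n * E := by positivity
  nlinarith

/-- the division step -/
theorem div_step {b : ℕ} (hb : 2 ≤ b) {M E' r a f : ℤ} (hM : b * E' ≤ M) (hM0 : 0 < M)
    (hE' : 0 ≤ E') (hr : r ∈ Set.Icc (-E') (M - E')) (ha : a ∈ Set.Icc (-E') E')
    (hf : f = min ((b * r + a + E') / M) (b - 1)) :
    -1 ≤ f ∧ f ≤ b - 1 ∧ b * r + a - M * f ∈ Set.Icc (-E') (M - E') := by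
  rw [Set.mem_Icc] at *
  obtain ⟨hr1, hr2⟩ := hr
  obtain ⟨ha1, ha2⟩ := ha
  have hb' : (2 : ℤ) ≤ b := by exact_mod_cast hb
  set N := b * r + a + E' with hN
  have hN1 : -M ≤ N := by nlinarith
  have hN2 : N ≤ b * M := by nlinarith
  have hdm := Int.emod_add_mul_ediv N M
  have hm1 := Int.emod_nonneg N hM0.ne'
  have hm2 := Int.emod_lt_of_pos N hM0
  have hq1 : -1 ≤ N / M := by
    rw [Int.le_ediv_iff_mul_le hM0]; linarith
  have hq2 : N / M ≤ b := by
    have h1 : N / M < b + 1 := by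
      rw [Int.ediv_lt_iff_lt_mul hM0]; nlinarith
    omega
  rcases le_or_gt (N / M) (b - 1) with h | h
  · rw [min_eq_left h] at hf
    subst hf
    refine ⟨hq1, h, ?_, ?_⟩ <;> linarith
  · rw [min_eq_right h.le] at hf
    have h3 : N / M = b := by omega
    rw [h3] at hdm
    subst hf
    refine ⟨by omega, le_rfl, ?_, ?_⟩
    · nlinarith
    · nlinarith

theorem SD.gen_dig {b : ℕ} (hb : 2 ≤ b) {z : ℝ} (h : SD b z) (hz : IsAlgebraic ℚ z)
    (hirr : Irrational z) : Gen (dig b z) := by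
  obtain ⟨e, E, m₀, q, P, hg, he, hq, hP⟩ := h
  have hb0 : (0 : ℝ) < b := by positivity
  have hb' : (2 : ℤ) ≤ b := by exact_mod_cast hb
  -- shift to (0,1)
  set z' : ℝ := z - ⌊z⌋ with hz'
  set m : ℤ := m₀ + (-(q * ⌊z⌋)) with hm
  have hP' : ∀ n, |q * z' * b ^ n - acc b e m n| ≤ P := by
    intro n
    rw [hm, acc_shift]
    have : (q : ℝ) * z' * b ^ n - ((acc b e m₀ n + -(q * ⌊z⌋) * b ^ n : ℤ) : ℝ) =
      q * z * b ^ n - acc b e m₀ n := by
      rw [hz']; push_cast; ring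
    rw [this]; exact hP n
  have hdig : ∀ n, dig b z n = dig b z' n := by
    intro n
    unfold dig
    have : z * (b : ℝ) ^ (n + 1) = z' * (b : ℝ) ^ (n + 1) + ((⌊z⌋ * b ^ (n + 1) : ℤ) : ℝ) := by
      rw [hz']; push_cast; ring
    rw [this, Int.floor_add_intCast, show (b : ℤ) ^ (n + 1) = b ^ n * b from pow_succ _ _,
      ← mul_assoc, Int.add_mul_emod_self_right]
  set E' : ℤ := max E (max |m| 1) with hE'
  have hE1 : 1 ≤ E' := (le_max_right _ _).trans (le_max_right _ _)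
  have hEe : ∀ n, e n ∈ Set.Icc (-E') E' := fun n => abs_le.1 ((he n).trans (le_max_left _ _))
  have hEm : |m| ≤ E' := (le_max_left _ _).trans (le_max_right _ _)
  obtain ⟨δ, hδ⟩ : ∃ δ : ℕ, b * E' ≤ (b : ℤ) ^ δ := by
    refine ⟨(b * E').toNat, ?_⟩
    have h1 : (b * E').toNat < b ^ (b * E').toNat := Nat.lt_pow_self (by omega)
    have h2 : ((b * E').toNat : ℤ) < (b : ℤ) ^ (b * E').toNat := by exact_mod_cast h1
    have h3 : (b * E' : ℤ) ≤ ((b * E').toNat : ℤ) := Int.self_le_toNat _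
    omega
  set M : ℤ := q * b ^ δ with hMdef
  have hM0 : 0 < M := by positivity
  have hM : b * E' ≤ M := by
    have hq' : (1 : ℤ) ≤ q := by exact_mod_cast hq
    have : (b : ℤ) ^ δ ≤ M := by
      rw [hMdef]; nlinarith [show (0 : ℤ) < (b : ℤ) ^ δ by positivity]
    omega
  -- remainder sequence
  set F : ℤ → ℤ → ℤ := fun r a => min ((b * r + a + E') / M) (b - 1) with hF
  obtain ⟨r, hr0, hrs⟩ : ∃ r : ℕ → ℤ, r 0 = m ∧ ∀ n, r (n + 1) = b * r n + e n - M * F (r n) (e n) :=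
    ⟨fun n => Nat.rec m (fun n r => b * r + e n - M * F r (e n)) n, rfl, fun _ => rfl⟩
  have hr : ∀ n, r n ∈ Set.Icc (-E') (M - E') := by
    intro n
    induction n with
    | zero =>
      rw [hr0, Set.mem_Icc]
      have := abs_le.1 hEm
      constructor
      · exact this.1
      · nlinarith [this.2]
    | succ n ih =>
      rw [hrs]
      exact (div_step hb hM hM0 (by omega) ih (hEe n) rfl).2.2
  set f : ℕ → ℤ := fun n => F (r n) (e n) with hf
  have hf12 : ∀ n, -1 ≤ f n ∧ f n ≤ b - 1 := fun n =>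
    ⟨(div_step hb hM hM0 (by omega) (hr n) (hEe n) rfl).1,
      (div_step hb hM hM0 (by omega) (hr n) (hEe n) rfl).2.1⟩
  have hacc : ∀ n, M * acc b f 0 n = acc b e m n - r n := by
    intro n
    induction n with
    | zero => simp [acc, hr0]
    | succ n ih =>
      show M * (b * acc b f 0 n + f n) = (b * acc b e m n + e n) - r (n + 1)
      rw [hrs, hf]
      have : M * (b * acc b f 0 n + F (r n) (e n)) = b * (M * acc b f 0 n) + M * F (r n) (e n) := by
        ring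
      simp only
      rw [this, ih]; ring
  have hgf : Gen f := by
    have h1 := hg.finitize hEe
    refine h1.transduce ?_
    refine trans_mealy1 (σ := Set.Icc (-E') (M - E')) (A := Set.Icc (-E') E') (B := ℤ)
      (fun r a => (if h : b * (r : ℤ) + (a : ℤ) - M * F (r : ℤ) (a : ℤ) ∈ Set.Icc (-E') (M - E') then
        ⟨b * (r : ℤ) + (a : ℤ) - M * F (r : ℤ) (a : ℤ), h⟩ else r, F (r : ℤ) (a : ℤ)))
      ⟨r 0, hr 0⟩ _ _ (fun n => ⟨r n, hr n⟩) rfl ?_ ?_
    · intro n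
      simp only
      have h2 : b * r n + e n - M * F (r n) (e n) ∈ Set.Icc (-E') (M - E') := by
        rw [← hrs]; exact hr (n + 1)
      rw [dif_pos h2]
      exact Subtype.ext (hrs n)
    · intro n; rfl
  have hmem : ∀ n, f n ∈ Set.Icc (-(b : ℤ)) b := by
    intro n
    have := hf12 n
    rw [Set.mem_Icc]; constructor <;> omega
  set v : ℝ := z' / b ^ (δ + 1) with hv
  have hv0 : 0 ≤ v := by
    have : 0 ≤ z' := by rw [hz']; linarith [Int.floor_le z]
    positivity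
  have hz1 : z' < 1 := by rw [hz']; linarith [Int.lt_floor_add_one z]
  have hv1 : v < 1 := by
    rw [hv, div_lt_one (by positivity)]
    exact hz1.trans_le (one_le_pow₀ (by exact_mod_cast (by omega : 1 ≤ b)))
  have hvq : v = (z + ((-⌊z⌋ : ℤ) : ℝ)) * (((((b : ℚ) ^ (δ + 1))⁻¹ : ℚ)) : ℝ) := by
    rw [hv, hz']; push_cast; rw [div_eq_mul_inv]; ring
  have hvalg : IsAlgebraic ℚ v := by
    rw [hvq]
    have h1 : IsAlgebraic ℚ (((-⌊z⌋ : ℤ) : ℝ)) := isAlgebraic_intCast _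
    have h2 : IsAlgebraic ℚ (((((b : ℚ) ^ (δ + 1))⁻¹ : ℚ)) : ℝ) := by
      exact isAlgebraic_algebraMap (A := ℝ) ((((b : ℚ) ^ (δ + 1))⁻¹ : ℚ))
    exact (hz.add h1).mul h2
  have hvirr : Irrational v := by
    rw [hvq]
    exact (hirr.add_intCast _).mul_ratCast (by positivity)
  have hbound : ∀ n, |v * b ^ (n + 1) - acc b f 0 n| ≤ (P + 2 * M) / M := by
    intro n
    have hMR : (0 : ℝ) < M := by exact_mod_cast hM0
    rw [le_div_iff₀ hMR, ← abs_of_pos hMR, ← abs_mul, abs_of_pos hMR]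
    have h1 : (M : ℝ) * acc b f 0 n = acc b e m n - r n := by exact_mod_cast hacc n
    have h2 : (v * b ^ (n + 1) - acc b f 0 n) * M = (q * z' * b ^ n - acc b e m n) + r n := by
      have h3 : v * b ^ (n + 1) * M = q * z' * b ^ n := by
        rw [hv, hMdef]; push_cast; field_simp; ring
      rw [sub_mul, h3, mul_comm (acc b f 0 n : ℝ), h1]; ring
    rw [h2]
    refine (abs_add_le _ _).trans (add_le_add (hP' n) ?_)
    have h4 : |r n| ≤ 2 * M := by
      have := hr n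
      rw [Set.mem_Icc] at this
      rw [abs_le]
      constructor <;> nlinarith
    exact_mod_cast h4
  have hT := trans_norm hb hvalg hvirr hv0 hv1 (fun n => (hf12 n).1) (fun n => (hf12 n).2) hbound hmem
  have h1 : Gen (dig b v) := (hgf.finitize hmem).transduce hT
  have h2 := h1.drop_nat (dig_lt hb v) (δ + 1)
  convert h2 using 1
  funext n
  rw [hdig]
  unfold dig
  have e1 : v * (b : ℝ) ^ (n + (δ + 1) + 1) = z' * (b : ℝ) ^ (n + 1) := by
    rw [hv, show n + (δ + 1) + 1 = (δ + 1) + (n + 1) by ring, pow_add (b : ℝ) (δ + 1) (n + 1),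
      ← mul_assoc, div_mul_cancel₀ _ (by positivity)]
  rw [e1]

theorem gen_dig_rat {b : ℕ} (hb : 2 ≤ b) (z : ℚ) : Gen (dig b (z : ℝ)) := by
  have hb0 : (0 : ℝ) < b := by positivity
  have hq0 : 0 < z.den := z.den_pos
  have hq' : (0 : ℤ) < z.den := by exact_mod_cast hq0
  obtain ⟨R, hR⟩ : ∃ R : ℕ → ℤ, ∀ n, R n = (z.num * b ^ n) % z.den := ⟨_, fun _ => rfl⟩
  have hR1 : ∀ n, 0 ≤ R n := fun n => by rw [hR]; exact Int.emod_nonneg _ hq'.ne'
  have hR2 : ∀ n, R n < z.den := fun n => by rw [hR]; exact Int.emod_lt_of_pos _ hq'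
  have hRs : ∀ n, R (n + 1) = (b * R n) % z.den := by
    intro n
    rw [hR, hR]
    have h1 : z.num * b ^ (n + 1) = b * (z.num * b ^ n) := by ring
    rw [h1]
    exact ((Int.mod_modEq _ _).symm.mul_left _)
  have hd : ∀ n, (dig b (z : ℝ) n : ℤ) = (b * R n) / z.den := by
    intro n
    have h1 : ⌊(z : ℝ) * (b : ℝ) ^ (n + 1)⌋ = (z.num * b ^ (n + 1)) / z.den := by
      have e1 : (z : ℝ) * (b : ℝ) ^ (n + 1) = ((z.num * b ^ (n + 1) : ℤ) : ℝ) / ((z.den : ℕ) : ℝ) := by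
        have hz : (z : ℝ) = (z.num : ℝ) / (z.den : ℝ) := by exact_mod_cast (Rat.num_div_den z).symm
        rw [hz]; push_cast; ring
      rw [e1, Int.floor_div_natCast, Int.floor_intCast]
    have h2 : (z.num * b ^ (n + 1)) / (z.den : ℤ) =
        (b * R n) / z.den + ((z.num * b ^ n) / (z.den : ℤ)) * b := by
      have h3 := Int.emod_add_mul_ediv (z.num * b ^ n) (z.den : ℤ)
      rw [← hR] at h3
      have h4 : z.num * b ^ (n + 1) = b * R n + ((z.num * b ^ n) / (z.den : ℤ) * b) * z.den := by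
        rw [pow_succ]
        calc z.num * (b ^ n * b) = (z.num * b ^ n) * b := by ring
          _ = (R n + z.den * (z.num * b ^ n / z.den)) * b := by rw [h3]
          _ = _ := by ring
      rw [h4, Int.add_mul_ediv_right _ _ hq'.ne']
    have h5 : 0 ≤ (b * R n) / (z.den : ℤ) := Int.ediv_nonneg (mul_nonneg (by positivity) (hR1 n)) hq'.le
    have h6 : (b * R n) / (z.den : ℤ) < b := by
      rw [Int.ediv_lt_iff_lt_mul hq']
      have hbz : (0 : ℤ) < b := by positivity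
      exact mul_lt_mul_of_pos_left (hR2 n) hbz
    unfold dig
    rw [h1, h2, Int.add_mul_emod_self_right, Int.emod_eq_of_lt h5 h6]
    exact Int.toNat_of_nonneg h5
  have hg : Gen (fun n => (dig b (z : ℝ) n : ℤ)) := by
    refine (gen_const ()).transduce ?_
    have hmem : ∀ n, R n ∈ Set.Ico (0 : ℤ) z.den := fun n => ⟨hR1 n, hR2 n⟩
    refine trans_mealy1 (σ := Set.Ico (0 : ℤ) z.den) (A := Unit) (B := ℤ)
      (fun r _ => (⟨(b * (r : ℤ)) % z.den, Int.emod_nonneg _ hq'.ne', Int.emod_lt_of_pos _ hq'⟩,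
        (b * (r : ℤ)) / z.den)) ⟨R 0, hmem 0⟩ _ _ (fun n => ⟨R n, hmem n⟩) rfl ?_ ?_
    · intro n
      exact Subtype.ext (hRs n)
    · intro n; exact hd n
  have := hg.map Int.toNat
  have e1 : dig b (z : ℝ) = Int.toNat ∘ (fun n => (dig b (z : ℝ) n : ℤ)) := by
    funext n; simp
  rw [e1]; exact this

/-- the `ℚ`-span theorem, for local machines -/
theorem sd_of_span {b : ℕ} (hb : 2 ≤ b) {z : ℝ}
    (hz : z ∈ Submodule.span ℚ {x : ℝ | Gen (dig b x)}) : SD b z := by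
  induction hz using Submodule.span_induction with
  | mem x h => exact SD.of_gen hb h
  | zero => exact SD.zero b
  | add x y _ _ hx hy => exact hx.lin hy
  | smul r x _ hx =>
    rw [Rat.smul_def]
    exact hx.smul r

theorem gen_of_sd {b : ℕ} (hb : 2 ≤ b) {z : ℝ} (h : SD b z) (hz : IsAlgebraic ℚ z) :
    Gen (dig b z) := by
  by_cases hirr : Irrational z
  · exact h.gen_dig hb hz hirr
  · unfold Irrational at hirr
    push Not at hirr
    obtain ⟨r, rfl⟩ := hirr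
    exact gen_dig_rat hb r

end Pool.Agent.H77.RT
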