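import Pool.Agent.H77.RT.Span

namespace Pool.Agent.H77.RT

open Turing

section loc

variable {K : Type} [DecidableEq K] {Γ : K → Type} {Λ σ : Type}

/-- number of pops and peeks of a statement -/
def dep : TM2.Stmt Γ Λ σ → ℕ
  | TM2.Stmt.push _ _ q => dep q
  | TM2.Stmt.peek _ _ q => dep q + 1
  | TM2.Stmt.pop _ _ q => dep q + 1
  | TM2.Stmt.load _ q => dep q
  | TM2.Stmt.branch _ q₁ q₂ => max (dep q₁) (dep q₂)
  | TM2.Stmt.goto _ => 0
  | TM2.Stmt.halt => 0

/-- number of pushes of a statement -/
def pus : TM2.Stmt Γ Λ σ → ℕ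
  | TM2.Stmt.push _ _ q => pus q + 1
  | TM2.Stmt.peek _ _ q => pus q
  | TM2.Stmt.pop _ _ q => pus q
  | TM2.Stmt.load _ q => pus q
  | TM2.Stmt.branch _ q₁ q₂ => max (pus q₁) (pus q₂)
  | TM2.Stmt.goto _ => 0
  | TM2.Stmt.halt => 0

theorem stepAux_local (q : TM2.Stmt Γ Λ σ) : ∀ (v : σ) (T R : ∀ k, List (Γ k)),
    (∀ k, dep q ≤ (T k).length ∨ R k = []) →
    TM2.stepAux q v (fun k => T k ++ R k) =
      ⟨(TM2.stepAux q v T).l, (TM2.stepAux q v T).var,
        fun k => (TM2.stepAux q v T).stk k ++ R k⟩ := by
  induction q with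
  | push k f q ih =>
    intro v T R h
    rw [TM2.stepAux, TM2.stepAux]
    have e1 : Function.update (fun k => T k ++ R k) k (f v :: (T k ++ R k)) =
        fun k' => (Function.update T k (f v :: T k)) k' ++ R k' := by
      funext k'
      by_cases hk : k' = k
      · subst hk; simp
      · simp [Function.update_of_ne hk]
    rw [e1]
    apply ih
    intro k'
    by_cases hk : k' = k
    · subst hk
      rcases h k' with h | h
      · left; simp only [Function.update_self, List.length_cons]; exact h.trans (Nat.le_succ _)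
      · right; exact h
    · rw [Function.update_of_ne hk]; exact h k'
  | peek k f q ih =>
    intro v T R h
    rw [TM2.stepAux, TM2.stepAux]
    have e1 : (T k ++ R k).head? = (T k).head? := by
      rcases hT : T k with _ | ⟨a, l⟩
      · rcases h k with h | h
        · simp only [dep, hT, List.length_nil] at h; omega
        · rw [h]; rfl
      · rfl
    rw [e1]
    apply ih
    intro k'
    rcases h k' with h | h
    · left; simp only [dep] at h; omega
    · right; exact h
  | pop k f q ih =>
    intro v T R h
    rw [TM2.stepAux, TM2.stepAux]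
    have e0 : (T k ++ R k).head? = (T k).head? ∧ (T k ++ R k).tail = (T k).tail ++ R k := by
      rcases hT : T k with _ | ⟨a, l⟩
      · rcases h k with h | h
        · simp only [dep, hT, List.length_nil] at h; omega
        · rw [h]; exact ⟨rfl, rfl⟩
      · exact ⟨rfl, rfl⟩
    rw [e0.1]
    have e1 : Function.update (fun k => T k ++ R k) k (T k ++ R k).tail =
        fun k' => (Function.update T k (T k).tail) k' ++ R k' := by
      funext k'
      by_cases hk : k' = k
      · subst hk; simp [e0.2]
      · simp [Function.update_of_ne hk]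
    rw [e1]
    apply ih
    intro k'
    by_cases hk : k' = k
    · subst hk
      rcases h k' with h | h
      · left
        simp only [dep] at h
        simp only [Function.update_self, List.length_tail]; omega
      · right; exact h
    · rw [Function.update_of_ne hk]
      rcases h k' with h | h
      · left; simp only [dep] at h; omega
      · right; exact h
  | load a q ih =>
    intro v T R h
    rw [TM2.stepAux, TM2.stepAux]
    exact ih _ _ _ h
  | branch f q₁ q₂ ih₁ ih₂ =>
    intro v T R h
    rw [TM2.stepAux, TM2.stepAux]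
    cases f v
    · simp only [cond_false]
      apply ih₂
      intro k
      rcases h k with h | h
      · left; exact (le_max_right _ _).trans h
      · right; exact h
    · simp only [cond_true]
      apply ih₁
      intro k
      rcases h k with h | h
      · left; exact (le_max_left _ _).trans h
      · right; exact h
  | goto f => intro v T R h; rfl
  | halt => intro v T R h; rfl

theorem stepAux_length (q : TM2.Stmt Γ Λ σ) : ∀ (v : σ) (S : ∀ k, List (Γ k)) (k : K),
    ((TM2.stepAux q v S).stk k).length ≤ (S k).length + pus q := by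
  induction q with
  | push k f q ih =>
    intro v S k'
    rw [TM2.stepAux]
    refine (ih _ _ _).trans ?_
    by_cases hk : k' = k
    · subst hk; simp only [Function.update_self, List.length_cons, pus]; omega
    · rw [Function.update_of_ne hk]; simp only [pus]; omega
  | peek k f q ih =>
    intro v S k'
    rw [TM2.stepAux]
    exact ih _ _ _
  | pop k f q ih =>
    intro v S k'
    rw [TM2.stepAux]
    refine (ih _ _ _).trans ?_
    by_cases hk : k' = k
    · subst hk; simp only [Function.update_self, List.length_tail, pus]; omega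
    · rw [Function.update_of_ne hk]; simp only [pus]; omega
  | load a q ih =>
    intro v S k'
    rw [TM2.stepAux]
    exact ih _ _ _
  | branch f q₁ q₂ ih₁ ih₂ =>
    intro v S k'
    rw [TM2.stepAux]
    cases f v
    · simp only [cond_false, pus]
      exact (ih₂ _ _ _).trans (by omega)
    · simp only [cond_true, pus]
      exact (ih₁ _ _ _).trans (by omega)
  | goto f => intro v S k; simp [TM2.stepAux, pus]
  | halt => intro v S k; simp [TM2.stepAux, pus]

variable (M : Λ → TM2.Stmt Γ Λ σ) (l₀ : Λ) (v₀ : σ)

/-- configuration after `t` steps -/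
def conf (t : ℕ) : Option (TM2.Cfg Γ Λ σ) :=
  (fun o : Option (Turing.TM2.Cfg Γ Λ σ) => o.bind (Turing.TM2.step (M := M)))^[t]
    (some ⟨some l₀, v₀, fun _ => []⟩)

theorem conf_zero : conf M l₀ v₀ 0 = some ⟨some l₀, v₀, fun _ => []⟩ := rfl

theorem conf_succ (t : ℕ) : conf M l₀ v₀ (t + 1) = (conf M l₀ v₀ t).bind (TM2.step M) := by
  unfold conf; rw [Function.iterate_succ_apply']

theorem conf_some_of_le {t t' : ℕ} (h : t ≤ t') {C : TM2.Cfg Γ Λ σ}
    (hC : conf M l₀ v₀ t' = some C) : ∃ C', conf M l₀ v₀ t = some C' := by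
  induction h generalizing C with
  | refl => exact ⟨C, hC⟩
  | @step m _ ih =>
    rw [Nat.succ_eq_add_one, conf_succ] at hC
    rcases h1 : conf M l₀ v₀ m with _ | C1
    · rw [h1] at hC; simp at hC
    · exact ih h1

/-- a successor configuration in terms of the tops -/
theorem conf_next {D t : ℕ} (hD : ∀ l, dep (M l) ≤ D) {C C' : TM2.Cfg Γ Λ σ}
    (hC : conf M l₀ v₀ t = some C) (hC' : conf M l₀ v₀ (t + 1) = some C') :
    ∃ l, C.l = some l ∧ C' = ⟨(TM2.stepAux (M l) C.var (tops D C.stk)).l,
      (TM2.stepAux (M l) C.var (tops D C.stk)).var,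
      fun k => repl D ((TM2.stepAux (M l) C.var (tops D C.stk)).stk k) (C.stk k)⟩ := by
  rw [conf_succ, hC, Option.bind_some] at hC'
  obtain ⟨l, v, S⟩ := C
  cases l with
  | none => simp at hC'
  | some l =>
    refine ⟨l, rfl, ?_⟩
    rw [TM2.step] at hC'
    have h1 := Option.some.inj hC'
    rw [← h1]
    have h2 := stepAux_local (M l) v (tops D S) (fun k => (S k).drop D) (by
      intro k
      simp only [tops, List.length_take]
      by_cases h : D ≤ (S k).length
      · left; rw [min_eq_left h]; exact hD l
      · right; exact List.drop_eq_nil_of_le (by omega))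
    have h3 : (fun k => tops D S k ++ (S k).drop D) = S := by
      funext k; exact List.take_append_drop _ _
    rw [h3] at h2
    exact h2

end loc

/-- `a` is generated in real time in the sense of the frozen statement -/
def RealTimeGenerated {α : Type} (a : ℕ → α) : Prop :=
  ∃ (K : Type) (_ : Fintype K) (_ : DecidableEq K) (Γ : K → Type)
    (_ : ∀ k, Fintype (Γ k)) (Λ : Type) (_ : Fintype Λ) (σ : Type) (_ : Fintype σ)
    (M : Λ → Turing.TM2.Stmt Γ Λ σ) (l₀ : Λ) (v₀ : σ) (out : K)
    (enc : Γ out → α) (c : ℕ),
    (∀ t t' : ℕ, t ≤ t' → ∀ C C' : Turing.TM2.Cfg Γ Λ σ,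
      (fun o : Option (Turing.TM2.Cfg Γ Λ σ) => o.bind (Turing.TM2.step (M := M)))^[t]
          (some ⟨some l₀, v₀, fun _ => []⟩) = some C →
      (fun o : Option (Turing.TM2.Cfg Γ Λ σ) => o.bind (Turing.TM2.step (M := M)))^[t']
          (some ⟨some l₀, v₀, fun _ => []⟩) = some C' →
      C.stk out <:+ C'.stk out) ∧
    ∀ n : ℕ, ∃ C : Turing.TM2.Cfg Γ Λ σ,
      (fun o : Option (Turing.TM2.Cfg Γ Λ σ) => o.bind (Turing.TM2.step (M := M)))^[c * (n + 1)]
          (some ⟨some l₀, v₀, fun _ => []⟩) = some C ∧
      ∀ i < n, Option.map enc ((C.stk out).reverse[i]?) = some (a i)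

/-- from stack machines to local machines -/
theorem RealTimeGenerated.gen {α : Type} {a : ℕ → α} (h : RealTimeGenerated a) : Gen a := by
  obtain ⟨K, _, _, Γ, _, Λ, _, σ, _, M, l₀, v₀, out, enc, c, hmono, hdig⟩ := h
  change ∀ t t' : ℕ, t ≤ t' → ∀ C C' : TM2.Cfg Γ Λ σ, conf M l₀ v₀ t = some C →
    conf M l₀ v₀ t' = some C' → C.stk out <:+ C'.stk out at hmono
  change ∀ n : ℕ, ∃ C : TM2.Cfg Γ Λ σ, conf M l₀ v₀ (c * (n + 1)) = some C ∧
    ∀ i < n, Option.map enc ((C.stk out).reverse[i]?) = some (a i) at hdig
  have hc : 1 ≤ c := by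
    by_contra hcon
    have hc0 : c = 0 := by omega
    obtain ⟨C, hC, hi⟩ := hdig 1
    rw [hc0, zero_mul, conf_zero] at hC
    have h1 := hi 0 one_pos
    rw [← Option.some.inj hC] at h1
    simp at h1
  have hlen : ∀ n C, conf M l₀ v₀ (c * (n + 1)) = some C → n ≤ (C.stk out).length := by
    intro n C hC
    obtain ⟨C', hC', hi⟩ := hdig n
    rw [hC] at hC'
    obtain rfl := Option.some.inj hC'
    by_contra hcon
    push Not at hcon
    have := hi _ hcon
    rw [List.getElem?_eq_none (by simp)] at this
    simp at this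
  have hsome : ∀ t, ∃ C, conf M l₀ v₀ t = some C := by
    intro t
    obtain ⟨C, hC, _⟩ := hdig t
    refine conf_some_of_le M l₀ v₀ ?_ hC
    nlinarith
  have hinit : ∀ t C, conf M l₀ v₀ t = some C → IsInit (((C.stk out).map enc).reverse) a := by
    intro t C hC i hi
    rw [List.length_reverse, List.length_map] at hi
    set n := t + i + 1 with hn
    obtain ⟨C', hC', hd⟩ := hdig n
    obtain ⟨u, hu⟩ := hmono t (c * (n + 1)) (by nlinarith) C C' hC hC'
    have h1 := hd i (by omega)
    rw [← hu, List.reverse_append, List.getElem?_append_left (by simpa using hi)] at h1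
    rw [List.getElem?_eq_getElem (by simpa using hi)] at h1
    simp only [Option.map_some, Option.some.injEq] at h1
    rw [← h1, List.getElem_reverse, List.getElem_reverse, List.getElem_map]
    simp
  set D := Finset.univ.sup (fun l => dep (M l)) with hD
  have hDl : ∀ l, dep (M l) ≤ D := fun l => Finset.le_sup (f := fun l => dep (M l)) (Finset.mem_univ l)
  set P := Finset.univ.sup (fun l => pus (M l)) with hP
  have hPl : ∀ l, pus (M l) ≤ P := fun l => Finset.le_sup (f := fun l => pus (M l)) (Finset.mem_univ l)
  obtain ⟨δ, hδ⟩ : ∃ δ : Λ × σ → (∀ k, List (Γ k)) → (Λ × σ) × (∀ k, List (Γ k)) × List α,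
      ∀ q t, δ q t = ((((TM2.stepAux (M q.1) q.2 t).l).getD q.1, (TM2.stepAux (M q.1) q.2 t).var),
        (TM2.stepAux (M q.1) q.2 t).stk,
        ((((TM2.stepAux (M q.1) q.2 t).stk out).take
          (((TM2.stepAux (M q.1) q.2 t).stk out).length - (t out).length)).map enc).reverse) :=
    ⟨_, fun _ _ => rfl⟩
  have key : ∀ t C, conf M l₀ v₀ t = some C → (C.l = some (run D δ (l₀, v₀) t).q.1) ∧
      C.var = (run D δ (l₀, v₀) t).q.2 ∧ (run D δ (l₀, v₀) t).S = C.stk ∧
      (run D δ (l₀, v₀) t).out = ((C.stk out).map enc).reverse := by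
    intro t
    induction t with
    | zero =>
      intro C hC
      rw [conf_zero] at hC
      rw [← Option.some.inj hC]
      exact ⟨rfl, rfl, rfl, rfl⟩
    | succ t ih =>
      intro C' hC'
      obtain ⟨C, hC⟩ := hsome t
      obtain ⟨h1, h2, h3, h4⟩ := ih C hC
      obtain ⟨l, hl, hCC⟩ := conf_next M l₀ v₀ hDl hC hC'
      obtain ⟨C'', hC''⟩ := hsome (t + 1 + 1)
      obtain ⟨l', hl', _⟩ := conf_next M l₀ v₀ hDl hC' hC''
      have hsuf := hmono t (t + 1) (Nat.le_succ t) C C' hC hC'
      rw [run_succ]
      generalize run D δ (l₀, v₀) t = R at h1 h2 h3 h4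
      obtain ⟨⟨ql, qv⟩, S, o⟩ := R
      simp only at h1 h2 h3 h4
      subst h3
      rw [h1] at hl
      obtain rfl := Option.some.inj hl
      simp only [step, hδ]
      rw [← h2]
      rw [hCC] at hl'
      simp only at hl'
      refine ⟨?_, ?_, ?_, ?_⟩
      · rw [hCC]; simp only; rw [hl']; rfl
      · rw [hCC]
      · rw [hCC]
      · obtain ⟨u, hu⟩ := hsuf
        rw [hCC] at hu
        simp only [repl] at hu
        have h5 : (TM2.stepAux (M ql) C.var (tops D C.stk)).stk out = u ++ tops D C.stk out := by
          have h6 : u ++ C.stk out = (u ++ tops D C.stk out) ++ (C.stk out).drop D := by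
            rw [List.append_assoc]
            congr 1
            exact (List.take_append_drop _ _).symm
          rw [h6] at hu
          exact (List.append_cancel_right hu).symm
        rw [h5, List.length_append, Nat.add_sub_cancel, List.take_left, h4, hCC]
        simp only [repl]
        rw [h5, List.append_assoc]
        have h7 : tops D C.stk out ++ (C.stk out).drop D = C.stk out := List.take_append_drop _ _
        rw [h7, List.map_append, List.reverse_append]
  refine ⟨K, Γ, Λ × σ, D, D + P, δ, (l₀, v₀), c, inferInstance, fun k => inferInstance, inferInstance,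
    ?_, ?_, ?_, ?_⟩
  · intro q t ht
    rw [hδ]
    simp only [List.length_reverse, List.length_map, List.length_take]
    have h1 := stepAux_length (M q.1) q.2 t out
    have h2 := ht out
    have h3 := hPl q.1
    omega
  · intro q t ht k
    rw [hδ]
    simp only
    have h1 := stepAux_length (M q.1) q.2 t k
    have h2 := ht k
    have h3 := hPl q.1
    omega
  · intro t
    obtain ⟨C, hC⟩ := hsome t
    rw [(key t C hC).2.2.2]
    exact hinit t C hC
  · intro n
    obtain ⟨C, hC⟩ := hsome (c * (n + 1))
    rw [(key _ C hC).2.2.2, List.length_reverse, List.length_map]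
    exact hlen n C hC

end Pool.Agent.H77.RT
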