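import Pool.Agent.H77.RT.TM

namespace Pool.Agent.H77.RT

open Turing

section toTM

variable {K : Type} [DecidableEq K] {Γ : K → Type} {Q A : Type}

/-- alphabets of the simulating machine -/
abbrev OΓ (Γ : K → Type) (A : Type) : Option K → Type
  | none => A
  | some k => Option (Γ k)

/-- embedding of the stacks -/
def emb (S : ∀ k, List (Γ k)) (o : List A) : ∀ k, List (OΓ Γ A k)
  | none => o
  | some k => (S k).map some

/-- internal states of the simulating machine -/
abbrev St (Γ : K → Type) (Q : Type) (D : ℕ) : Type := Q × (∀ k, {l : List (Γ k) // l.length ≤ D})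

theorem update_emb_some (S : ∀ k, List (Γ k)) (o : List A) (k : K) (l : List (Γ k)) :
    Function.update (emb S o) (some k) (l.map some : List (OΓ Γ A (some k))) =
      emb (Function.update S k l) o := by
  funext k'
  rcases k' with _ | k'
  · rw [Function.update_of_ne (by simp)]; rfl
  · by_cases h : k' = k
    · subst h
      rw [Function.update_self]
      show _ = ((Function.update S k' l) k').map some
      rw [Function.update_self]
    · rw [Function.update_of_ne (by simpa using h)]
      show (S k').map some = ((Function.update S k l) k').map some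
      rw [Function.update_of_ne h]

theorem update_emb_none (S : ∀ k, List (Γ k)) (o o' : List A) :
    Function.update (emb S o) none (o' : List (OΓ Γ A none)) = emb S o' := by
  funext k'
  rcases k' with _ | k'
  · rw [Function.update_self]; rfl
  · rw [Function.update_of_ne (by simp)]; rfl

variable {D : ℕ}

/-- add a symbol to the read buffer -/
def addc (k : K) (t : ∀ k, {l : List (Γ k) // l.length ≤ D}) (o : Option (Option (Γ k))) :
    ∀ k, {l : List (Γ k) // l.length ≤ D} :=
  Function.update t k (clip D ((t k).1 ++ o.join.toList))

/-- pop `n` symbols of stack `k` into the read buffer -/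
def popN (A : Type) (k : K) : ℕ → TM2.Stmt (OΓ Γ A) Unit (St Γ Q D) → TM2.Stmt (OΓ Γ A) Unit (St Γ Q D)
  | 0, q => q
  | n + 1, q => TM2.Stmt.pop (some k) (fun v o => (v.1, addc k v.2 o)) (popN A k n q)

theorem popN_spec (k : K) (n : ℕ) (q : TM2.Stmt (OΓ Γ A) Unit (St Γ Q D)) :
    ∀ (x : Q) (t : ∀ k, {l : List (Γ k) // l.length ≤ D}) (S : ∀ k, List (Γ k)) (o : List A),
    (t k).1.length + n ≤ D →
    TM2.stepAux (popN A k n q) (x, t) (emb S o) =
      TM2.stepAux q (x, Function.update t k (clip D ((t k).1 ++ (S k).take n)))
        (emb (Function.update S k ((S k).drop n)) o) := by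
  induction n with
  | zero =>
    intro x t S o _
    have h1 : Function.update t k (clip D ((t k).1 ++ (S k).take 0)) = t := by
      rw [List.take_zero, List.append_nil]
      have : clip D (t k).1 = t k := Subtype.ext (clip_val (t k).2)
      rw [this, Function.update_eq_self]
    rw [h1, List.drop_zero, Function.update_eq_self]
    rfl
  | succ n ih =>
    intro x t S o hn
    rw [popN, TM2.stepAux]
    have h0 : (emb S o (some k)).tail = ((S k).tail).map some := by
      show ((S k).map some).tail = _
      rw [List.map_tail]
    have h0' : (emb S o (some k)).head? = ((S k).head?).map some := by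
      show ((S k).map some).head? = _
      rw [List.head?_map]
    have h1 : Function.update (emb S o) (some k) (emb S o (some k)).tail =
        emb (Function.update S k (S k).tail) o := by
      rw [← update_emb_some]
      congr 1
    rw [h1]
    have h2 : (addc k t ((emb S o (some k)).head?) : ∀ k, {l : List (Γ k) // l.length ≤ D}) =
        Function.update t k (clip D ((t k).1 ++ (S k).take 1)) := by
      unfold addc
      rw [h0']
      congr 3
      rcases S k with _ | ⟨a, l⟩ <;> rfl
    simp only
    rw [h2]
    have hlen : ((t k).1 ++ (S k).take 1).length ≤ (t k).1.length + 1 := by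
      rw [List.length_append, List.length_take]; omega
    rw [ih]
    · congr 1
      · congr 1
        rw [Function.update_self, Function.update_self, Function.update_idem,
          clip_val (by omega : ((t k).1 ++ (S k).take 1).length ≤ D)]
        congr 2
        rw [List.append_assoc]
        congr 1
        rcases S k with _ | ⟨a, l⟩
        · simp
        · simp
      · congr 1
        rw [Function.update_self, Function.update_idem]
        congr 1
        rcases S k with _ | ⟨a, l⟩
        · simp
        · simp
    · rw [Function.update_self, clip_val (by omega : ((t k).1 ++ (S k).take 1).length ≤ D)]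
      omega

def popAll (A : Type) : List K → TM2.Stmt (OΓ Γ A) Unit (St Γ Q D) → TM2.Stmt (OΓ Γ A) Unit (St Γ Q D)
  | [], q => q
  | k :: ks, q => popN A k D (popAll A ks q)

theorem popAll_spec (ks : List K) (q : TM2.Stmt (OΓ Γ A) Unit (St Γ Q D)) :
    ∀ (x : Q) (t : ∀ k, {l : List (Γ k) // l.length ≤ D}) (S : ∀ k, List (Γ k)) (o : List A),
    ks.Nodup → (∀ k ∈ ks, (t k).1 = []) →
    TM2.stepAux (popAll A ks q) (x, t) (emb S o) =
      TM2.stepAux q (x, fun k => if k ∈ ks then clip D ((S k).take D) else t k)
        (emb (fun k => if k ∈ ks then (S k).drop D else S k) o) := by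
  induction ks with
  | nil => intro x t S o _ _; simp [popAll]
  | cons k ks ih =>
    intro x t S o hnd ht
    rw [List.nodup_cons] at hnd
    rw [popAll, popN_spec _ _ _ _ _ _ _ (by rw [ht k (by simp)]; simp), ih _ _ _ _ hnd.2]
    · congr 1
      · congr 1
        funext k'
        by_cases h : k' = k
        · subst h
          simp only [List.mem_cons, true_or, if_true, hnd.1, if_false, Function.update_self]
          rw [ht k' (by simp)]; rfl
        · simp only [List.mem_cons, h, false_or, Function.update_of_ne h]
      · congr 1
        funext k'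
        by_cases h : k' = k
        · subst h
          simp only [List.mem_cons, true_or, if_true, hnd.1, if_false, Function.update_self]
        · simp only [List.mem_cons, h, false_or, Function.update_of_ne h]
    · intro k' hk'
      have : k' ≠ k := fun h => hnd.1 (h ▸ hk')
      rw [Function.update_of_ne this]
      exact ht k' (by simp [hk'])

variable (w : St Γ Q D → ∀ k, List (Γ k)) (e : St Γ Q D → List A) (a0 : A)

def pushN (A : Type) (k : K) : ℕ → TM2.Stmt (OΓ Γ A) Unit (St Γ Q D) → TM2.Stmt (OΓ Γ A) Unit (St Γ Q D)
  | 0, q => q
  | n + 1, q => TM2.Stmt.branch (fun v => decide (n < (w v k).length))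
      (TM2.Stmt.push (some k) (fun v => ((w v k)[n]? : Option (Γ k))) (pushN A k n q)) (pushN A k n q)

theorem pushN_spec (k : K) (n : ℕ) (q : TM2.Stmt (OΓ Γ A) Unit (St Γ Q D)) :
    ∀ (v : St Γ Q D) (S : ∀ k, List (Γ k)) (o : List A),
    TM2.stepAux (pushN w A k n q) v (emb S o) =
      TM2.stepAux q v (emb (Function.update S k ((w v k).take n ++ S k)) o) := by
  induction n with
  | zero => intro v S o; rw [pushN, List.take_zero, List.nil_append, Function.update_eq_self]
  | succ n ih =>
    intro v S o
    rw [pushN, TM2.stepAux]
    by_cases h : n < (w v k).length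
    · simp only [h, decide_true, cond_true]
      rw [TM2.stepAux]
      have h1 : Function.update (emb S o) (some k) (((w v k)[n]? : Option (Γ k)) :: emb S o (some k)) =
          emb (Function.update S k ((w v k)[n] :: S k)) o := by
        rw [← update_emb_some]
        congr 1
        rw [List.getElem?_eq_getElem h, List.map_cons]; rfl
      rw [h1, ih, Function.update_self, Function.update_idem]
      congr 3
      rw [List.take_add_one, List.getElem?_eq_getElem h, Option.toList_some, List.append_assoc]
      rfl
    · simp only [h, decide_false, cond_false]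
      rw [ih]
      congr 3
      rw [List.take_of_length_le (by omega), List.take_of_length_le (by omega)]

def pushAll (A : Type) (L : ℕ) : List K → TM2.Stmt (OΓ Γ A) Unit (St Γ Q D) →
    TM2.Stmt (OΓ Γ A) Unit (St Γ Q D)
  | [], q => q
  | k :: ks, q => pushN w A k L (pushAll A L ks q)

theorem pushAll_spec (L : ℕ) (ks : List K) (q : TM2.Stmt (OΓ Γ A) Unit (St Γ Q D)) (v : St Γ Q D)
    (hw : ∀ k, (w v k).length ≤ L) :
    ∀ (S : ∀ k, List (Γ k)) (o : List A), ks.Nodup →
    TM2.stepAux (pushAll w A L ks q) v (emb S o) =
      TM2.stepAux q v (emb (fun k => if k ∈ ks then w v k ++ S k else S k) o) := by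
  induction ks with
  | nil => intro S o _; simp [pushAll]
  | cons k ks ih =>
    intro S o hnd
    rw [List.nodup_cons] at hnd
    rw [pushAll, pushN_spec, ih _ _ hnd.2, List.take_of_length_le (hw k)]
    congr 1
    congr 1
    funext k'
    by_cases h : k' = k
    · subst h
      simp only [List.mem_cons, true_or, if_true, hnd.1, if_false, Function.update_self]
    · simp only [List.mem_cons, h, false_or, Function.update_of_ne h]

def pushO : ℕ → ℕ → TM2.Stmt (OΓ Γ A) Unit (St Γ Q D) → TM2.Stmt (OΓ Γ A) Unit (St Γ Q D)
  | _, 0, q => q
  | i, n + 1, q => TM2.Stmt.branch (fun v => decide (i < (e v).length))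
      (TM2.Stmt.push none (fun v => (((e v)[i]?).getD a0 : A)) (pushO (i + 1) n q))
      (pushO (i + 1) n q)

theorem pushO_spec (n : ℕ) (q : TM2.Stmt (OΓ Γ A) Unit (St Γ Q D)) :
    ∀ (i : ℕ) (v : St Γ Q D) (S : ∀ k, List (Γ k)) (o : List A),
    TM2.stepAux (pushO e a0 i n q) v (emb S o) =
      TM2.stepAux q v (emb S ((((e v).drop i).take n).reverse ++ o)) := by
  induction n with
  | zero => intro i v S o; rw [pushO, List.take_zero, List.reverse_nil, List.nil_append]
  | succ n ih =>
    intro i v S o
    rw [pushO, TM2.stepAux]
    by_cases h : i < (e v).length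
    · simp only [h, decide_true, cond_true]
      rw [TM2.stepAux]
      have h1 : Function.update (emb S o) none ((((e v)[i]?).getD a0 : A) :: emb S o none) =
          emb S ((e v)[i] :: o) := by
        rw [List.getElem?_eq_getElem h]
        exact update_emb_none S o ((e v)[i] :: o)
      rw [h1, ih, List.drop_eq_getElem_cons h, List.take_succ_cons, List.reverse_cons,
        List.append_assoc]
      rfl
    · simp only [h, decide_false, cond_false]
      rw [ih]
      congr 3
      rw [List.drop_eq_nil_of_le (by omega), List.drop_eq_nil_of_le (by omega)]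
      simp

variable (δ : Q → (∀ k, List (Γ k)) → Q × (∀ k, List (Γ k)) × List A)

/-- the unique statement of the simulating machine -/
def theStmt (L : ℕ) (ks : List K) : TM2.Stmt (OΓ Γ A) Unit (St Γ Q D) :=
  popAll A ks (pushAll (fun v k => (δ v.1 (fun k => (v.2 k).1)).2.1 k) A L ks
    (pushO (fun v => (δ v.1 (fun k => (v.2 k).1)).2.2) a0 0 L
      (TM2.Stmt.load (fun v => ((δ v.1 (fun k => (v.2 k).1)).1, fun _ => clip D []))
        (TM2.Stmt.goto (fun _ => ())))))

theorem theStmt_spec {L : ℕ} {ks : List K} (hks : ks.Nodup) (hall : ∀ k, k ∈ ks)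
    (hbo : ∀ q t, (∀ k, (t k).length ≤ D) → ((δ q t).2.2).length ≤ L)
    (hbp : ∀ q t, (∀ k, (t k).length ≤ D) → ∀ k, ((δ q t).2.1 k).length ≤ L)
    (x : Q) (S : ∀ k, List (Γ k)) (o : List A) :
    TM2.stepAux (theStmt a0 δ L ks) ((x, fun _ => clip D []) : St Γ Q D) (emb S o) =
      ⟨some (), ((δ x (tops D S)).1, fun _ => clip D []),
        emb (fun k => repl D ((δ x (tops D S)).2.1 k) (S k))
          ((δ x (tops D S)).2.2.reverse ++ o)⟩ := by
  have hclip : ∀ k, (clip D ((S k).take D)).1 = tops D S k := fun k =>
    clip_val (by rw [List.length_take]; omega)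
  unfold theStmt
  rw [popAll_spec _ _ _ _ _ _ hks (by intro k _; simp [clip])]
  simp only [hall, if_true]
  rw [pushAll_spec _ _ _ _ _ ?_ _ _ hks, pushO_spec]
  · simp only [hall, if_true, hclip]
    rw [TM2.stepAux, TM2.stepAux]
    simp only [hclip]
    congr 1
    congr 1
    congr 1
    rw [List.drop_zero, List.take_of_length_le]
    exact hbo _ _ (tops_length _ _)
  · intro k
    simp only [hclip]
    exact hbp _ _ (tops_length _ _) k

end toTM

theorem Gen.realTime {A α : Type} [Finite A] {d : ℕ → A} (h : Gen d) (enc : A → α) :
    RealTimeGenerated (fun n => enc (d n)) := by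
  classical
  obtain ⟨K, Γ, Q, D, L, δ, q0, c, hK, hΓ, hQ, hbo, hbp, hinit, hc⟩ := h
  have _ : Fintype K := Fintype.ofFinite K
  have _ : ∀ k, Fintype (Γ k) := fun k => Fintype.ofFinite _
  have _ : Fintype A := Fintype.ofFinite A
  have _ : Fintype Q := Fintype.ofFinite Q
  have hfin : ∀ k, Finite {l : List (Γ k) // l.length ≤ D} := fun k =>
    (List.finite_length_le (Γ k) D).to_subtype
  have _ : Fintype (St Γ Q D) := Fintype.ofFinite _
  set ks : List K := Finset.univ.toList with hks
  have hnd : ks.Nodup := Finset.nodup_toList _
  have hall : ∀ k, k ∈ ks := fun k => by simp [hks]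
  set M : Unit → TM2.Stmt (OΓ Γ A) Unit (St Γ Q D) := fun _ => theStmt (d 0) δ L ks with hM
  have key : ∀ t, conf M () (q0, fun _ => clip D []) t =
      some ⟨some (), ((run D δ q0 t).q, fun _ => clip D []),
        emb (run D δ q0 t).S (run D δ q0 t).out.reverse⟩ := by
    intro t
    induction t with
    | zero =>
      rw [conf_zero, run_zero]
      congr 2
      funext k
      rcases k with _ | k <;> rfl
    | succ t ih =>
      rw [conf_succ, ih, Option.bind_some, TM2.step, run_succ]
      rw [hM]
      simp only
      rw [theStmt_spec (d 0) δ hnd hall hbo hbp]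
      simp only [step, List.reverse_append]
  refine ⟨Option K, inferInstance, inferInstance, OΓ Γ A, ?_, Unit, inferInstance, St Γ Q D,
    inferInstance, M, (), (q0, fun _ => clip D []), none, enc, c, ?_, ?_⟩
  · intro k
    rcases k with _ | k
    · show Fintype A; infer_instance
    · show Fintype (Option (Γ k)); infer_instance
  · intro t t' htt C C' hC hC'
    change conf M () (q0, fun _ => clip D []) t = some C at hC
    change conf M () (q0, fun _ => clip D []) t' = some C' at hC'
    rw [key] at hC hC'
    rw [← Option.some.inj hC, ← Option.some.inj hC']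
    show (run D δ q0 t).out.reverse <:+ (run D δ q0 t').out.reverse
    rw [List.reverse_suffix]
    exact out_prefix D δ q0 htt
  · intro n
    refine ⟨_, key _, ?_⟩
    intro i hi
    show Option.map enc ((run D δ q0 (c * (n + 1))).out.reverse.reverse[i]?) = _
    have h1 : i < (run D δ q0 (c * (n + 1))).out.length := lt_of_lt_of_le hi (hc n)
    rw [List.reverse_reverse, List.getElem?_eq_getElem h1, hinit _ i h1]
    rfl

end Pool.Agent.H77.RT
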